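import Pool.Agent.T2h56.PM.Lip

/-! Barriers at left turns with a branch whose derivative is Lipschitz. -/

set_option autoImplicit false
open Complex Set Topology Metric

namespace Pool.Agent.T2h56.PM

open Pool.Agent.H763R2 Pool.Agent.H763R2.An

variable {c : ℝ → ℂ}

/-- second differences -/
def SD (a : ℝ → ℝ) (C x₀ x₁ : ℝ) : Prop := ∀ u v d, x₀ ≤ u → x₀ ≤ v → 0 ≤ d → u + d ≤ x₁ →
  v + d ≤ x₁ → a (v + d) - a v - (a (u + d) - a u) ≤ C * d * |v - u|

theorem SD.mono {a : ℝ → ℝ} {C x₀ x₁ x₀' : ℝ} (h : SD a C x₀ x₁) (h0 : x₀ ≤ x₀') :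
    SD a C x₀' x₁ := fun u v d h1 h2 h3 h4 h5 => h u v d (h0.trans h1) (h0.trans h2) h3 h4 h5

theorem sd_of_deriv {a a' : ℝ → ℝ} {C x₀ x₁ : ℝ}
    (h : ∀ x ∈ Icc x₀ x₁, HasDerivWithinAt a (a' x) (Icc x₀ x₁) x)
    (hL : ∀ x ∈ Icc x₀ x₁, ∀ y ∈ Icc x₀ x₁, |a' y - a' x| ≤ C * |y - x|) : SD a C x₀ x₁ := by
  intro u v d h1 h2 h3 h4 h5
  have key := Convex.norm_image_sub_le_of_norm_hasDerivWithin_le
    (f := fun x => a (x + d) - a x) (f' := fun x => a' (x + d) - a' x) (C := C * d)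
    (s := Icc x₀ (x₁ - d)) (x := u) (y := v) (fun x hx => by
      have e1 : HasDerivWithinAt (fun x => a (x + d)) (a' (x + d)) (Icc x₀ (x₁ - d)) x := by
        have g1 := h (x + d) ⟨by linarith [hx.1], by linarith [hx.2]⟩
        have g2 : HasDerivWithinAt (fun x : ℝ => x + d) 1 (Icc x₀ (x₁ - d)) x :=
          (hasDerivWithinAt_id x _).add_const d
        have g4 : MapsTo (fun x : ℝ => x + d) (Icc x₀ (x₁ - d)) (Icc x₀ x₁) := fun y hy =>
          ⟨by show x₀ ≤ y + d; linarith [hy.1], by show y + d ≤ x₁; linarith [hy.2]⟩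
        have g3 := HasDerivWithinAt.comp x g1 g2 g4
        rw [mul_one] at g3
        exact g3
      have e2 : HasDerivWithinAt a (a' x) (Icc x₀ (x₁ - d)) x :=
        (h x ⟨hx.1, by linarith [hx.2]⟩).mono (Icc_subset_Icc le_rfl (by linarith))
      exact e1.sub e2) (fun x hx => by
      rw [Real.norm_eq_abs]
      have := hL x ⟨hx.1, by linarith [hx.2]⟩ (x + d) ⟨by linarith [hx.1], by linarith [hx.2]⟩
      rw [add_sub_cancel_left, abs_of_nonneg h3] at this
      exact this) (convex_Icc _ _) ⟨h1, by linarith⟩ ⟨h2, by linarith⟩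
  rw [Real.norm_eq_abs, Real.norm_eq_abs] at key
  exact (le_abs_self _).trans key

theorem slopeIn_of_deriv {a a' : ℝ → ℝ} {C x₀ x₁ : ℝ} (hC : 0 ≤ C)
    (h : ∀ x ∈ Icc x₀ x₁, HasDerivWithinAt a (a' x) (Icc x₀ x₁) x)
    (hL : ∀ x ∈ Icc x₀ x₁, ∀ y ∈ Icc x₀ x₁, |a' y - a' x| ≤ C * |y - x|) :
    SlopeIn a (a' x₁) (C * (x₁ - x₀)) x₀ x₁ := by
  intro x hx y hy
  have key := Convex.norm_image_sub_le_of_norm_hasDerivWithin_le
    (f := fun x => a x - a' x₁ * x) (f' := fun x => a' x - a' x₁) (C := C * (x₁ - x₀))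
    (s := Icc x₀ x₁) (x := x) (y := y) (fun x hx => by
      have e2 : HasDerivWithinAt (fun x : ℝ => a' x₁ * x) (a' x₁) (Icc x₀ x₁) x := by
        have := (hasDerivWithinAt_id x (Icc x₀ x₁)).const_mul (a' x₁)
        rw [mul_one] at this
        exact this
      exact (h x hx).sub e2) (fun z hz => by
      rw [Real.norm_eq_abs]
      refine (hL x₁ ⟨hx.1.trans hx.2, le_rfl⟩ z hz).trans (mul_le_mul_of_nonneg_left ?_ hC)
      rw [abs_sub_comm, abs_of_nonneg (by linarith [hz.2])]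
      linarith [hz.1]) (convex_Icc _ _) hx hy
  rw [Real.norm_eq_abs, Real.norm_eq_abs] at key
  have e : a y - a' x₁ * y - (a x - a' x₁ * x) = a y - a x - a' x₁ * (y - x) := by ring
  rw [e] at key
  exact key

/-- the first branch has a Lipschitz derivative -/
theorem ceeA {p t q k l C κ M : ℝ} {a : ℝ → ℝ} (pt : p < t) (tq : t < q) (qp : q < p + 1)
    (tn : Tn c p t q) (tl : TL c p t q) (ha : ∀ τ ∈ Icc p t, (c τ).im = a (c τ).re)
    (hlip : SlopeIn a k l (c p).re (c t).re) (hl : 0 ≤ l) (hkl : 2 * |k| * l + l ^ 2 ≤ 1 / 2)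
    (hsd : SD a C (c p).re (c t).re) (hC : 0 ≤ C) (hκ : 2 * C * (|k| + l) ≤ κ) (hM : 2 * κ ≤ M)
    (hMX : M * ((c t).re - (c p).re) ≤ 1 / 2) (hpq : (c p).re ≤ (c q).re)
    (hh : 0 < (c q).im - a (c q).re) (hsm : 4 * κ * ((c q).im - a (c q).re) ≤ 1)
    (hrec : ∀ τ ∈ Icc t q, ((c τ).im - a (c τ).re) * (1 + M * ((c τ).re - (c t).re)) ≤
      ((c q).im - a (c q).re) * (1 + M * ((c q).re - (c t).re)))
    (hp : ∀ τ ∈ Icc t q, (c p).re - (c τ).re ≤ (k - l) * ((c τ).im - (c p).im)) :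
    LB c p t q where
  pt := pt
  tq := tq
  qp := qp
  tn := tn
  tl := tl
  b1 := by
    rintro σ h1 h2 ⟨a0, -, -, α, a5, a6, a7, a8⟩
    have hd : 0 < (c σ).im - (c p).im := sub_pos.2 a0
    have f1 := ha α ⟨a5.le, a6.le⟩
    have f2 := ha p ⟨le_rfl, pt.le⟩
    have f3 := tn.geA a5.le a6.le le_rfl
    rw [f1, a7] at a8
    rw [a7] at f3
    rw [Wt_im] at a8
    rw [Wt_re] at a8 f3
    have f4 := abs_le.1 (hlip (c p).re ⟨le_rfl, tn.geA le_rfl pt.le le_rfl⟩
      ((c p).re - ((c p).im - (c σ).im)) ⟨by linarith, f3⟩)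
    rw [show (c p).re - ((c p).im - (c σ).im) - (c p).re = (c σ).im - (c p).im by ring,
      abs_of_pos hd] at f4
    have f5 := hp σ ⟨h1.le, h2⟩
    linarith [f4.1]
  b2 := by
    rintro σ h1 h2 ⟨a0, -, ⟨β, a1, a2, a3, a4⟩, α, a5, a6, a7, a8⟩
    have hd : 0 < (c q).im - (c σ).im := sub_pos.2 a0
    obtain ⟨d, hd2⟩ : ∃ d, d = (c q).im - (c σ).im := ⟨_, rfl⟩
    have f1 := ha α ⟨by linarith, a6.le⟩
    have f2 := ha σ ⟨h1, h2.le⟩
    have f3 := tn.geA (by linarith) a6.le le_rfl (τ := α)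
    have f4 := hrec β ⟨a1.le, a2.le⟩
    have f5 := tn.geB le_rfl a1.le a2.le
    have f6 := tn.geA le_rfl h1 h2.le
    rw [Wt_re] at a7
    rw [Wt_im] at a8
    rw [Vt_re] at a3
    rw [Vt_im] at a4
    have g1 : (c α).re = (c σ).re + d := by rw [a7, hd2]; ring
    have g2 : (c β).re = (c q).re + d := by rw [a3, hd2]; ring
    rw [g1] at f1 f3
    rw [g2] at f4 f5
    rw [← hd2] at hd
    obtain ⟨e, he⟩ : ∃ e, e = (c σ).re - (c q).re := ⟨_, rfl⟩
    obtain ⟨hP, hhP⟩ : ∃ hP, hP = (c q).im - a (c q).re := ⟨_, rfl⟩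
    obtain ⟨hβ, hhβ⟩ : ∃ hβ, hβ = (c β).im - a ((c q).re + d) := ⟨_, rfl⟩
    obtain ⟨w, hw⟩ : ∃ w, w = 1 + M * ((c q).re - (c t).re) := ⟨_, rfl⟩
    have ew : 1 + M * ((c q).re + d - (c t).re) = w + M * d := by rw [hw]; ring
    rw [ew, ← hw, ← hhβ, ← hhP] at f4
    rw [← hhP] at hh hsm
    have hκ0 : 0 ≤ κ := le_trans (mul_nonneg (mul_nonneg zero_le_two hC)
      (add_nonneg (abs_nonneg k) hl)) hκ
    have hM0 : 0 ≤ M := by linarith
    have hw1 : w ≤ 1 := by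
      have := mul_nonneg hM0 (show 0 ≤ (c t).re - (c q).re by linarith)
      rw [hw]; linarith
    have hw2 : 1 / 2 ≤ w := by
      have := mul_le_mul_of_nonneg_left (show (c t).re - (c q).re ≤ (c t).re - (c p).re by
        linarith) hM0
      rw [hw]; linarith
    have hMd := mul_nonneg hM0 hd.le
    have hwβ : 0 < w + M * d := by linarith
    -- the two inequalities
    have i1 : a ((c σ).re + d) - a (c σ).re < e := by linarith
    have i2 : e < hβ - hP + (a ((c q).re + d) - a (c q).re) := by linarith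
    have j1 := abs_le.1 (hlip (c σ).re ⟨f6, by linarith⟩ ((c σ).re + d) ⟨by linarith, f3⟩)
    have j2 := abs_le.1 (hlip (c q).re ⟨hpq, by linarith⟩ ((c q).re + d) ⟨by linarith, f5⟩)
    rw [show (c σ).re + d - (c σ).re = d by ring, abs_of_pos hd] at j1
    rw [show (c q).re + d - (c q).re = d by ring, abs_of_pos hd] at j2
    have k1 : hβ ≤ hP := by
      have h3 : hP * w ≤ hP * (w + M * d) := mul_le_mul_of_nonneg_left (by linarith) hh.le
      exact le_of_mul_le_mul_right (f4.trans h3) hwβ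
    have k2 : (k - l) * d ≤ e := by linarith [j1.1]
    have k3 : e ≤ (k + l) * d := by linarith [j2.2]
    have k4 : |e| ≤ (|k| + l) * d := by
      rw [abs_le]
      have h5 := mul_le_mul_of_nonneg_right (le_abs_self k) hd.le
      have h6 := mul_le_mul_of_nonneg_right (neg_abs_le k) hd.le
      constructor <;> linarith
    have k5 := hsd (c σ).re (c q).re d f6 hpq hd.le f3 f5
    have k6 : |(c q).re - (c σ).re| = |e| := by rw [he, abs_sub_comm]
    rw [k6] at k5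
    have k7 : C * d * |e| ≤ κ / 2 * d * d := by
      have h5 := mul_le_mul_of_nonneg_left k4 (mul_nonneg hC hd.le)
      have h6 := mul_le_mul_of_nonneg_right hκ (mul_nonneg hd.le hd.le)
      linarith
    -- `d` is at most twice the height
    have k8 : d ≤ 2 * hP := by
      have j3 := abs_le.1 (hlip (c q).re ⟨hpq, by linarith⟩ (c σ).re ⟨f6, by linarith⟩)
      rw [← he] at j3
      have h5 := mul_le_mul_of_nonneg_left k4 hl
      have h6 : -(k * e) ≤ -(k ^ 2 * d) + |k| * l * d := by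
        have h7 : |k * (e - k * d)| ≤ |k| * (l * d) := by
          rw [abs_mul]
          refine mul_le_mul_of_nonneg_left ?_ (abs_nonneg k)
          rw [abs_le]
          constructor <;> linarith
        have h8 := (abs_le.1 h7).1
        linarith
      have h9 := mul_le_mul_of_nonneg_right hkl hd.le
      have h10 : 0 ≤ k ^ 2 * d := by positivity
      have h11 : d = hP + a (c q).re - a (c σ).re := by rw [hd2, hhP, f2]; ring
      linarith [j3.1]
    -- the contradiction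
    have l1 : hP - hβ < κ * d * hP := by
      have h5 : κ / 2 * d * d ≤ κ / 2 * d * (2 * hP) :=
        mul_le_mul_of_nonneg_left k8 (mul_nonneg (by linarith) hd.le)
      linarith
    have l2 : κ * d ≤ 1 / 2 := by
      have := mul_le_mul_of_nonneg_left k8 hκ0
      linarith
    have l3 : hP * (1 - κ * d) * (w + M * d) < hP * w := by
      have h5 : hP * (1 - κ * d) < hβ := by linarith
      exact (mul_lt_mul_of_pos_right h5 hwβ).trans_le f4
    have l4 : (1 - κ * d) * (w + M * d) < w := by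
      have h5 : hP * ((1 - κ * d) * (w + M * d)) < hP * w := by linarith
      exact lt_of_mul_lt_mul_left h5 hh.le
    have l5 : κ * d * w ≤ κ * d := by
      have := mul_le_mul_of_nonneg_left hw1 (mul_nonneg hκ0 hd.le)
      linarith
    have l6 : κ * d * (M * d) ≤ 1 / 2 * (M * d) := mul_le_mul_of_nonneg_right l2 hMd
    have l7 : 2 * κ * d ≤ M * d := mul_le_mul_of_nonneg_right hM hd.le
    linarith

/-- local form -/
theorem ceeA_loc (L : Loop c) {t ρ C : ℝ} {a a' : ℝ → ℝ} (hρ : 0 < ρ) (hρ2 : ρ < 1 / 2)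
    (W : Tn c (t - ρ) t (t + ρ)) (hL : TL c (t - ρ) t (t + ρ))
    (ha : ∀ τ ∈ Icc (t - ρ) t, (c τ).im = a (c τ).re) (hC : 0 ≤ C)
    (hd : ∀ x ∈ Icc (c (t - ρ)).re (c t).re,
      HasDerivWithinAt a (a' x) (Icc (c (t - ρ)).re (c t).re) x)
    (hLip : ∀ x ∈ Icc (c (t - ρ)).re (c t).re, ∀ y ∈ Icc (c (t - ρ)).re (c t).re,
      |a' y - a' x| ≤ C * |y - x|) :
    ∃ p q, LB c p t q := by
  have cc := L.cont
  have at0 := ha t ⟨W.h1, le_rfl⟩
  obtain ⟨k, hk⟩ : ∃ k, k = a' (c t).re := ⟨_, rfl⟩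
  obtain ⟨κ, hκ⟩ : ∃ κ, κ = 2 * C * (|k| + 1) := ⟨_, rfl⟩
  have κ0 : 0 ≤ κ := by rw [hκ]; positivity
  obtain ⟨D, hD⟩ : ∃ D, D = min (1 / (4 * (C + 1) * (|k| + 1))) (1 / (2 * (2 * κ + 1))) := ⟨_, rfl⟩
  have D0 : 0 < D := by rw [hD]; positivity
  have D1 : D * (4 * (C + 1) * (|k| + 1)) ≤ 1 := by
    have h1 : D ≤ 1 / (4 * (C + 1) * (|k| + 1)) := by rw [hD]; exact min_le_left _ _
    rwa [le_div_iff₀ (by positivity)] at h1
  have D2 : D * (2 * (2 * κ + 1)) ≤ 1 := by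
    have h1 : D ≤ 1 / (2 * (2 * κ + 1)) := by rw [hD]; exact min_le_right _ _
    rwa [le_div_iff₀ (by positivity)] at h1
  -- the point `p`
  obtain ⟨η0, hη0, hsm0⟩ := small L t D0
  obtain ⟨r0, hr0⟩ : ∃ r0, r0 = min (η0 / 2) ρ := ⟨_, rfl⟩
  have r00 : 0 < r0 := by rw [hr0]; positivity
  have r01 : r0 ≤ η0 / 2 := by rw [hr0]; exact min_le_left _ _
  have r02 : r0 ≤ ρ := by rw [hr0]; exact min_le_right _ _
  obtain ⟨p, hp⟩ : ∃ p, p = t - r0 := ⟨_, rfl⟩
  have hpt : p < t := by linarith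
  have hpρ : t - ρ ≤ p := by linarith
  have hXp : (c t).re - (c p).re ≤ D := (hsm0 p (by
    rw [abs_lt]; constructor <;> linarith)).1
  have g0 : (c (t - ρ)).re ≤ (c p).re := W.geA le_rfl hpρ hpt.le
  have g1 : (c p).re < (c t).re := W.inc p ⟨hpρ, hpt.le⟩ t ⟨W.h1, le_rfl⟩ hpt
  have ap := ha p ⟨hpρ, hpt.le⟩
  have hDp : 0 < (c t).re - (c p).re := sub_pos.2 g1
  obtain ⟨l, hl⟩ : ∃ l, l = C * ((c t).re - (c p).re) := ⟨_, rfl⟩
  have l0 : 0 ≤ l := by rw [hl]; positivity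
  have hsub : Icc (c p).re (c t).re ⊆ Icc (c (t - ρ)).re (c t).re := Icc_subset_Icc g0 le_rfl
  have hslope : SlopeIn a k l (c p).re (c t).re := by
    rw [hk, hl]
    exact slopeIn_of_deriv hC (fun x hx => (hd x (hsub hx)).mono hsub)
      fun x hx y hy => hLip x (hsub hx) y (hsub hy)
  have hsd : SD a C (c p).re (c t).re := (sd_of_deriv hd hLip).mono g0
  have l1 : l * (4 * (|k| + 1)) ≤ 1 := by
    have h1 : l ≤ (C + 1) * D := by
      rw [hl]
      have := mul_le_mul_of_nonneg_left hXp hC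
      linarith
    have h2 := mul_le_mul_of_nonneg_right h1 (show 0 ≤ 4 * (|k| + 1) by positivity)
    linarith
  have l2 : l ≤ 1 / 4 := by
    have := mul_nonneg l0 (abs_nonneg k)
    linarith
  have hkl : 2 * |k| * l + l ^ 2 ≤ 1 / 2 := by
    nlinarith [abs_nonneg k]
  have hkl2 : l ^ 2 < 1 + k ^ 2 := by nlinarith [sq_nonneg k]
  have hs := hslope (c p).re ⟨le_rfl, g1.le⟩ (c t).re ⟨g1.le, le_rfl⟩
  rw [abs_of_pos hDp] at hs
  have hpos := slope_pos hDp hkl2 hs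
  rw [← at0, ← ap] at hpos
  have cg : Continuous fun τ => (k - l) * ((c τ).im - (c p).im) + ((c τ).re - (c p).re) := by
    fun_prop
  obtain ⟨η2, hη2, hsm2⟩ := Metric.continuous_iff.1 cg t _ hpos
  obtain ⟨η, hη, hsm⟩ := small L t hDp
  -- the window of `B`
  obtain ⟨r1, hr1⟩ : ∃ r1, r1 = min (min (η / 2) η2) ρ := ⟨_, rfl⟩
  have r10 : 0 < r1 := by rw [hr1]; positivity
  have r11 : r1 ≤ η / 2 := by rw [hr1]; exact (min_le_left _ _).trans (min_le_left _ _)
  have r12 : r1 ≤ η2 := by rw [hr1]; exact (min_le_left _ _).trans (min_le_right _ _)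
  have r13 : r1 ≤ ρ := by rw [hr1]; exact min_le_right _ _
  have hin : ∀ τ ∈ Icc t (t + r1), (c τ).re ∈ Icc (c p).re (c t).re := by
    intro τ hτ
    have h1 := (hsm τ (by rw [abs_lt]; constructor <;> linarith [hτ.1, hτ.2])).1
    exact ⟨by linarith, W.geB le_rfl hτ.1 (by linarith [hτ.2])⟩
  have ch : ContinuousOn (fun τ => (c τ).im - a (c τ).re) (Icc t (t + r1)) :=
    ContinuousOn.sub (by fun_prop) ((slope_cont hslope).comp (by fun_prop) hin)
  have hpos2 : ∀ τ, t < τ → τ ≤ t + r1 → 0 < (c τ).im - a (c τ).re := by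
    intro τ h1 h2
    have h3 := hin τ ⟨h1.le, h2⟩
    have h5 : (c τ).re < (c t).re := W.dec t ⟨le_rfl, W.h2⟩ τ ⟨h1.le, by linarith⟩ h1
    obtain ⟨α, hα, eα⟩ := intermediate_value_Icc hpt.le (f := fun τ => (c τ).re) (by fun_prop) h3
    simp only at eα
    have h6 : α < t := lt_of_le_of_ne hα.2 fun h => by rw [h] at eα; linarith
    have h7 := hL α ⟨by linarith [hα.1], h6⟩ τ ⟨h1, by linarith⟩ eα
    have h8 := ha α ⟨by linarith [hα.1], hα.2⟩
    rw [eα] at h8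
    linarith
  have hsmall : ∃ r, 0 < r ∧ r ≤ r1 ∧ ∀ τ ∈ Icc t (t + r), 4 * κ * ((c τ).im - a (c τ).re) ≤ 1 := by
    have h1 : ContinuousWithinAt (fun τ => (c τ).im - a (c τ).re) (Icc t (t + r1)) t :=
      ch t ⟨le_rfl, by linarith⟩
    obtain ⟨η3, hη3, h3⟩ := Metric.continuousWithinAt_iff.1 h1 (1 / (4 * κ + 1)) (by positivity)
    refine ⟨min (η3 / 2) r1, by positivity, min_le_right _ _, fun τ hτ => ?_⟩
    have m1 := min_le_left (η3 / 2) r1
    have m2 := min_le_right (η3 / 2) r1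
    have h4 := h3 (x := τ) ⟨hτ.1, by linarith [hτ.2]⟩ (by
      rw [Real.dist_eq, abs_lt]; constructor <;> linarith [hτ.1, hτ.2])
    rw [← at0, sub_self, Real.dist_eq, sub_zero] at h4
    have h5 := (abs_lt.1 h4).2
    rw [lt_div_iff₀ (by positivity)] at h5
    rcases le_or_gt 0 ((c τ).im - a (c τ).re) with h6 | h6
    · linarith
    · have : 4 * κ * ((c τ).im - a (c τ).re) ≤ 0 :=
        mul_nonpos_of_nonneg_of_nonpos (by positivity) h6.le
      linarith
  obtain ⟨r, rr0, rr1, hsmr⟩ := hsmall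
  have cf : ContinuousOn (fun τ => ((c τ).im - a (c τ).re) *
      (1 + 2 * κ * ((c τ).re - (c t).re))) (Icc t (t + r)) :=
    (ch.mono (Icc_subset_Icc le_rfl (by linarith))).mul (by fun_prop)
  have hwt : ∀ τ ∈ Icc t (t + r), 0 < 1 + 2 * κ * ((c τ).re - (c t).re) := by
    intro τ hτ
    have h1 := (hin τ ⟨hτ.1, by linarith [hτ.2]⟩).1
    have h2 := mul_le_mul_of_nonneg_left (show (c t).re - (c τ).re ≤ D by linarith)
      (show 0 ≤ 2 * κ by positivity)
    linarith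
  obtain ⟨q, q1, q2, q3⟩ := rec_right cf (fun ε hε => by
    obtain ⟨s, hs⟩ : ∃ s, s = min (ε / 2) r := ⟨_, rfl⟩
    have s0 : 0 < s := by rw [hs]; positivity
    have s1 : s ≤ ε / 2 := by rw [hs]; exact min_le_left _ _
    have s2 : s ≤ r := by rw [hs]; exact min_le_right _ _
    refine ⟨t + s, by linarith, by linarith, ?_⟩
    rw [← at0, sub_self, zero_mul]
    exact (mul_pos (hpos2 _ (by linarith) (by linarith)) (hwt _ ⟨by linarith, by linarith⟩)).le)
    rr0 le_rfl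
  refine ⟨p, q, ceeA (a := a) (k := k) (l := l) (C := C) (κ := κ) (M := 2 * κ) hpt q1 (by linarith)
    (W.sub hpρ hpt.le q1.le (by linarith)) (hL.sub hpρ (by linarith))
    (fun τ hτ => ha τ ⟨by linarith [hτ.1], hτ.2⟩) hslope l0 hkl hsd hC ?_ le_rfl ?_
    (hin q ⟨q1.le, by linarith⟩).1 (hpos2 q q1 (by linarith)) (hsmr q ⟨q1.le, q2.le⟩) q3
    fun τ hτ => ?_⟩
  · rw [hκ]
    have := mul_le_mul_of_nonneg_left (show |k| + l ≤ |k| + 1 by linarith)
      (show 0 ≤ 2 * C by positivity)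
    linarith
  · have h2 := mul_le_mul_of_nonneg_left hXp (show 0 ≤ 2 * κ by positivity)
    linarith
  · have h1 := hsm2 τ (by
      rw [Real.dist_eq, abs_lt]; constructor <;> linarith [hτ.1, hτ.2])
    rw [Real.dist_eq] at h1
    have h2 := (abs_lt.1 h1).1
    linarith

end Pool.Agent.T2h56.PM
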