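import Pool.Agent.T2h56.PM.ELeft

/-! Compactness. -/

set_option autoImplicit false
open Complex Set Topology Metric

namespace Pool.Agent.T2h56.PM

open Pool.Agent.H763R2 Pool.Agent.H763R2.An
open Pool.Agent.H763R2.Dm (NoSq)
open Pool.Agent.Y765.Sq (Ann)

variable {c : ℝ → ℂ}

/-- a closed curve whose points are all of the good kinds -/
theorem core (L : Loop c) (J : Inj c) (hor : ∀ z, 0 < mgc c z → IsWc c z 1)
    (H : ∀ t ∈ Icc (0:ℝ) 1, SOK c t ∧ EOK c t) : ¬ NoSq (range c) := by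
  intro nosq
  obtain ⟨ε, hε, hP⟩ : ∃ ε > 0, ∀ δ, 0 < δ → δ < ε → ∀ x ∈ Icc (0:ℝ) 1, ∀ T k l, Fm c δ T k l →
      ((1 ≤ k ∨ 1 ≤ l) → pj (x, δ) ∉ T) ∧ (k ≤ 0 → l ≤ 0 → pj (x, 1 - δ) ∉ T) := by
    refine isCompact_Icc.induction_on (p := fun s : Set ℝ => ∃ ε > 0, ∀ δ, 0 < δ → δ < ε →
      ∀ x ∈ s, ∀ T k l, Fm c δ T k l → ((1 ≤ k ∨ 1 ≤ l) → pj (x, δ) ∉ T) ∧
        (k ≤ 0 → l ≤ 0 → pj (x, 1 - δ) ∉ T)) ?_ ?_ ?_ ?_
    · exact ⟨1, one_pos, fun δ _ _ x hx => absurd hx (notMem_empty x)⟩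
    · rintro s t hst ⟨ε, hε, h⟩
      exact ⟨ε, hε, fun δ d0 d1 x hx => h δ d0 d1 x (hst hx)⟩
    · rintro s t ⟨ε, hε, h⟩ ⟨ε', hε', h'⟩
      refine ⟨min ε ε', lt_min hε hε', fun δ d0 d1 x hx => ?_⟩
      rcases hx with hx | hx
      · exact h δ d0 (d1.trans_le (min_le_left _ _)) x hx
      · exact h' δ d0 (d1.trans_le (min_le_right _ _)) x hx
    · intro t ht
      obtain ⟨⟨ε, hε, h⟩, ε', hε', h'⟩ := H t ht
      refine ⟨ball t (min ε ε'), mem_nhdsWithin_of_mem_nhds (ball_mem_nhds _ (lt_min hε hε')),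
        min ε ε', lt_min hε hε', fun δ d0 d1 x hx T k l F => ?_⟩
      rw [mem_ball, Real.dist_eq] at hx
      exact ⟨fun hkl => h δ d0 (d1.trans_le (min_le_left _ _)) T k l F hkl x
        (hx.trans_le (min_le_left _ _)), fun hk hl => h' δ d0 (d1.trans_le (min_le_right _ _))
        T k l F hk hl x (hx.trans_le (min_le_right _ _))⟩
  obtain ⟨δ, hδ⟩ : ∃ δ, δ = min (ε / 2) (1 / 4) := ⟨_, rfl⟩
  have d0 : 0 < δ := by rw [hδ]; positivity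
  have d1 : δ < ε := by
    have : δ ≤ ε / 2 := by rw [hδ]; exact min_le_left _ _
    linarith
  have d2 : δ < 1 / 2 := by
    have : δ ≤ 1 / 4 := by rw [hδ]; exact min_le_right _ _
    linarith
  obtain ⟨T, k, l, F⟩ := exists_fm L J nosq hor d0 d2
  by_cases hkl : 1 ≤ k ∨ 1 ≤ l
  · obtain ⟨p, hp, ep⟩ := F.s0
    obtain ⟨q, hq, eq⟩ := exists_pj p
    have h2 : q.2 = δ := by rw [← ep, ← eq]; rfl
    refine (hP δ d0 d1 q.1 hq T k l F).1 hkl ?_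
    rw [← h2]
    show pj q ∈ T
    rw [eq]; exact hp
  · push Not at hkl
    obtain ⟨p, hp, ep⟩ := F.s1
    obtain ⟨q, hq, eq⟩ := exists_pj p
    have h2 : q.2 = 1 - δ := by rw [← ep, ← eq]; rfl
    refine (hP δ d0 d1 q.1 hq T k l F).2 (by omega) (by omega) ?_
    rw [← h2]
    show pj q ∈ T
    rw [eq]; exact hp

end Pool.Agent.T2h56.PM
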