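import Pool.Agent.T2h56.PM.SLeft

/-! Long chords, and the short chords at the other points. -/

set_option autoImplicit false
open Complex Set Topology Metric

namespace Pool.Agent.T2h56.PM

open Pool.Agent.H763R2 Pool.Agent.H763R2.An
open Pool.Agent.Y765.Sq (Ann)
open Pool.Agent.N335.Hg (Phi Phi_add Phi_wind)

variable {c : ℝ → ℂ} {z : ℂ}

/-- long chords with good labels do not exist near the point -/
def EOK (c : ℝ → ℂ) (t : ℝ) : Prop := ∃ ε > 0, ∀ δ, 0 < δ → δ < ε → ∀ T k l, Fm c δ T k l →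
  k ≤ 0 → l ≤ 0 → ∀ x, |x - t| < ε → pj (x, 1 - δ) ∉ T

theorem long_info (L : Loop c) {δ : ℝ} {T : Set Ann} {k l : ℤ} (F : Fm c δ T k l) (hk : k ≤ 0)
    (hl : l ≤ 0) {x s y : ℝ} (hq : pj (x, s) ∈ T) (hy : y = x + s - 1) :
    In2 c x y ∧ Real.pi < Phi c (Vt c x y) y x ∧ Real.pi < Phi c (Wt c x y) y x := by
  have hπ := Real.pi_pos
  have hin := F.ins _ hq
  have hV := F.labV _ hq
  have hW := F.labW _ hq
  simp only at hin hV hW
  have e : x + s = y + 1 := by rw [hy]; ring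
  have ev : Vt c x (x + s) = Vt c x y := by unfold Vt; rw [e, L.per]
  have ew : Wt c x (x + s) = Wt c x y := by unfold Wt; rw [e, L.per]
  obtain ⟨nv, nw⟩ := hin
  rw [ev] at hV nv
  rw [ew] at hW nw
  rw [e] at hV hW
  have k1 : (k : ℝ) ≤ 0 := by exact_mod_cast hk
  have l1 : (l : ℝ) ≤ 0 := by exact_mod_cast hl
  refine ⟨⟨nv, nw⟩, ?_, ?_⟩
  · have h1 := Phi_add L (wc_notMem nv) y x (y + 1)
    rw [Phi_wind L nv, hV] at h1
    push_cast at h1
    nlinarith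
  · have h1 := Phi_add L (wc_notMem nw) y x (y + 1)
    rw [Phi_wind L nw, hW] at h1
    push_cast at h1
    nlinarith

/-- the real part is strictly monotone -/
def SM (c : ℝ → ℂ) (a b : ℝ) : Prop :=
  (∀ τ ∈ Icc a b, ∀ τ' ∈ Icc a b, τ < τ' → (c τ).re < (c τ').re) ∨
    ∀ τ ∈ Icc a b, ∀ τ' ∈ Icc a b, τ < τ' → (c τ').re < (c τ).re

theorem SM.sub {a b a' b' : ℝ} (h : SM c a b) (ha : a ≤ a') (hb : b' ≤ b) : SM c a' b' :=
  h.imp (fun h τ hτ τ' hτ' hh => h τ ⟨ha.trans hτ.1, hτ.2.trans hb⟩ τ'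
    ⟨ha.trans hτ'.1, hτ'.2.trans hb⟩ hh) fun h τ hτ τ' hτ' hh => h τ
    ⟨ha.trans hτ.1, hτ.2.trans hb⟩ τ' ⟨ha.trans hτ'.1, hτ'.2.trans hb⟩ hh

theorem SM.inj {a b : ℝ} (h : SM c a b) : RInj c a b := by
  intro τ hτ τ' hτ' e
  rcases lt_trichotomy τ τ' with h1 | h1 | h1
  · rcases h with h | h
    · linarith [h τ hτ τ' hτ' h1]
    · linarith [h τ hτ τ' hτ' h1]
  · exact h1
  · rcases h with h | h
    · linarith [h τ' hτ' τ hτ h1]
    · linarith [h τ' hτ' τ hτ h1]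

theorem SM.mono {a b : ℝ} (h : SM c a b) :
    (∀ τ ∈ Icc a b, ∀ τ' ∈ Icc a b, τ ≤ τ' → (c τ).re ≤ (c τ').re) ∨
      ∀ τ ∈ Icc a b, ∀ τ' ∈ Icc a b, τ ≤ τ' → (c τ').re ≤ (c τ).re := by
  rcases h with h | h
  · left
    intro τ hτ τ' hτ' hh
    rcases hh.lt_or_eq with h1 | h1
    · exact (h τ hτ τ' hτ' h1).le
    · rw [h1]
  · right
    intro τ hτ τ' hτ' hh
    rcases hh.lt_or_eq with h1 | h1
    · exact (h τ hτ τ' hτ' h1).le
    · rw [h1]

theorem Tn.smA {s t s' : ℝ} (T : Tn c s t s') : SM c s t := Or.inl T.inc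
theorem Tn.smB {s t s' : ℝ} (T : Tn c s t s') : SM c t s' := Or.inr T.dec

theorem short_no (L : Loop c) {δ : ℝ} {T : Set Ann} {k l : ℤ} (F : Fm c δ T k l)
    (hkl : 1 ≤ k ∨ 1 ≤ l) {x : ℝ}
    (h : ∀ z, z ∉ range c → Phi c z x (x + δ) < 2 * Real.pi) : pj (x, δ) ∉ T := by
  intro hq
  have hin := F.ins _ hq
  rcases bad_ge hkl (F.labV _ hq) (F.labW _ hq) with h1 | h1
  · exact not_lt.2 h1 (h _ (wc_notMem hin.nv))
  · exact not_lt.2 h1 (h _ (wc_notMem hin.nw))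

theorem long_no (L : Loop c) {δ : ℝ} {T : Set Ann} {k l : ℤ} (F : Fm c δ T k l) (hk : k ≤ 0)
    (hl : l ≤ 0) {x : ℝ}
    (h : Vt c x (x - δ) ∉ range c → Wt c x (x - δ) ∉ range c →
      Phi c (Vt c x (x - δ)) (x - δ) x ≤ Real.pi ∨ Phi c (Wt c x (x - δ)) (x - δ) x ≤ Real.pi) :
    pj (x, 1 - δ) ∉ T := by
  intro hq
  obtain ⟨h1, h2, h3⟩ := long_info L F hk hl hq (y := x - δ) (by ring)
  rcases h (wc_notMem h1.nv) (wc_notMem h1.nw) with h | h <;> linarith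

theorem ok_mono (L : Loop c) {t ρ : ℝ} (hρ : 0 < ρ) (M : SM c (t - ρ) (t + ρ)) :
    SOK c t ∧ EOK c t := by
  refine ⟨⟨ρ / 2, by linarith, fun δ d0 d1 T k l F hkl x hx => ?_⟩,
    ρ / 2, by linarith, fun δ d0 d1 T k l F hk hl x hx => ?_⟩
  · obtain ⟨x1, x2⟩ := abs_lt.1 hx
    exact short_no L F hkl fun z hz => Phi_inj_lt L hz (by linarith)
      (M.sub (by linarith) (by linarith)).inj
  · obtain ⟨x1, x2⟩ := abs_lt.1 hx
    exact long_no L F hk hl fun hv hw => E_mono L (by linarith)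
      (M.sub (by linarith) (by linarith)).mono hv hw

theorem TR.sub {s t s' a b : ℝ} (hL : TR c s t s') (ha : s ≤ a) (hb : b ≤ s') : TR c a t b :=
  fun τ hτ τ' hτ' h => hL τ ⟨ha.trans hτ.1, hτ.2⟩ τ' ⟨hτ'.1, hτ'.2.trans hb⟩ h

theorem ok_right (L : Loop c) {t ρ : ℝ} (hρ : 0 < ρ) (W : Tn c (t - ρ) t (t + ρ))
    (hR : TR c (t - ρ) t (t + ρ)) : SOK c t ∧ EOK c t := by
  refine ⟨⟨ρ / 2, by linarith, fun δ d0 d1 T k l F hkl x hx => ?_⟩,
    ρ / 2, by linarith, fun δ d0 d1 T k l F hk hl x hx => ?_⟩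
  · obtain ⟨x1, x2⟩ := abs_lt.1 hx
    refine short_no L F hkl fun z hz => ?_
    by_cases c1 : x + δ ≤ t
    · exact Phi_inj_lt L hz (by linarith) (W.smA.sub (by linarith) c1).inj
    by_cases c2 : t ≤ x
    · exact Phi_inj_lt L hz (by linarith) (W.smB.sub c2 (by linarith)).inj
    push Not at c1 c2
    exact turnR_lt L hz (W.sub (by linarith) c2.le c1.le (by linarith))
      (hR.sub (by linarith) (by linarith))
  · obtain ⟨x1, x2⟩ := abs_lt.1 hx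
    refine long_no L F hk hl fun hv hw => ?_
    by_cases c1 : x ≤ t
    · exact E_mono L (by linarith) (W.smA.sub (by linarith) c1).mono hv hw
    by_cases c2 : t ≤ x - δ
    · exact E_mono L (by linarith) (W.smB.sub c2 (by linarith)).mono hv hw
    push Not at c1 c2
    exact E_right L (W.sub (by linarith) c2.le c1.le (by linarith))
      (hR.sub (by linarith) (by linarith)) hv hw

/-- the chord from `c x` to `c y` is a bad long chord at a left turn -/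
structure BC (c : ℝ → ℂ) (t x y : ℝ) : Prop where
  im : (c y).im < (c x).im
  ins : In2 c x y
  V : ∃ β, t < β ∧ β < x ∧ (c β).re = (Vt c x y).re ∧ (Vt c x y).im < (c β).im
  W : ∃ α, y < α ∧ α < t ∧ (c α).re = (Wt c x y).re ∧ (c α).im < (Wt c x y).im

/-- a left turn with a barrier -/
structure LB (c : ℝ → ℂ) (p t q : ℝ) : Prop where
  pt : p < t
  tq : t < q
  qp : q < p + 1
  tn : Tn c p t q
  tl : TL c p t q
  b1 : ∀ σ, t < σ → σ ≤ q → ¬ BC c t σ p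
  b2 : ∀ σ, p ≤ σ → σ < t → ¬ BC c t q σ

theorem eok_left (L : Loop c) {p t q : ℝ} (B : LB c p t q) : EOK c t := by
  have cc := L.cont
  obtain ⟨pt, tq, qp, tn, tl, b1, b2⟩ := B
  obtain ⟨ε, he⟩ : ∃ ε, ε = min (min ((t - p) / 2) ((q - t) / 2)) (1 - (q - p)) := ⟨_, rfl⟩
  have e0 : 0 < ε := by
    rw [he]
    refine lt_min (lt_min ?_ ?_) ?_ <;> linarith
  have e1 : ε ≤ (t - p) / 2 := by rw [he]; exact (min_le_left _ _).trans (min_le_left _ _)
  have e2 : ε ≤ (q - t) / 2 := by rw [he]; exact (min_le_left _ _).trans (min_le_right _ _)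
  have e3 : ε ≤ 1 - (q - p) := by rw [he]; exact min_le_right _ _
  refine ⟨ε, e0, fun δ d0 d1 T k l F hk hl x hx hq => ?_⟩
  obtain ⟨x1, x2⟩ := abs_lt.1 hx
  by_cases c1 : x ≤ t
  · exact long_no L F hk hl (fun hv hw => E_mono L (by linarith)
      (tn.smA.sub (by linarith) c1).mono hv hw) hq
  by_cases c2 : t ≤ x - δ
  · exact long_no L F hk hl (fun hv hw => E_mono L (by linarith)
      (tn.smB.sub c2 (by linarith)).mono hv hw) hq
  push Not at c1 c2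
  obtain ⟨N, hN⟩ : ∃ N : Set (ℝ × ℝ), N = {r | p ≤ r.1 + r.2 - 1 ∧ r.1 + r.2 - 1 ≤ t ∧
    t ≤ r.1 ∧ r.1 ≤ q} := ⟨_, rfl⟩
  obtain ⟨U, hU⟩ : ∃ U : Set (ℝ × ℝ), U = {r | p < r.1 + r.2 - 1 ∧ r.1 + r.2 - 1 < t ∧
    t < r.1 ∧ r.1 < q} := ⟨_, rfl⟩
  have hNc : IsCompact N := by
    have hK : IsCompact (Icc t q ×ˢ Icc (p + 1 - q) (1:ℝ)) := isCompact_Icc.prod isCompact_Icc
    refine hK.of_isClosed_subset ?_ ?_
    · rw [hN]
      have k1 : IsClosed {r : ℝ × ℝ | p ≤ r.1 + r.2 - 1} := isClosed_le (by fun_prop) (by fun_prop)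
      have k2 : IsClosed {r : ℝ × ℝ | r.1 + r.2 - 1 ≤ t} := isClosed_le (by fun_prop) (by fun_prop)
      have k3 : IsClosed {r : ℝ × ℝ | t ≤ r.1} := isClosed_le (by fun_prop) (by fun_prop)
      have k4 : IsClosed {r : ℝ × ℝ | r.1 ≤ q} := isClosed_le (by fun_prop) (by fun_prop)
      exact k1.inter (k2.inter (k3.inter k4))
    · rintro ⟨a, s⟩ h
      rw [hN] at h
      obtain ⟨h1, h2, h3, h4⟩ := h
      simp only at h1 h2 h3 h4
      exact ⟨⟨h3, h4⟩, by show p + 1 - q ≤ s; linarith, by show s ≤ 1; linarith⟩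
  have hUo : IsOpen U := by
    rw [hU]
    have k1 : IsOpen {r : ℝ × ℝ | p < r.1 + r.2 - 1} := isOpen_lt (by fun_prop) (by fun_prop)
    have k2 : IsOpen {r : ℝ × ℝ | r.1 + r.2 - 1 < t} := isOpen_lt (by fun_prop) (by fun_prop)
    have k3 : IsOpen {r : ℝ × ℝ | t < r.1} := isOpen_lt (by fun_prop) (by fun_prop)
    have k4 : IsOpen {r : ℝ × ℝ | r.1 < q} := isOpen_lt (by fun_prop) (by fun_prop)
    exact k1.inter (k2.inter (k3.inter k4))
  have hUN : U ⊆ N := by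
    rintro ⟨x, s⟩ h
    rw [hU] at h
    rw [hN]
    obtain ⟨h1, h2, h3, h4⟩ := h
    exact ⟨h1.le, h2.le, h3.le, h4.le⟩
  have key : ∀ r ∈ N, pj r ∈ T → r ∈ U := by
    rintro ⟨x, s⟩ h hqT
    rw [hN] at h
    obtain ⟨h1, h2, h3, h4⟩ := h
    simp only at h1 h2 h3 h4
    obtain ⟨y, hy⟩ : ∃ y, y = x + s - 1 := ⟨_, rfl⟩
    rw [← hy] at h1 h2
    obtain ⟨i1, i2, i3⟩ := long_info L F hk hl hqT hy
    obtain ⟨j1, j2, j3⟩ := turnL_E L (tn.sub h1 h2 h3 h4) (tl.sub h1 h4) (wc_notMem i1.nv)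
      (wc_notMem i1.nw) i2 i3
    have hbc : BC c t x y := ⟨j1, i1, j2, j3⟩
    obtain ⟨β, j4, j5, -⟩ := j2
    obtain ⟨α, j6, j7, -⟩ := j3
    rw [hU]
    show p < x + s - 1 ∧ x + s - 1 < t ∧ t < x ∧ x < q
    rw [← hy]
    refine ⟨lt_of_le_of_ne h1 fun h => ?_, by linarith, by linarith,
      lt_of_le_of_ne h4 fun h => ?_⟩
    · rw [← h] at hbc
      exact b1 x (by linarith) h4 hbc
    · rw [h] at hbc
      exact b2 y h1 (by linarith) hbc
  obtain ⟨r, hr, er⟩ := F.s0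
  obtain ⟨q', hq', e'⟩ := confine F.pre hNc hUo hUN key (q₀ := (x, 1 - δ))
    (by
      rw [hN]
      show p ≤ x + (1 - δ) - 1 ∧ x + (1 - δ) - 1 ≤ t ∧ t ≤ x ∧ x ≤ q
      refine ⟨by linarith, by linarith, by linarith, by linarith⟩) hq r hr
  rw [hN] at hq'
  obtain ⟨h1, h2, h3, h4⟩ := hq'
  have : q'.2 = δ := by rw [← er, ← e']; rfl
  linarith

theorem ok_left (L : Loop c) {p t q : ℝ} (B : LB c p t q) : SOK c t ∧ EOK c t := by
  refine ⟨?_, eok_left L B⟩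
  obtain ⟨ρ, hρ⟩ : ∃ ρ, ρ = min (min (t - p) (q - t)) (1 / 4) := ⟨_, rfl⟩
  have r0 : 0 < ρ := by
    rw [hρ]
    refine lt_min (lt_min ?_ ?_) ?_ <;> linarith [B.pt, B.tq]
  have r1 : ρ ≤ t - p := by rw [hρ]; exact (min_le_left _ _).trans (min_le_left _ _)
  have r2 : ρ ≤ q - t := by rw [hρ]; exact (min_le_left _ _).trans (min_le_right _ _)
  have r3 : ρ ≤ 1 / 4 := by rw [hρ]; exact min_le_right _ _
  exact sok_left L r0 r3 (B.tn.sub (by linarith) (by linarith) (by linarith) (by linarith))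
    (B.tl.sub (by linarith) (by linarith))

/-- near the point there are no chords such that both other vertices are inside -/
theorem ok_block (L : Loop c) {t ε : ℝ} (hε : 0 < ε)
    (h : ∀ x y, |x - t| < ε → |y - t| < ε → ¬ In2 c x y) : SOK c t ∧ EOK c t := by
  refine ⟨⟨ε / 2, by linarith, fun δ d0 d1 T k l F hkl x hx hq => ?_⟩,
    ε / 2, by linarith, fun δ d0 d1 T k l F hk hl x hx hq => ?_⟩
  · obtain ⟨x1, x2⟩ := abs_lt.1 hx
    exact h x (x + δ) (by rw [abs_lt]; constructor <;> linarith)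
      (by rw [abs_lt]; constructor <;> linarith) (F.ins _ hq)
  · obtain ⟨x1, x2⟩ := abs_lt.1 hx
    obtain ⟨h1, -, -⟩ := long_info L F hk hl hq (y := x - δ) (by ring)
    exact h x (x - δ) (by rw [abs_lt]; constructor <;> linarith)
      (by rw [abs_lt]; constructor <;> linarith) h1

theorem SOK.rot (L : Loop c) {w : ℂ} (hw : w ≠ 0) {t : ℝ} (h : SOK (fun τ => w * c τ) t) :
    SOK c t := by
  obtain ⟨ε, hε, h⟩ := h
  exact ⟨ε, hε, fun δ d0 d1 T k l F => h δ d0 d1 T k l (F.rot L hw)⟩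

theorem EOK.rot (L : Loop c) {w : ℂ} (hw : w ≠ 0) {t : ℝ} (h : EOK (fun τ => w * c τ) t) :
    EOK c t := by
  obtain ⟨ε, hε, h⟩ := h
  exact ⟨ε, hε, fun δ d0 d1 T k l F => h δ d0 d1 T k l (F.rot L hw)⟩

end Pool.Agent.T2h56.PM
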