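import Pool.Agent.T2h56.PM.TwoGraph

/-! Examples of ends. -/

set_option autoImplicit false
open Complex Set Topology Metric

namespace Pool.Agent.T2h56.PM

variable {f g : ℝ → ℝ}

def StrictEnd (f : ℝ → ℝ) : Prop := ∃ k : ℝ, ∀ ε > 0, ∃ δ > 0, ∀ x ∈ Icc (1 - δ) 1,
  ∀ y ∈ Icc (1 - δ) 1, |f y - f x - k * (y - x)| ≤ ε * |y - x|

def NoCusp (f g : ℝ → ℝ) : Prop := ∃ ε > 0, ∀ δ > 0, ∃ x ∈ Ioo (1 - δ) 1,
  ε * (1 - x) ≤ g x - f x

theorem strict_lip (h : StrictEnd f) (hc : NoCusp f g) : LipEnd f g := by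
  obtain ⟨k, h⟩ := h
  obtain ⟨ε, hε, hc⟩ := hc
  obtain ⟨e, he⟩ : ∃ e, e = min (ε / 2) (1 / 2) := ⟨_, rfl⟩
  have e0 : 0 < e := by rw [he]; positivity
  have e2 : e ≤ ε / 2 := by rw [he]; exact min_le_left _ _
  have e3 : e ≤ 1 / 2 := by rw [he]; exact min_le_right _ _
  obtain ⟨δ, hδ, h⟩ := h e e0
  refine ⟨k, e, δ, hδ, e0.le, by nlinarith [sq_nonneg k], h, fun ε' hε' => ?_⟩
  obtain ⟨x, hx, h1⟩ := hc ε' hε'
  refine ⟨x, hx, le_trans ?_ h1⟩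
  refine mul_le_mul_of_nonneg_right ?_ (by linarith [hx.2])
  have h2 := mul_le_mul_of_nonneg_left (min_le_left 1 (|k| + e)) (by positivity : 0 ≤ 2 * e)
  linarith

theorem StrictEnd.neg (h : StrictEnd f) : StrictEnd (fun x => -f x) := by
  obtain ⟨k, h⟩ := h
  refine ⟨-k, fun ε hε => ?_⟩
  obtain ⟨δ, hδ, h⟩ := h ε hε
  refine ⟨δ, hδ, fun x hx y hy => ?_⟩
  rw [← abs_neg]
  convert h x hx y hy using 2
  ring

theorem NoCusp.neg (h : NoCusp f g) : NoCusp (fun x => -g x) (fun x => -f x) := by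
  obtain ⟨ε, hε, h⟩ := h
  refine ⟨ε, hε, fun δ hδ => ?_⟩
  obtain ⟨x, hx, h⟩ := h δ hδ
  exact ⟨x, hx, by linarith⟩

theorem end_ok (h : (C11End f ∨ C11End g) ∨ (NoCusp f g ∧ (StrictEnd f ∨ StrictEnd g)) ∨
      (LipEnd f g ∨ LipEnd (fun x => -g x) (fun x => -f x)) ∨
      (MonoEnd f g ∨ MonoEnd (fun x => -g x) (fun x => -f x)) ∨ FrameEnd f g) : EndOK f g := by
  rcases h with h | ⟨hc, h | h⟩ | h | h | h
  · exact Or.inr (Or.inr (Or.inr h))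
  · exact Or.inr (Or.inr (Or.inl (Or.inl (strict_lip h hc))))
  · exact Or.inr (Or.inr (Or.inl (Or.inr (strict_lip h.neg hc.neg))))
  · exact Or.inr (Or.inr (Or.inl h))
  · exact Or.inr (Or.inl h)
  · exact Or.inl h

end Pool.Agent.T2h56.PM
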