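import Pool.Agent.T2h56.PM.Turn2
import Pool.Agent.Y765.Sq.Tri

/-! Connected families of chords such that the two other vertices of the square are inside. -/

set_option autoImplicit false
open Complex Set Topology Metric

namespace Pool.Agent.T2h56.PM

open Pool.Agent.H763R2 Pool.Agent.H763R2.An
open Pool.Agent.H763R2.Dm (NoSq)
open Pool.Agent.Y765.Sq (Ann conn_fam Zs Dirc exists_int exists_rep)
open Pool.Agent.N335.Hg (Lg Phi exists_Lg Phi_eq Phi_add Phi_per Phi_wind Phi_polar Phi_cont ang_eq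
  arg_diff int_zero_of)

variable {c : ℝ → ℂ} {z : ℂ}

/-- the chord from `c x` to `c (x + s)` -/
def pj (q : ℝ × ℝ) : Ann := ((q.1 : AddCircle (1 : ℝ)), q.2)

theorem pj_cont : Continuous pj :=
  ((AddCircle.continuous_mk' 1).comp continuous_fst).prodMk continuous_snd

theorem pj_open : IsOpenMap pj := by
  have h1 : IsOpenMap (fun x : ℝ => (x : AddCircle (1 : ℝ))) := QuotientAddGroup.isOpenMap_coe
  exact h1.prodMap IsOpenMap.id

theorem pj_eq {q q' : ℝ × ℝ} (h : pj q = pj q') : q.2 = q'.2 ∧ ∃ n : ℤ, q.1 = q'.1 + n := by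
  have h1 : (q.1 : AddCircle (1 : ℝ)) = q'.1 := congrArg (fun p : Ann => p.1) h
  have h2 : q.2 = q'.2 := congrArg (fun p : Ann => p.2) h
  exact ⟨h2, exists_int h1⟩

theorem exists_pj (p : Ann) : ∃ q : ℝ × ℝ, q.1 ∈ Icc (0:ℝ) 1 ∧ pj q = p := by
  obtain ⟨x, hx, e⟩ := exists_rep p.1
  exact ⟨(x, p.2), hx, Prod.ext e rfl⟩

theorem conn_open {T : Set Ann} (hT : IsPreconnected T) {O1 O2 : Set (ℝ × ℝ)} (h1 : IsOpen O1)
    (h2 : IsOpen O2) (hcov : ∀ q, pj q ∈ T → q ∈ O1 ∨ q ∈ O2)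
    (hdis : ∀ q q', pj q ∈ T → pj q = pj q' → q ∈ O1 → q' ∈ O2 → False) {q₀ : ℝ × ℝ}
    (hq₀ : pj q₀ ∈ T) (h0 : q₀ ∈ O1) : ∀ q, pj q ∈ T → q ∈ O1 := by
  intro q hq
  rcases hcov q hq with h | h
  · exact h
  · exfalso
    obtain ⟨p, hp, ⟨a, ha, ea⟩, b, hb, eb⟩ := hT _ _ (pj_open _ h1) (pj_open _ h2) (fun p hp => by
      obtain ⟨r, -, hr⟩ := exists_pj p
      rw [← hr] at hp ⊢
      rcases hcov r hp with h | h
      · exact Or.inl ⟨r, h, rfl⟩
      · exact Or.inr ⟨r, h, rfl⟩) ⟨pj q₀, hq₀, q₀, h0, rfl⟩ ⟨pj q, hq, q, h, rfl⟩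
    exact hdis a b (by rw [ea]; exact hp) (ea.trans eb.symm) ha hb

/-- a family that meets a compact set only in the interior -/
theorem confine {T : Set Ann} (hT : IsPreconnected T) {N U : Set (ℝ × ℝ)} (hN : IsCompact N)
    (hU : IsOpen U) (hUN : U ⊆ N) (h : ∀ q ∈ N, pj q ∈ T → q ∈ U) {q₀ : ℝ × ℝ} (h0 : q₀ ∈ N)
    (h0T : pj q₀ ∈ T) : ∀ p ∈ T, ∃ q ∈ N, pj q = p := by
  intro p hp
  by_contra hcon
  have hc : IsClosed (pj '' N) := (hN.image pj_cont).isClosed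
  obtain ⟨r, hr, ⟨a, ha, ea⟩, hb⟩ := hT (pj '' U) (pj '' N)ᶜ (pj_open _ hU) hc.isOpen_compl
    (fun p hp => by
      by_cases h2 : p ∈ pj '' N
      · obtain ⟨a, ha, ea⟩ := h2
        exact Or.inl ⟨a, h a ha (by rw [ea]; exact hp), ea⟩
      · exact Or.inr h2) ⟨pj q₀, h0T, q₀, h q₀ h0 h0T, rfl⟩ ⟨p, hp, fun ⟨a, ha, ea⟩ =>
        hcon ⟨a, ha, ea⟩⟩
  exact hb ⟨a, hUN ha, ea⟩

theorem lab_const {T : Set Ann} (hT : IsPreconnected T) (hne : T.Nonempty) {φ : ℝ × ℝ → ℝ}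
    {U : Set (ℝ × ℝ)} (hU : IsOpen U) (hφ : ContinuousOn φ U) (hTU : ∀ q, pj q ∈ T → q ∈ U)
    (hper : ∀ q q', pj q ∈ T → pj q = pj q' → φ q = φ q') {a : ℝ}
    (hval : ∀ q, pj q ∈ T → ∃ k : ℤ, φ q = a + k * (2 * Real.pi)) :
    ∃ k : ℤ, ∀ q, pj q ∈ T → φ q = a + k * (2 * Real.pi) := by
  have hπ := Real.pi_pos
  obtain ⟨p, hp⟩ := hne
  obtain ⟨q₀, -, e₀⟩ := exists_pj p
  rw [← e₀] at hp
  obtain ⟨k, hk⟩ := hval q₀ hp
  refine ⟨k, fun q hq => ?_⟩
  have hd : ∀ m : ℤ, |(m : ℝ) * (2 * Real.pi) - k * (2 * Real.pi)| < 2 * Real.pi → m = k := by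
    intro m hm
    rw [← sub_mul, abs_mul, abs_of_pos (by positivity : 0 < 2 * Real.pi)] at hm
    have h1 : |((m - k : ℤ) : ℝ)| < 1 := by
      push_cast
      nlinarith
    rw [← Int.cast_abs] at h1
    have h2 : |m - k| < 1 := by exact_mod_cast h1
    rw [Int.abs_lt_one_iff] at h2
    omega
  have key := conn_open hT (O1 := U ∩ φ ⁻¹' (Ioo (a + k * (2 * Real.pi) - 2 * Real.pi)
      (a + k * (2 * Real.pi) + 2 * Real.pi)))
    (O2 := U ∩ φ ⁻¹' ({a + k * (2 * Real.pi)}ᶜ)) (hφ.isOpen_inter_preimage hU isOpen_Ioo)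
    (hφ.isOpen_inter_preimage hU isOpen_compl_singleton) (fun q hq => by
      by_cases h : φ q = a + k * (2 * Real.pi)
      · left
        refine ⟨hTU q hq, ?_⟩
        rw [mem_preimage, h]
        constructor <;> linarith
      · right
        exact ⟨hTU q hq, h⟩) (fun q q' hq e h1 h2 => by
      obtain ⟨m, hm⟩ := hval q hq
      have h3 := h1.2
      rw [mem_preimage, hm] at h3
      have : m = k := hd m (by rw [abs_lt]; constructor <;> linarith [h3.1, h3.2])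
      apply h2.2
      rw [mem_singleton_iff, ← hper q q' hq e, hm, this]) hp (by
      refine ⟨hTU q₀ hp, ?_⟩
      rw [mem_preimage, hk]
      constructor <;> linarith) q hq
  obtain ⟨m, hm⟩ := hval q hq
  have h3 := key.2
  rw [mem_preimage, hm] at h3
  have : m = k := hd m (by rw [abs_lt]; constructor <;> linarith [h3.1, h3.2])
  rw [hm, this]

theorem wc_notMem {n : ℤ} (h : IsWc c z n) : z ∉ range c := by
  rintro ⟨t, rfl⟩
  obtain ⟨k, -, ek, -⟩ := h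
  have := ek t
  rw [sub_self] at this
  exact exp_ne_zero _ this

theorem Phi_perz (L : Loop c) (hz : z ∉ range c) (s t : ℝ) (n : ℤ) :
    Phi c z (s + n) (t + n) = Phi c z s t := by
  have h : Function.Periodic (fun x : ℝ => Phi c z (s + x) (t + x)) 1 := fun x => by
    simp only
    rw [← add_assoc, ← add_assoc, Phi_per L hz]
  have := h.int_mul n 0
  simpa using this

/-- both other vertices of the square on the chord are inside -/
structure In2 (c : ℝ → ℂ) (x y : ℝ) : Prop where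
  nv : IsWc c (Vt c x y) 1
  nw : IsWc c (Wt c x y) 1

/-- a connected family of chords with fixed labels -/
structure Fm (c : ℝ → ℂ) (δ : ℝ) (T : Set Ann) (k l : ℤ) : Prop where
  pre : IsPreconnected T
  s0 : ∃ p ∈ T, p.2 = δ
  s1 : ∃ p ∈ T, p.2 = 1 - δ
  bd : ∀ p ∈ T, δ ≤ p.2 ∧ p.2 ≤ 1 - δ
  ins : ∀ q, pj q ∈ T → In2 c q.1 (q.1 + q.2)
  labV : ∀ q, pj q ∈ T → Phi c (Vt c q.1 (q.1 + q.2)) q.1 (q.1 + q.2) =
    Real.pi / 4 + k * (2 * Real.pi)
  labW : ∀ q, pj q ∈ T → Phi c (Wt c q.1 (q.1 + q.2)) q.1 (q.1 + q.2) =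
    Real.pi / 4 + l * (2 * Real.pi)

theorem one_add_I : ((√2 : ℝ) : ℂ) * exp (((Real.pi / 4 : ℝ) : ℂ) * I) = 1 + I := by
  rw [exp_mul_I, ← ofReal_cos, ← ofReal_sin, Real.cos_pi_div_four, Real.sin_pi_div_four]
  have h2 := Real.mul_self_sqrt (show (0:ℝ) ≤ 2 by norm_num)
  apply Complex.ext
  · simp; linarith
  · simp; linarith

theorem V_val (L : Loop c) {x y : ℝ} (hne : c y - c x ≠ 0) (h : Vt c x y ∉ range c) :
    ∃ k : ℤ, Phi c (Vt c x y) x y = Real.pi / 4 + k * (2 * Real.pi) := by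
  obtain ⟨ρ, hρ, e⟩ := Phi_polar L h x y
  have e1 : c x - Vt c x y = -(I * (c y - c x)) := by unfold Vt; ring
  have e2 : c y - Vt c x y = (1 - I) * (c y - c x) := by unfold Vt; ring
  rw [e1, e2] at e
  refine ang_eq hρ (by positivity : (0:ℝ) < √2) ?_
  rw [one_add_I]
  have : (1 - I) * (c y - c x) * I =
      (ρ * exp (Phi c (Vt c x y) x y * I)) * (c y - c x) := by
    rw [e]; linear_combination -(ρ * exp (Phi c (Vt c x y) x y * I)) * (c y - c x) * I_sq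
  have h2 : (1 - I) * I * (c y - c x) = (ρ * exp (Phi c (Vt c x y) x y * I)) * (c y - c x) := by
    rw [← this]; ring
  rw [← mul_right_cancel₀ hne h2]
  linear_combination -I_sq

theorem W_val (L : Loop c) {x y : ℝ} (hne : c y - c x ≠ 0) (h : Wt c x y ∉ range c) :
    ∃ k : ℤ, Phi c (Wt c x y) x y = Real.pi / 4 + k * (2 * Real.pi) := by
  obtain ⟨ρ, hρ, e⟩ := Phi_polar L h x y
  have e1 : c x - Wt c x y = -((1 + I) * (c y - c x)) := by unfold Wt; ring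
  have e2 : c y - Wt c x y = -(I * (c y - c x)) := by unfold Wt; ring
  rw [e1, e2] at e
  refine ang_eq (ρ₁ := 2 * ρ) (by positivity) (by positivity : (0:ℝ) < √2) ?_
  rw [one_add_I]
  have h2 : (1 + I) * (c y - c x) =
      (((2 * ρ : ℝ) : ℂ) * exp (Phi c (Wt c x y) x y * I)) * (c y - c x) := by
    push_cast
    linear_combination (-(1 - I)) * e + (1 - ρ * exp (Phi c (Wt c x y) x y * I)) *
      (c y - c x) * I_sq
  rw [← mul_right_cancel₀ hne h2]

theorem Vt_cont (L : Loop c) : Continuous fun q : ℝ × ℝ => Vt c q.1 (q.1 + q.2) := by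
  have := L.cont
  unfold Vt
  fun_prop

theorem Wt_cont (L : Loop c) : Continuous fun q : ℝ × ℝ => Wt c q.1 (q.1 + q.2) := by
  have := L.cont
  unfold Wt
  fun_prop

theorem exists_fm (L : Loop c) (J : Inj c) (nosq : NoSq (range c))
    (hor : ∀ z, 0 < mgc c z → IsWc c z 1) {δ : ℝ} (hδ : 0 < δ) (hδ2 : δ < 1 / 2) :
    ∃ T k l, Fm c δ T k l := by
  obtain ⟨T, hT, hZ, h0, h1⟩ := conn_fam L J nosq (Real.pi / 4) hδ hδ2
  have hcs : 0 < Real.cos (Real.pi / 4) := by rw [Real.cos_pi_div_four]; positivity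
  have hsn : 0 < Real.sin (Real.pi / 4) := by rw [Real.sin_pi_div_four]; positivity
  have hin : ∀ q, pj q ∈ T → In2 c q.1 (q.1 + q.2) := by
    intro q hq
    obtain ⟨t, ht, e1, e2⟩ := (hZ hq).2.2 q.1 rfl
    have f1 : DD c q.1 (q.1 + q.2) = Vt c q.1 (q.1 + q.2) := by unfold DD Sq.Dv Vt; ring
    have f2 : CC c q.1 (q.1 + q.2) = Wt c q.1 (q.1 + q.2) := by unfold CC Sq.Cv Wt; ring
    change mgc c (DD c q.1 (q.1 + q.2)) = _ at e1
    change mgc c (CC c q.1 (q.1 + q.2)) = _ at e2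
    rw [f1] at e1
    rw [f2] at e2
    exact ⟨hor _ (by rw [e1]; positivity), hor _ (by rw [e2]; positivity)⟩
  have hne : ∀ q, pj q ∈ T → c (q.1 + q.2) - c q.1 ≠ 0 := by
    intro q hq
    have h2 := hZ hq
    have h3 : δ ≤ q.2 := h2.1
    have h4 : q.2 ≤ 1 - δ := h2.2.1
    exact sub_ne_zero.2 (J _ _ (by linarith) (by linarith)).symm
  have hsh : ∀ q q' : ℝ × ℝ, pj q = pj q' → Vt c q.1 (q.1 + q.2) = Vt c q'.1 (q'.1 + q'.2) ∧
      Wt c q.1 (q.1 + q.2) = Wt c q'.1 (q'.1 + q'.2) := by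
    intro q q' e
    obtain ⟨e1, n, e2⟩ := pj_eq e
    unfold Vt Wt
    rw [e1, e2, L.per_int, show q'.1 + (n:ℝ) + q'.2 = q'.1 + q'.2 + n by ring, L.per_int]
    exact ⟨rfl, rfl⟩
  obtain ⟨k, hk⟩ := lab_const hT.isPreconnected hT.nonempty
    (φ := fun q => Phi c (Vt c q.1 (q.1 + q.2)) q.1 (q.1 + q.2))
    (U := {q | Vt c q.1 (q.1 + q.2) ∉ range c}) (L.closed.isOpen_compl.preimage (Vt_cont L))
    ((Phi_cont L).comp (f := fun q : ℝ × ℝ => (Vt c q.1 (q.1 + q.2), q.1, q.1 + q.2))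
      (((Vt_cont L).prodMk (continuous_fst.prodMk
        (continuous_fst.add continuous_snd))).continuousOn) fun q hq => hq)
    (fun q hq => wc_notMem (hin q hq).nv) (fun q q' hq e => by
      rw [← (hsh q q' e).1]
      obtain ⟨e1, n, e2⟩ := pj_eq e
      have := Phi_perz L (wc_notMem (hin q hq).nv) q'.1 (q'.1 + q'.2) n
      rw [← this]
      congr 1
      rw [e1, e2]; ring) (fun q hq => V_val L (hne q hq) (wc_notMem (hin q hq).nv))
  obtain ⟨l, hl⟩ := lab_const hT.isPreconnected hT.nonempty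
    (φ := fun q => Phi c (Wt c q.1 (q.1 + q.2)) q.1 (q.1 + q.2))
    (U := {q | Wt c q.1 (q.1 + q.2) ∉ range c}) (L.closed.isOpen_compl.preimage (Wt_cont L))
    ((Phi_cont L).comp (f := fun q : ℝ × ℝ => (Wt c q.1 (q.1 + q.2), q.1, q.1 + q.2))
      (((Wt_cont L).prodMk (continuous_fst.prodMk
        (continuous_fst.add continuous_snd))).continuousOn) fun q hq => hq)
    (fun q hq => wc_notMem (hin q hq).nw) (fun q q' hq e => by
      rw [← (hsh q q' e).2]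
      obtain ⟨e1, n, e2⟩ := pj_eq e
      have := Phi_perz L (wc_notMem (hin q hq).nw) q'.1 (q'.1 + q'.2) n
      rw [← this]
      congr 1
      rw [e1, e2]; ring) (fun q hq => W_val L (hne q hq) (wc_notMem (hin q hq).nw))
  exact ⟨T, k, l, hT.isPreconnected, h0, h1, fun p hp => ⟨(hZ hp).1, (hZ hp).2.1⟩, hin, hk, hl⟩

/-- rotation -/
theorem Phi_rot (L : Loop c) {w : ℂ} (hw : w ≠ 0) (hz : z ∉ range c) (s t : ℝ) :
    Phi (fun τ => w * c τ) (w * z) s t = Phi c z s t := by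
  obtain ⟨k, hk, ek⟩ := exists_Lg L hz
  have h2 : Lg (fun τ => w * c τ) (w * z) (fun τ => log w + k τ) := ⟨by fun_prop, fun τ => by
    rw [exp_add, exp_log hw, ek]; ring⟩
  rw [Phi_eq ⟨hk, ek⟩, Phi_eq h2]
  congr 1; ring

theorem wc_rot {w : ℂ} (hw : w ≠ 0) {n : ℤ} (h : IsWc c z n) :
    IsWc (fun τ => w * c τ) (w * z) n := by
  obtain ⟨k, hk, ek, e⟩ := h
  exact ⟨fun τ => log w + k τ, by fun_prop, fun τ => by rw [exp_add, exp_log hw, ek]; ring,
    by simp only; rw [← e]; ring⟩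

theorem Loop.rot (L : Loop c) (w : ℂ) : Loop (fun τ => w * c τ) := by
  have := L.cont
  exact ⟨by fun_prop, fun t => by rw [L.per]⟩

theorem Vt_rot (w : ℂ) (x y : ℝ) : Vt (fun τ => w * c τ) x y = w * Vt c x y := by
  unfold Vt; ring
theorem Wt_rot (w : ℂ) (x y : ℝ) : Wt (fun τ => w * c τ) x y = w * Wt c x y := by
  unfold Wt; ring

theorem In2.rot {w : ℂ} (hw : w ≠ 0) {x y : ℝ} (h : In2 c x y) :
    In2 (fun τ => w * c τ) x y := by
  refine ⟨?_, ?_⟩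
  · rw [Vt_rot]; exact wc_rot hw h.nv
  · rw [Wt_rot]; exact wc_rot hw h.nw

theorem Fm.rot (L : Loop c) {δ : ℝ} {T : Set Ann} {k l : ℤ} (F : Fm c δ T k l) {w : ℂ}
    (hw : w ≠ 0) : Fm (fun τ => w * c τ) δ T k l where
  pre := F.pre
  s0 := F.s0
  s1 := F.s1
  bd := F.bd
  ins q hq := (F.ins q hq).rot hw
  labV q hq := by
    rw [Vt_rot, Phi_rot L hw (wc_notMem (F.ins q hq).nv)]
    exact F.labV q hq
  labW q hq := by
    rw [Wt_rot, Phi_rot L hw (wc_notMem (F.ins q hq).nw)]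
    exact F.labW q hq

end Pool.Agent.T2h56.PM
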