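import Pool.Agent.T2h56.PM.Slope

/-! Barriers at left turns with a Lipschitz branch. -/

set_option autoImplicit false
open Complex Set Topology Metric

namespace Pool.Agent.T2h56.PM

open Pool.Agent.H763R2 Pool.Agent.H763R2.An

variable {c : ℝ → ℂ}

/-- the slopes of `a` over `[x₀, x₁]` are in `[k - l, k + l]` -/
def SlopeIn (a : ℝ → ℝ) (k l x₀ x₁ : ℝ) : Prop :=
  ∀ x ∈ Icc x₀ x₁, ∀ y ∈ Icc x₀ x₁, |a y - a x - k * (y - x)| ≤ l * |y - x|

theorem inc_cmp {a : ℝ → ℝ} {k l x₀ x₁ : ℝ} (h : SlopeIn a k l x₀ x₁) {u v d m e : ℝ}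
    (hu : x₀ ≤ u) (hv : x₀ ≤ v) (hu' : u + d ≤ x₁) (hv' : v + d ≤ x₁) (hd : 0 < d) (hl : 0 ≤ l)
    (hm : 2 * l ≤ m ∨ 2 * l * (|k| + l) ≤ m) (huv : |v - u| = |e|) (e1 : (k - l) * d ≤ e)
    (e2 : e ≤ (k + l) * d) : a (v + d) - a v - (a (u + d) - a u) ≤ m * d := by
  rcases hm with hm | hm
  · have h1 := abs_le.1 (h v ⟨hv, by linarith⟩ (v + d) ⟨by linarith, hv'⟩)
    have h2 := abs_le.1 (h u ⟨hu, by linarith⟩ (u + d) ⟨by linarith, hu'⟩)
    rw [show v + d - v = d by ring, abs_of_pos hd] at h1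
    rw [show u + d - u = d by ring, abs_of_pos hd] at h2
    have h3 := mul_le_mul_of_nonneg_right hm hd.le
    linarith [h1.2, h2.1]
  · have h1 := abs_le.1 (h u ⟨hu, by linarith⟩ v ⟨hv, by linarith⟩)
    have h2 := abs_le.1 (h (u + d) ⟨by linarith, hu'⟩ (v + d) ⟨by linarith, hv'⟩)
    rw [show v + d - (u + d) = v - u by ring, huv] at h2
    rw [huv] at h1
    have h4 : |e| ≤ (|k| + l) * d := by
      rw [abs_le]
      have h5 := mul_le_mul_of_nonneg_right (le_abs_self k) hd.le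
      have h6 := mul_le_mul_of_nonneg_right (neg_abs_le k) hd.le
      constructor <;> linarith
    have h7 := mul_le_mul_of_nonneg_left h4 (mul_nonneg zero_le_two hl)
    have h8 := mul_le_mul_of_nonneg_right hm hd.le
    linarith [h1.1, h2.2]

/-- the first branch is a Lipschitz graph -/
theorem lipA {p t q k l m : ℝ} {a : ℝ → ℝ} (pt : p < t) (tq : t < q) (qp : q < p + 1)
    (tn : Tn c p t q) (tl : TL c p t q) (ha : ∀ τ ∈ Icc p t, (c τ).im = a (c τ).re)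
    (hlip : SlopeIn a k l (c p).re (c t).re) (hl : 0 ≤ l)
    (hm : 2 * l ≤ m ∨ 2 * l * (|k| + l) ≤ m) (hpq : (c p).re ≤ (c q).re)
    (hrec : ∀ τ ∈ Icc t q, (c τ).im - a (c τ).re + m * (c τ).re ≤
      (c q).im - a (c q).re + m * (c q).re)
    (hp : ∀ τ ∈ Icc t q, (c p).re - (c τ).re ≤ (k - l) * ((c τ).im - (c p).im)) :
    LB c p t q where
  pt := pt
  tq := tq
  qp := qp
  tn := tn
  tl := tl
  b1 := by
    rintro σ h1 h2 ⟨a0, -, -, α, a5, a6, a7, a8⟩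
    have hd : 0 < (c σ).im - (c p).im := sub_pos.2 a0
    have f1 := ha α ⟨a5.le, a6.le⟩
    have f2 := ha p ⟨le_rfl, pt.le⟩
    have f3 := tn.geA a5.le a6.le le_rfl
    rw [f1, a7] at a8
    rw [a7] at f3
    rw [Wt_im] at a8
    rw [Wt_re] at a8 f3
    have f4 := abs_le.1 (hlip (c p).re ⟨le_rfl, tn.geA le_rfl pt.le le_rfl⟩
      ((c p).re - ((c p).im - (c σ).im)) ⟨by linarith, f3⟩)
    rw [show (c p).re - ((c p).im - (c σ).im) - (c p).re = (c σ).im - (c p).im by ring,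
      abs_of_pos hd] at f4
    have f5 := hp σ ⟨h1.le, h2⟩
    linarith [f4.1]
  b2 := by
    rintro σ h1 h2 ⟨a0, -, ⟨β, a1, a2, a3, a4⟩, α, a5, a6, a7, a8⟩
    have hd : 0 < (c q).im - (c σ).im := sub_pos.2 a0
    obtain ⟨d, hd2⟩ : ∃ d, d = (c q).im - (c σ).im := ⟨_, rfl⟩
    have f1 := ha α ⟨by linarith, a6.le⟩
    have f2 := ha σ ⟨h1, h2.le⟩
    have f3 := tn.geA (by linarith) a6.le le_rfl (τ := α)
    have f4 := hrec β ⟨a1.le, a2.le⟩
    have f5 := tn.geB le_rfl a1.le a2.le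
    have f6 := tn.geA le_rfl h1 h2.le
    rw [Wt_re] at a7
    rw [Wt_im] at a8
    rw [Vt_re] at a3
    rw [Vt_im] at a4
    have g1 : (c α).re = (c σ).re + d := by rw [a7, hd2]; ring
    have g2 : (c β).re = (c q).re + d := by rw [a3, hd2]; ring
    rw [g1] at f1 f3
    rw [g2] at f4 f5
    rw [← hd2] at hd
    -- the two inequalities
    have i1 : a ((c σ).re + d) - a (c σ).re < (c σ).re - (c q).re := by linarith
    have i2 : (c σ).re - (c q).re < a ((c q).re + d) - a (c q).re - m * d := by linarith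
    have j1 := abs_le.1 (hlip (c σ).re ⟨f6, by linarith⟩ ((c σ).re + d) ⟨by linarith, f3⟩)
    have j2 := abs_le.1 (hlip (c q).re ⟨hpq, by linarith⟩ ((c q).re + d) ⟨by linarith, f5⟩)
    rw [show (c σ).re + d - (c σ).re = d by ring, abs_of_pos hd] at j1
    rw [show (c q).re + d - (c q).re = d by ring, abs_of_pos hd] at j2
    have hm0 : 0 ≤ m := by
      rcases hm with hm | hm
      · linarith
      · exact (mul_nonneg (mul_nonneg zero_le_two hl) (add_nonneg (abs_nonneg k) hl)).trans hm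
    have hmd := mul_nonneg hm0 hd.le
    have key := inc_cmp hlip (u := (c σ).re) (v := (c q).re) (d := d) (m := m)
      (e := (c σ).re - (c q).re) f6 hpq f3 f5 hd hl hm (by rw [abs_sub_comm])
      (by linarith [j1.1]) (by linarith [j2.2])
    linarith

/-- the second branch is a Lipschitz graph -/
theorem lipB {p t q k l m : ℝ} {a : ℝ → ℝ} (pt : p < t) (tq : t < q) (qp : q < p + 1)
    (tn : Tn c p t q) (tl : TL c p t q) (ha : ∀ τ ∈ Icc t q, (c τ).im = a (c τ).re)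
    (hlip : SlopeIn a k l (c q).re (c t).re) (hl : 0 ≤ l)
    (hm : 2 * l ≤ m ∨ 2 * l * (|k| + l) ≤ m) (hpq : (c q).re ≤ (c p).re)
    (hrec : ∀ τ ∈ Icc p t, a (c τ).re - (c τ).im + m * (c τ).re ≤
      a (c p).re - (c p).im + m * (c p).re)
    (hq : ∀ τ ∈ Icc p t, (k + l) * ((c q).im - (c τ).im) ≤ (c τ).re - (c q).re) :
    LB c p t q where
  pt := pt
  tq := tq
  qp := qp
  tn := tn
  tl := tl
  b1 := by
    rintro σ h1 h2 ⟨a0, -, ⟨β, a1, a2, a3, a4⟩, α, a5, a6, a7, a8⟩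
    have hd : 0 < (c σ).im - (c p).im := sub_pos.2 a0
    obtain ⟨d, hd2⟩ : ∃ d, d = (c σ).im - (c p).im := ⟨_, rfl⟩
    have f1 := ha β ⟨a1.le, by linarith⟩
    have f2 := ha σ ⟨h1.le, h2⟩
    have f3 := tn.geB le_rfl a1.le (by linarith) (τ' := β)
    have f4 := hrec α ⟨a5.le, a6.le⟩
    have f5 := tn.geA a5.le a6.le le_rfl
    have f6 := tn.geB h1.le h2 le_rfl
    rw [Wt_re] at a7
    rw [Wt_im] at a8
    rw [Vt_re] at a3
    rw [Vt_im] at a4
    have g1 : (c α).re = (c p).re + d := by rw [a7, hd2]; ring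
    have g2 : (c β).re = (c σ).re + d := by rw [a3, hd2]; ring
    rw [g2] at f1 f3
    rw [g1] at f4 f5
    rw [← hd2] at hd
    have i1 : (c p).re - (c σ).re < a ((c σ).re + d) - a (c σ).re := by linarith
    have i2 : a ((c p).re + d) - a (c p).re + m * d < (c p).re - (c σ).re := by linarith
    have j1 := abs_le.1 (hlip (c σ).re ⟨f6, by linarith⟩ ((c σ).re + d) ⟨by linarith, f3⟩)
    have j2 := abs_le.1 (hlip (c p).re ⟨hpq, by linarith⟩ ((c p).re + d) ⟨by linarith, f5⟩)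
    rw [show (c σ).re + d - (c σ).re = d by ring, abs_of_pos hd] at j1
    rw [show (c p).re + d - (c p).re = d by ring, abs_of_pos hd] at j2
    have hm0 : 0 ≤ m := by
      rcases hm with hm | hm
      · linarith
      · exact (mul_nonneg (mul_nonneg zero_le_two hl) (add_nonneg (abs_nonneg k) hl)).trans hm
    have hmd := mul_nonneg hm0 hd.le
    have key := inc_cmp hlip (u := (c p).re) (v := (c σ).re) (d := d) (m := m)
      (e := (c p).re - (c σ).re) hpq f6 f5 f3 hd hl hm (by rw [abs_sub_comm])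
      (by linarith [j2.1]) (by linarith [j1.2])
    linarith
  b2 := by
    rintro σ h1 h2 ⟨a0, -, ⟨β, a1, a2, a3, a4⟩, -⟩
    have hd : 0 < (c q).im - (c σ).im := sub_pos.2 a0
    have f1 := ha β ⟨a1.le, a2.le⟩
    have f2 := ha q ⟨tq.le, le_rfl⟩
    have f3 := tn.geB le_rfl a1.le a2.le
    rw [f1, a3] at a4
    rw [a3] at f3
    rw [Vt_im] at a4
    rw [Vt_re] at a4 f3
    have f4 := abs_le.1 (hlip (c q).re ⟨le_rfl, tn.geB le_rfl tq.le le_rfl⟩
      ((c q).re - ((c σ).im - (c q).im)) ⟨by linarith, f3⟩)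
    rw [show (c q).re - ((c σ).im - (c q).im) - (c q).re = (c q).im - (c σ).im by ring,
      abs_of_pos hd] at f4
    have f5 := hq σ ⟨h1, h2.le⟩
    linarith [f4.2]

theorem slope_cont {a : ℝ → ℝ} {k l x₀ x₁ : ℝ} (h : SlopeIn a k l x₀ x₁) :
    ContinuousOn a (Icc x₀ x₁) := by
  have h1 : ContinuousOn (fun x => a x - k * x) (Icc x₀ x₁) := by
    have : LipschitzOnWith (Real.toNNReal l) (fun x => a x - k * x) (Icc x₀ x₁) := by
      rw [lipschitzOnWith_iff_dist_le_mul]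
      intro x hx y hy
      rw [Real.dist_eq, Real.dist_eq]
      have h2 := h y hy x hx
      have h3 : a x - k * x - (a y - k * y) = a x - a y - k * (x - y) := by ring
      rw [h3]
      refine h2.trans (mul_le_mul_of_nonneg_right (Real.le_coe_toNNReal l) (abs_nonneg _))
    exact this.continuousOn
  have h2 : ContinuousOn (fun x => a x - k * x + k * x) (Icc x₀ x₁) := h1.add (by fun_prop)
  refine h2.congr fun x _ => by ring

/-- records near the end of an interval -/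
theorem rec_right {f : ℝ → ℝ} {t r : ℝ} (hf : ContinuousOn f (Icc t (t + r)))
    (h : ∀ ε > 0, ∃ τ, t < τ ∧ τ < t + ε ∧ f t ≤ f τ) {ε : ℝ} (hε : 0 < ε) (hr : ε ≤ r) :
    ∃ q, t < q ∧ q < t + ε ∧ ∀ τ ∈ Icc t q, f τ ≤ f q := by
  obtain ⟨τ1, a1, a2, a3⟩ := h ε hε
  obtain ⟨q, hq, hmax⟩ := isCompact_Icc.exists_isMaxOn (nonempty_Icc.2 a1.le)
    (hf.mono (Icc_subset_Icc le_rfl (by linarith : τ1 ≤ t + r)))
  have h1 : f τ1 ≤ f q := hmax (show τ1 ∈ Icc t τ1 from ⟨a1.le, le_rfl⟩)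
  by_cases h2 : f q ≤ f τ1
  · exact ⟨τ1, a1, a2, fun τ hτ => (show f τ ≤ f q from hmax hτ).trans h2⟩
  · push Not at h2
    refine ⟨q, lt_of_le_of_ne hq.1 fun h => ?_, by linarith [hq.2], fun τ hτ =>
      hmax ⟨hτ.1, hτ.2.trans hq.2⟩⟩
    rw [← h] at h2
    linarith

theorem rec_left {f : ℝ → ℝ} {t r : ℝ} (hf : ContinuousOn f (Icc (t - r) t))
    (h : ∀ ε > 0, ∃ τ, τ < t ∧ t - ε < τ ∧ f t ≤ f τ) {ε : ℝ} (hε : 0 < ε) (hr : ε ≤ r) :
    ∃ p, p < t ∧ t - ε < p ∧ ∀ τ ∈ Icc p t, f τ ≤ f p := by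
  obtain ⟨τ1, a1, a2, a3⟩ := h ε hε
  obtain ⟨q, hq, hmax⟩ := isCompact_Icc.exists_isMaxOn (nonempty_Icc.2 a1.le)
    (hf.mono (Icc_subset_Icc (by linarith : t - r ≤ τ1) le_rfl))
  have h1 : f τ1 ≤ f q := hmax (show τ1 ∈ Icc τ1 t from ⟨le_rfl, a1.le⟩)
  by_cases h2 : f q ≤ f τ1
  · exact ⟨τ1, a1, a2, fun τ hτ => (show f τ ≤ f q from hmax hτ).trans h2⟩
  · push Not at h2
    refine ⟨q, lt_of_le_of_ne hq.2 fun h => ?_, by linarith [hq.1], fun τ hτ =>
      hmax ⟨hq.1.trans hτ.1, hτ.2⟩⟩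
    rw [h] at h2
    linarith

theorem slope_pos {k l D y : ℝ} (hD : 0 < D) (hkl : l ^ 2 < 1 + k ^ 2)
    (h : |y - k * D| ≤ l * D) : 0 < (k - l) * y + D := by
  obtain ⟨h1, h2⟩ := abs_le.1 h
  rcases le_or_gt 0 (k - l) with h3 | h3
  · have h4 := mul_le_mul_of_nonneg_left (show (k - l) * D ≤ y by linarith) h3
    have h5 : 0 ≤ (k - l) * ((k - l) * D) := by positivity
    linarith
  · have h4 := mul_le_mul_of_nonpos_left (show y ≤ (k + l) * D by linarith) h3.le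
    have h5 := mul_lt_mul_of_pos_right hkl hD
    nlinarith

/-- local form -/
theorem lipA_loc (L : Loop c) {t ρ k l m : ℝ} {a : ℝ → ℝ} (hρ : 0 < ρ) (hρ2 : ρ < 1 / 2)
    (W : Tn c (t - ρ) t (t + ρ)) (hL : TL c (t - ρ) t (t + ρ))
    (ha : ∀ τ ∈ Icc (t - ρ) t, (c τ).im = a (c τ).re)
    (hlip : SlopeIn a k l (c (t - ρ)).re (c t).re) (hl : 0 ≤ l) (hkl : l ^ 2 < 1 + k ^ 2)
    (hm : 2 * l ≤ m ∨ 2 * l * (|k| + l) ≤ m)
    (hB : ∀ ε > 0, ∃ τ, t < τ ∧ τ < t + ε ∧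
      m * ((c t).re - (c τ).re) ≤ (c τ).im - a (c τ).re) :
    ∃ p q, LB c p t q := by
  have cc := L.cont
  have g1 : (c (t - ρ)).re < (c t).re := W.inc (t - ρ) ⟨le_rfl, W.h1⟩ t ⟨W.h1, le_rfl⟩
    (by linarith)
  have at0 := ha t ⟨W.h1, le_rfl⟩
  have ap := ha (t - ρ) ⟨le_rfl, W.h1⟩
  -- the window of `B` over the domain of `a`
  obtain ⟨η, hη, hsm⟩ := small L t (sub_pos.2 g1)
  have hD : 0 < (c t).re - (c (t - ρ)).re := sub_pos.2 g1
  have hs := hlip (c (t - ρ)).re ⟨le_rfl, g1.le⟩ (c t).re ⟨g1.le, le_rfl⟩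
  rw [abs_of_pos hD] at hs
  have hpos := slope_pos hD hkl hs
  rw [← at0, ← ap] at hpos
  have cg : Continuous fun τ => (k - l) * ((c τ).im - (c (t - ρ)).im) +
      ((c τ).re - (c (t - ρ)).re) := by fun_prop
  obtain ⟨η2, hη2, hsm2⟩ := Metric.continuous_iff.1 cg t _ hpos
  obtain ⟨r, hr⟩ : ∃ r, r = min (min (η / 2) η2) ρ := ⟨_, rfl⟩
  have r0 : 0 < r := by rw [hr]; positivity
  have r1 : r ≤ η / 2 := by rw [hr]; exact (min_le_left _ _).trans (min_le_left _ _)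
  have r2 : r ≤ η2 := by rw [hr]; exact (min_le_left _ _).trans (min_le_right _ _)
  have r3 : r ≤ ρ := by rw [hr]; exact min_le_right _ _
  have hin : ∀ τ ∈ Icc t (t + r), (c τ).re ∈ Icc (c (t - ρ)).re (c t).re := by
    intro τ hτ
    have h1 := (hsm τ (by rw [abs_lt]; constructor <;> linarith [hτ.1, hτ.2])).1
    exact ⟨by linarith, W.geB le_rfl hτ.1 (by linarith [hτ.2])⟩
  have cf : ContinuousOn (fun τ => (c τ).im - a (c τ).re + m * (c τ).re) (Icc t (t + r)) := by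
    refine ContinuousOn.add (ContinuousOn.sub (by fun_prop) ?_) (by fun_prop)
    exact (slope_cont hlip).comp (by fun_prop) hin
  obtain ⟨q, q1, q2, q3⟩ := rec_right cf (fun ε hε => by
    obtain ⟨τ, h1, h2, h3⟩ := hB ε hε
    refine ⟨τ, h1, h2, ?_⟩
    rw [← at0]
    linarith) r0 le_rfl
  refine ⟨t - ρ, q, lipA (a := a) (k := k) (l := l) (m := m) (by linarith) q1 (by linarith)
    (W.sub le_rfl W.h1 q1.le (by linarith)) (hL.sub le_rfl (by linarith)) ha hlip hl hm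
    (hin q ⟨q1.le, q2.le⟩).1 q3 fun τ hτ => ?_⟩
  have h1 := hsm2 τ (by
    rw [Real.dist_eq, abs_lt]; constructor <;> linarith [hτ.1, hτ.2])
  rw [Real.dist_eq] at h1
  have h2 := (abs_lt.1 h1).1
  linarith

theorem lipB_loc (L : Loop c) {t ρ k l m : ℝ} {a : ℝ → ℝ} (hρ : 0 < ρ) (hρ2 : ρ < 1 / 2)
    (W : Tn c (t - ρ) t (t + ρ)) (hL : TL c (t - ρ) t (t + ρ))
    (ha : ∀ τ ∈ Icc t (t + ρ), (c τ).im = a (c τ).re)
    (hlip : SlopeIn a k l (c (t + ρ)).re (c t).re) (hl : 0 ≤ l) (hkl : l ^ 2 < 1 + k ^ 2)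
    (hm : 2 * l ≤ m ∨ 2 * l * (|k| + l) ≤ m)
    (hA : ∀ ε > 0, ∃ τ, τ < t ∧ t - ε < τ ∧
      m * ((c t).re - (c τ).re) ≤ a (c τ).re - (c τ).im) :
    ∃ p q, LB c p t q := by
  have cc := L.cont
  have g1 : (c (t + ρ)).re < (c t).re := W.dec t ⟨le_rfl, W.h2⟩ (t + ρ) ⟨W.h2, le_rfl⟩
    (by linarith)
  have at0 := ha t ⟨le_rfl, W.h2⟩
  have ap := ha (t + ρ) ⟨W.h2, le_rfl⟩
  obtain ⟨η, hη, hsm⟩ := small L t (sub_pos.2 g1)
  have hD : 0 < (c t).re - (c (t + ρ)).re := sub_pos.2 g1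
  have hs := hlip (c (t + ρ)).re ⟨le_rfl, g1.le⟩ (c t).re ⟨g1.le, le_rfl⟩
  rw [abs_of_pos hD] at hs
  have hpos := slope_pos (k := -k) (l := l) (y := -((c t).im - (c (t + ρ)).im)) hD (by linarith)
    (by
      rw [← at0, ← ap, ← abs_neg] at hs
      convert hs using 2
      ring)
  have cg : Continuous fun τ => ((c τ).re - (c (t + ρ)).re) -
      (k + l) * ((c (t + ρ)).im - (c τ).im) := by fun_prop
  obtain ⟨η2, hη2, hsm2⟩ := Metric.continuous_iff.1 cg t _ hpos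
  obtain ⟨r, hr⟩ : ∃ r, r = min (min (η / 2) η2) ρ := ⟨_, rfl⟩
  have r0 : 0 < r := by rw [hr]; positivity
  have r1 : r ≤ η / 2 := by rw [hr]; exact (min_le_left _ _).trans (min_le_left _ _)
  have r2 : r ≤ η2 := by rw [hr]; exact (min_le_left _ _).trans (min_le_right _ _)
  have r3 : r ≤ ρ := by rw [hr]; exact min_le_right _ _
  have hin : ∀ τ ∈ Icc (t - r) t, (c τ).re ∈ Icc (c (t + ρ)).re (c t).re := by
    intro τ hτ
    have h1 := (hsm τ (by rw [abs_lt]; constructor <;> linarith [hτ.1, hτ.2])).1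
    exact ⟨by linarith, W.geA (by linarith [hτ.1]) hτ.2 le_rfl⟩
  have cf : ContinuousOn (fun τ => a (c τ).re - (c τ).im + m * (c τ).re) (Icc (t - r) t) := by
    refine ContinuousOn.add (ContinuousOn.sub ?_ (by fun_prop)) (by fun_prop)
    exact (slope_cont hlip).comp (by fun_prop) hin
  obtain ⟨p, q1, q2, q3⟩ := rec_left cf (fun ε hε => by
    obtain ⟨τ, h1, h2, h3⟩ := hA ε hε
    refine ⟨τ, h1, h2, ?_⟩
    rw [← at0]
    linarith) r0 le_rfl
  refine ⟨p, t + ρ, lipB (a := a) (k := k) (l := l) (m := m) q1 (by linarith) (by linarith)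
    (W.sub (by linarith) q1.le W.h2 le_rfl) (hL.sub (by linarith) le_rfl) ha hlip hl hm
    (hin p ⟨q2.le, q1.le⟩).1 q3 fun τ hτ => ?_⟩
  have h1 := hsm2 τ (by
    rw [Real.dist_eq, abs_lt]; constructor <;> linarith [hτ.1, hτ.2])
  rw [Real.dist_eq] at h1
  have h2 := (abs_lt.1 h1).1
  linarith

end Pool.Agent.T2h56.PM
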