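import Pool.Agent.T2h56.PM.Cee

/-! Reflection in the real axis and reversal. -/

set_option autoImplicit false
open Complex Set Topology Metric ComplexConjugate

namespace Pool.Agent.T2h56.PM

open Pool.Agent.H763R2 Pool.Agent.H763R2.An

variable {c : ℝ → ℂ} {z : ℂ}

/-- the reflected curve -/
noncomputable def mir (c : ℝ → ℂ) (τ : ℝ) : ℂ := conj (c (-τ))

theorem mir_loop (L : Loop c) : Loop (mir c) := by
  have := L.cont
  refine ⟨by unfold mir; exact continuous_conj.comp (by fun_prop), fun t => ?_⟩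
  unfold mir
  rw [← L.per (-(t + 1))]
  congr 2; ring

theorem mir_re (τ : ℝ) : (mir c τ).re = (c (-τ)).re := by unfold mir; simp
theorem mir_im (τ : ℝ) : (mir c τ).im = -(c (-τ)).im := by unfold mir; simp

theorem mir_wc (L : Loop c) {n : ℤ} (h : IsWc c z n) : IsWc (mir c) (conj z) n := by
  obtain ⟨k, hk, ek, e⟩ := h
  refine ⟨fun τ => conj (k (-τ)), continuous_conj.comp (by fun_prop), fun τ => ?_, ?_⟩
  · rw [exp_conj, ek, map_sub]; rfl
  · have h3 := H777R2.exp_const (X := ℝ) (k := fun t => k (t + 1) - k t) (by fun_prop) (c := 1)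
      (fun t => by
        rw [exp_sub, ek, ek, L.per, ← ek, div_self (exp_ne_zero _)]) (-1) 0
    simp only [zero_add] at h3
    rw [show (-1 : ℝ) + 1 = 0 by ring, e] at h3
    have h4 : k (-1) = k 0 - n * (2 * Real.pi * I) := by linear_combination -h3
    show conj (k (-1)) - conj (k (-0)) = _
    rw [neg_zero, h4, map_sub, map_mul, map_mul, map_mul, conj_I, conj_ofReal]
    have h5 : conj (n : ℂ) = n := by simp
    have h6 : conj (2 : ℂ) = 2 := by
      rw [show (2 : ℂ) = ((2 : ℝ) : ℂ) by norm_num, conj_ofReal]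
    rw [h5, h6]
    ring

theorem mir_Vt (x y : ℝ) : Vt (mir c) x y = conj (Wt c (-y) (-x)) := by
  unfold Vt Wt mir
  simp only [map_add, map_mul, map_sub, conj_I]
  ring

theorem mir_Wt (x y : ℝ) : Wt (mir c) x y = conj (Vt c (-y) (-x)) := by
  unfold Vt Wt mir
  simp only [map_add, map_mul, map_sub, conj_I]
  ring

theorem mir_BC (L : Loop c) {t x y : ℝ} (h : BC c t x y) : BC (mir c) (-t) (-y) (-x) := by
  obtain ⟨h1, h2, ⟨β, b1, b2, b3, b4⟩, α, a1, a2, a3, a4⟩ := h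
  refine ⟨?_, ⟨?_, ?_⟩, ⟨-α, by linarith, by linarith, ?_, ?_⟩, -β, by linarith, by linarith,
    ?_, ?_⟩
  · rw [mir_im, mir_im, neg_neg, neg_neg]; linarith
  · rw [mir_Vt, neg_neg, neg_neg]; exact mir_wc L h2.nw
  · rw [mir_Wt, neg_neg, neg_neg]; exact mir_wc L h2.nv
  · rw [mir_Vt, mir_re, neg_neg, neg_neg, neg_neg, conj_re]; exact a3
  · rw [mir_Vt, mir_im, neg_neg, neg_neg, neg_neg, conj_im]; linarith
  · rw [mir_Wt, mir_re, neg_neg, neg_neg, neg_neg, conj_re]; exact b3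
  · rw [mir_Wt, mir_im, neg_neg, neg_neg, neg_neg, conj_im]; linarith

theorem mir_LB (L : Loop c) {p t q : ℝ} (B : LB (mir c) (-q) (-t) (-p)) : LB c p t q where
  pt := by linarith [B.tq]
  tq := by linarith [B.pt]
  qp := by linarith [B.qp]
  tn := by
    refine ⟨by linarith [B.tq], by linarith [B.pt], fun τ hτ τ' hτ' hh => ?_,
      fun τ hτ τ' hτ' hh => ?_⟩
    · have := B.tn.dec (-τ') ⟨by linarith [hτ'.2], by linarith [hτ'.1]⟩ (-τ)
        ⟨by linarith [hτ.2], by linarith [hτ.1]⟩ (by linarith)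
      rwa [mir_re, mir_re, neg_neg, neg_neg] at this
    · have := B.tn.inc (-τ') ⟨by linarith [hτ'.2], by linarith [hτ'.1]⟩ (-τ)
        ⟨by linarith [hτ.2], by linarith [hτ.1]⟩ (by linarith)
      rwa [mir_re, mir_re, neg_neg, neg_neg] at this
  tl := by
    intro τ hτ τ' hτ' e
    have := B.tl (-τ') ⟨by linarith [hτ'.2], by linarith [hτ'.1]⟩ (-τ)
        ⟨by linarith [hτ.2], by linarith [hτ.1]⟩ (by
      rw [mir_re, mir_re, neg_neg, neg_neg]; exact e.symm)
    rw [mir_im, mir_im, neg_neg, neg_neg] at this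
    linarith
  b1 σ h1 h2 hb := by
    have := mir_BC L hb
    exact B.b2 (-σ) (by linarith) (by linarith) this
  b2 σ h1 h2 hb := by
    have := mir_BC L hb
    exact B.b1 (-σ) (by linarith) (by linarith) this

theorem mir_tn {p t q : ℝ} (h : Tn c p t q) : Tn (mir c) (-q) (-t) (-p) := by
  refine ⟨by linarith [h.h2], by linarith [h.h1], fun τ hτ τ' hτ' hh => ?_,
    fun τ hτ τ' hτ' hh => ?_⟩
  · rw [mir_re, mir_re]
    exact h.dec (-τ') ⟨by linarith [hτ'.2], by linarith [hτ'.1]⟩ (-τ)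
        ⟨by linarith [hτ.2], by linarith [hτ.1]⟩ (by linarith)
  · rw [mir_re, mir_re]
    exact h.inc (-τ') ⟨by linarith [hτ'.2], by linarith [hτ'.1]⟩ (-τ)
        ⟨by linarith [hτ.2], by linarith [hτ.1]⟩ (by linarith)

theorem mir_tl {p t q : ℝ} (h : TL c p t q) : TL (mir c) (-q) (-t) (-p) := by
  intro τ hτ τ' hτ' e
  rw [mir_re, mir_re] at e
  have := h (-τ') ⟨by linarith [hτ'.2], by linarith [hτ'.1]⟩ (-τ)
    ⟨by linarith [hτ.2], by linarith [hτ.1]⟩ e.symm
  rw [mir_im, mir_im]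
  linarith

theorem ceeB_loc (L : Loop c) {t ρ C : ℝ} {a a' : ℝ → ℝ} (hρ : 0 < ρ) (hρ2 : ρ < 1 / 2)
    (W : Tn c (t - ρ) t (t + ρ)) (hL : TL c (t - ρ) t (t + ρ))
    (ha : ∀ τ ∈ Icc t (t + ρ), (c τ).im = a (c τ).re) (hC : 0 ≤ C)
    (hd : ∀ x ∈ Icc (c (t + ρ)).re (c t).re,
      HasDerivWithinAt a (a' x) (Icc (c (t + ρ)).re (c t).re) x)
    (hLip : ∀ x ∈ Icc (c (t + ρ)).re (c t).re, ∀ y ∈ Icc (c (t + ρ)).re (c t).re,
      |a' y - a' x| ≤ C * |y - x|) :
    ∃ p q, LB c p t q := by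
  have e1 : -(t + ρ) = -t - ρ := by ring
  have e2 : -(t - ρ) = -t + ρ := by ring
  have e3 : -(-t - ρ) = t + ρ := by ring
  have W' := mir_tn W
  have hL' := mir_tl hL
  rw [e1, e2] at W' hL'
  obtain ⟨p, q, B⟩ := ceeA_loc (a := fun x => -a x) (a' := fun x => -a' x) (mir_loop L) hρ hρ2 W'
    hL' (fun τ hτ => by
      rw [mir_im, mir_re, ha (-τ) ⟨by linarith [hτ.2], by linarith [hτ.1]⟩]) hC (by
      rw [mir_re, mir_re, e3, neg_neg]
      exact fun x hx => (hd x hx).neg) (by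
      rw [mir_re, mir_re, e3, neg_neg]
      intro x hx y hy
      have := hLip x hx y hy
      rw [← abs_neg] at this
      convert this using 2
      ring)
  exact ⟨-q, -p, mir_LB L (by rwa [neg_neg, neg_neg])⟩

end Pool.Agent.T2h56.PM
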