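import Pool.Agent.T2h56.PM.Label

/-! Short chords at a left turn. -/

set_option autoImplicit false
open Complex Set Topology Metric

namespace Pool.Agent.T2h56.PM

open Pool.Agent.H763R2 Pool.Agent.H763R2.An
open Pool.Agent.Y765.Sq (Ann)
open Pool.Agent.N335.Hg (Phi)

variable {c : ℝ → ℂ} {z : ℂ}

/-- records of a continuous function near a point -/
theorem record {Y : ℝ → ℝ} (hY : Continuous Y) (t : ℝ) {ρ : ℝ} (hρ : 0 < ρ) :
    ∃ ρ1, 0 < ρ1 ∧ ρ1 ≤ ρ ∧ ∀ ε > 0, ∃ τ0, t < τ0 ∧ τ0 < t + ε ∧ τ0 ≤ t + ρ1 ∧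
      ((∀ τ ∈ Icc t τ0, Y τ ≤ Y τ0) ∨ ∀ τ ∈ Icc τ0 (t + ρ1), Y τ ≤ Y τ0) := by
  by_cases hA : ∃ r, 0 < r ∧ ∀ τ ∈ Icc t (t + r), Y τ ≤ Y t
  swap
  · -- inner records
    push Not at hA
    refine ⟨ρ, hρ, le_rfl, fun ε hε => ?_⟩
    obtain ⟨τ1, ⟨a1, a2⟩, a3⟩ := hA (min (ε / 2) ρ) (by positivity)
    obtain ⟨τ0, h0, h1⟩ := isCompact_Icc.exists_isMaxOn (nonempty_Icc.2 a1) hY.continuousOn
    have h2 := h1 (show τ1 ∈ Icc t τ1 from ⟨a1, le_rfl⟩)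
    have h2' : Y τ1 ≤ Y τ0 := h2
    have b1 := min_le_left (ε / 2) ρ
    have b2 := min_le_right (ε / 2) ρ
    refine ⟨τ0, lt_of_le_of_ne h0.1 fun h => ?_, by linarith [h0.2], by linarith [h0.2],
      Or.inl fun τ hτ => h1 ⟨hτ.1, hτ.2.trans h0.2⟩⟩
    rw [← h] at h2'
    linarith
  obtain ⟨r, hr, hA⟩ := hA
  by_cases hB : ∃ r', 0 < r' ∧ ∀ τ ∈ Ioc t (t + r'), Y τ < Y t
  · obtain ⟨r', hr', hB⟩ := hB
    obtain ⟨ρ1, hρ1⟩ : ∃ ρ1, ρ1 = min ρ r' := ⟨_, rfl⟩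
    have c0 : 0 < ρ1 := by rw [hρ1]; positivity
    have c1 : ρ1 ≤ ρ := by rw [hρ1]; exact min_le_left _ _
    have c2 : ρ1 ≤ r' := by rw [hρ1]; exact min_le_right _ _
    refine ⟨ρ1, c0, c1, fun ε hε => ?_⟩
    obtain ⟨e, he⟩ : ∃ e, e = min (ε / 2) ρ1 := ⟨_, rfl⟩
    have e0 : 0 < e := by rw [he]; positivity
    have e1 : e ≤ ε / 2 := by rw [he]; exact min_le_left _ _
    have e2 : e ≤ ρ1 := by rw [he]; exact min_le_right _ _
    obtain ⟨τm, hm, hM⟩ := isCompact_Icc.exists_isMaxOn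
      (nonempty_Icc.2 (show t + e ≤ t + ρ1 by linarith)) hY.continuousOn
    have hlt : Y τm < Y t := hB τm ⟨by linarith [hm.1], by linarith [hm.2]⟩
    obtain ⟨η, hη, hη2⟩ := Metric.continuous_iff.1 hY t (Y t - Y τm) (by linarith)
    obtain ⟨τ1, hτ1⟩ : ∃ τ1, τ1 = t + min (η / 2) (e / 2) := ⟨_, rfl⟩
    have m0 : 0 < min (η / 2) (e / 2) := by positivity
    have m1 := min_le_left (η / 2) (e / 2)
    have m2 := min_le_right (η / 2) (e / 2)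
    have hτ1b : Y τm < Y τ1 := by
      have := hη2 τ1 (by rw [hτ1, Real.dist_eq, abs_lt]; constructor <;> linarith)
      rw [Real.dist_eq, abs_lt] at this
      linarith [this.1]
    obtain ⟨τ0, h0, h1⟩ := isCompact_Icc.exists_isMaxOn
      (nonempty_Icc.2 (show τ1 ≤ t + ρ1 by linarith)) hY.continuousOn
    have h2 : Y τ1 ≤ Y τ0 := h1 (show τ1 ∈ Icc τ1 (t + ρ1) from ⟨le_rfl, by linarith⟩)
    have h3 : τ0 < t + e := by
      by_contra hcon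
      have : Y τ0 ≤ Y τm := hM ⟨not_lt.1 hcon, h0.2⟩
      linarith
    exact ⟨τ0, by linarith [h0.1], by linarith, h0.2, Or.inr fun τ hτ =>
      h1 ⟨h0.1.trans hτ.1, hτ.2⟩⟩
  · push Not at hB
    obtain ⟨ρ1, hρ1⟩ : ∃ ρ1, ρ1 = min ρ r := ⟨_, rfl⟩
    have c0 : 0 < ρ1 := by rw [hρ1]; positivity
    have c1 : ρ1 ≤ ρ := by rw [hρ1]; exact min_le_left _ _
    have c2 : ρ1 ≤ r := by rw [hρ1]; exact min_le_right _ _
    refine ⟨ρ1, c0, c1, fun ε hε => ?_⟩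
    have m1 := min_le_left (ε / 2) ρ1
    have m2 := min_le_right (ε / 2) ρ1
    obtain ⟨τ0, h0, h1⟩ := hB (min (ε / 2) ρ1) (by positivity)
    exact ⟨τ0, h0.1, by linarith [h0.2], by linarith [h0.2], Or.inr fun τ hτ =>
      (hA τ ⟨by linarith [h0.1, hτ.1], by linarith [hτ.2]⟩).trans h1⟩

/-- a chord with a bad label at a left turn -/
theorem bad_info (L : Loop c) {x t y : ℝ} (T : Tn c x t y) (hL : TL c x t y)
    (hV : Vt c x y ∉ range c) (hW : Wt c x y ∉ range c)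
    (h : 2 * Real.pi ≤ Phi c (Vt c x y) x y ∨ 2 * Real.pi ≤ Phi c (Wt c x y) x y) :
    x < t ∧ t < y ∧ (c y).im < (c x).im ∧
      (∃ β, t < β ∧ β < y ∧ (c y).im + ((c y).re - (c x).re) < (c β).im) ∧
      ∃ α, x < α ∧ α < t ∧ (c α).im < (c x).im + ((c y).re - (c x).re) := by
  have e1 := Vt_re (c := c) x y
  have e2 := Wt_re (c := c) x y
  have e3 := Vt_im (c := c) x y
  have e4 := Wt_im (c := c) x y
  rcases h with h | h
  · obtain ⟨a1, a2, α, β, b1, b2, b3, b4, b5, b6, b7, b8⟩ := turnL_bad L hV T h hL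
    exact ⟨by linarith, by linarith, by linarith, ⟨β, b3, b4, by linarith⟩,
      α, b1, b2, by linarith⟩
  · obtain ⟨a1, a2, α, β, b1, b2, b3, b4, b5, b6, b7, b8⟩ := turnL_bad L hW T h hL
    exact ⟨by linarith, by linarith, by linarith, ⟨β, b3, b4, by linarith⟩,
      α, b1, b2, by linarith⟩

theorem TL.sub {s t s' a b : ℝ} (hL : TL c s t s') (ha : s ≤ a) (hb : b ≤ s') : TL c a t b :=
  fun τ hτ τ' hτ' h => hL τ ⟨ha.trans hτ.1, hτ.2⟩ τ' ⟨hτ'.1, hτ'.2.trans hb⟩ h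

theorem clN (hc : Continuous c) (p1 p2 p3 p4 : ℝ) {f g : ℝ × ℝ → ℝ} (hf : Continuous f)
    (hg : Continuous g) : IsClosed {q : ℝ × ℝ | p1 ≤ q.1 ∧ q.1 ≤ p2 ∧ p3 ≤ q.1 + q.2 ∧
      q.1 + q.2 ≤ p4 ∧ f q ≤ g q ∧ (c (q.1 + q.2)).im ≤ (c q.1).im} := by
  have k1 : IsClosed {q : ℝ × ℝ | p1 ≤ q.1} := isClosed_le (by fun_prop) (by fun_prop)
  have k2 : IsClosed {q : ℝ × ℝ | q.1 ≤ p2} := isClosed_le (by fun_prop) (by fun_prop)
  have k3 : IsClosed {q : ℝ × ℝ | p3 ≤ q.1 + q.2} := isClosed_le (by fun_prop) (by fun_prop)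
  have k4 : IsClosed {q : ℝ × ℝ | q.1 + q.2 ≤ p4} := isClosed_le (by fun_prop) (by fun_prop)
  have k5 : IsClosed {q : ℝ × ℝ | f q ≤ g q} := isClosed_le hf hg
  have k6 : IsClosed {q : ℝ × ℝ | (c (q.1 + q.2)).im ≤ (c q.1).im} :=
    isClosed_le (by fun_prop) (by fun_prop)
  exact k1.inter (k2.inter (k3.inter (k4.inter (k5.inter k6))))

theorem opU (hc : Continuous c) (p1 p2 p3 p4 : ℝ) {f g : ℝ × ℝ → ℝ} (hf : Continuous f)
    (hg : Continuous g) : IsOpen {q : ℝ × ℝ | p1 < q.1 ∧ q.1 < p2 ∧ p3 < q.1 + q.2 ∧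
      q.1 + q.2 < p4 ∧ f q < g q ∧ (c (q.1 + q.2)).im < (c q.1).im} := by
  have k1 : IsOpen {q : ℝ × ℝ | p1 < q.1} := isOpen_lt (by fun_prop) (by fun_prop)
  have k2 : IsOpen {q : ℝ × ℝ | q.1 < p2} := isOpen_lt (by fun_prop) (by fun_prop)
  have k3 : IsOpen {q : ℝ × ℝ | p3 < q.1 + q.2} := isOpen_lt (by fun_prop) (by fun_prop)
  have k4 : IsOpen {q : ℝ × ℝ | q.1 + q.2 < p4} := isOpen_lt (by fun_prop) (by fun_prop)
  have k5 : IsOpen {q : ℝ × ℝ | f q < g q} := isOpen_lt hf hg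
  have k6 : IsOpen {q : ℝ × ℝ | (c (q.1 + q.2)).im < (c q.1).im} :=
    isOpen_lt (by fun_prop) (by fun_prop)
  exact k1.inter (k2.inter (k3.inter (k4.inter (k5.inter k6))))

/-- the chords are confined, first case -/
theorem conf1 (L : Loop c) {δ : ℝ} {T : Set Ann} {k l : ℤ} (F : Fm c δ T k l)
    (hkl : 1 ≤ k ∨ 1 ≤ l) {t ρ ρ1 τ0 m : ℝ} (W : Tn c (t - ρ) t (t + ρ))
    (hL : TL c (t - ρ) t (t + ρ)) (hδ : 2 * ρ < 1 - δ) (r1 : t < τ0) (r2 : τ0 ≤ t + ρ1)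
    (r3 : ρ1 ≤ ρ)
    (rec : (∀ τ ∈ Icc t τ0, (c τ).im ≤ (c τ0).im) ∨ ∀ τ ∈ Icc τ0 (t + ρ1), (c τ).im ≤ (c τ0).im)
    (hm : ∀ τ ∈ Icc t τ0, (c t).re - (c τ).re ≤ m ∧ |(c τ).im - (c t).im| ≤ m)
    (m1 : 3 * m ≤ (c t).re - (c (t - ρ)).re) (m2 : 3 * m ≤ (c t).re - (c (t + ρ1)).re)
    {q : ℝ × ℝ} (hq : pj q ∈ T) (q1 : q.1 ∈ Icc (t - ρ) t) (q2 : q.1 + q.2 ∈ Icc t τ0)
    (q3 : (c q.1).re ≤ (c (q.1 + q.2)).re) (q4 : (c (q.1 + q.2)).im ≤ (c q.1).im) : False := by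
  have cc := L.cont
  have hπ := Real.pi_pos
  obtain ⟨N, hN⟩ : ∃ N : Set (ℝ × ℝ), N = {q | t - ρ ≤ q.1 ∧ q.1 ≤ t ∧ t ≤ q.1 + q.2 ∧
    q.1 + q.2 ≤ τ0 ∧ (c q.1).re ≤ (c (q.1 + q.2)).re ∧ (c (q.1 + q.2)).im ≤ (c q.1).im} :=
    ⟨_, rfl⟩
  obtain ⟨U, hU⟩ : ∃ U : Set (ℝ × ℝ), U = {q | t - ρ < q.1 ∧ q.1 < t ∧ t < q.1 + q.2 ∧
    q.1 + q.2 < τ0 ∧ (c q.1).re < (c (q.1 + q.2)).re ∧ (c (q.1 + q.2)).im < (c q.1).im} :=
    ⟨_, rfl⟩
  have hNc : IsCompact N := by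
    have hK : IsCompact (Icc (t - ρ) t ×ˢ Icc (0:ℝ) (τ0 - (t - ρ))) :=
      isCompact_Icc.prod isCompact_Icc
    refine hK.of_isClosed_subset ?_ ?_
    · rw [hN]
      exact clN cc _ _ _ _ (by fun_prop) (by fun_prop)
    · rintro ⟨x, s⟩ h
      rw [hN] at h
      obtain ⟨h1, h2, h3, h4, -, -⟩ := h
      simp only at h1 h2 h3 h4
      exact ⟨⟨h1, h2⟩, by show 0 ≤ s; linarith, by show s ≤ _; linarith⟩
  have hUo : IsOpen U := by
    rw [hU]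
    exact opU cc _ _ _ _ (by fun_prop) (by fun_prop)
  have key : ∀ q ∈ N, pj q ∈ T → q ∈ U := by
    rintro ⟨x, s⟩ h hqT
    rw [hN] at h
    obtain ⟨h1, h2, h3, h4, h5, h6⟩ := h
    obtain ⟨y, hy⟩ : ∃ y, y = x + s := ⟨_, rfl⟩
    have hin := F.ins _ hqT
    have hV := F.labV _ hqT
    have hW := F.labW _ hqT
    simp only at h1 h2 h3 h4 h5 h6 hin hV hW
    rw [← hy] at h3 h4 h5 h6 hin hV hW
    have hbad : 2 * Real.pi ≤ Phi c (Vt c x y) x y ∨ 2 * Real.pi ≤ Phi c (Wt c x y) x y := by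
      rcases hkl with h | h
      · left
        have : (1:ℝ) ≤ k := by exact_mod_cast h
        rw [hV]; nlinarith
      · right
        have : (1:ℝ) ≤ l := by exact_mod_cast h
        rw [hW]; nlinarith
    have hyr : y ≤ t + ρ := by linarith
    obtain ⟨i1, i2, i3, ⟨β, i4, i5, i6⟩, α, i7, i8, i9⟩ := bad_info L
      (W.sub h1 h2 h3 hyr) (hL.sub h1 hyr) (wc_notMem hin.nv) (wc_notMem hin.nw) hbad
    have hm1 := hm y ⟨h3, h4⟩
    have hm2 := hm β ⟨i4.le, by linarith⟩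
    have hm3 := abs_le.1 hm1.2
    have hm4 := abs_le.1 hm2.2
    have hPX : (c t).re - 3 * m < (c x).re := by linarith [hm1.1, hm3.1, hm4.2]
    have hlt : (c x).re < (c y).re := by
      refine lt_of_le_of_ne h5 fun h => ?_
      have := hL x ⟨h1, i1⟩ y ⟨i2, hyr⟩ h
      linarith
    have hne : y ≠ τ0 := by
      intro h
      rcases rec with hr | hr
      · have := hr β ⟨i4.le, by linarith⟩
        rw [← h] at this
        linarith
      · have hr1 : τ0 ≤ t + ρ := by linarith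
        obtain ⟨τ, hτ, eτ⟩ := intermediate_value_Icc' r2 (f := fun τ => (c τ).re)
          (by fun_prop) (show (c x).re ∈ Icc (c (t + ρ1)).re (c τ0).re from
            ⟨by linarith, by rw [← h]; exact h5⟩)
        simp only at eτ
        have h7 := hL x ⟨h1, i1⟩ τ ⟨by linarith [hτ.1], by linarith [hτ.2]⟩ eτ.symm
        have h8 := hr τ hτ
        rw [← h] at h8
        linarith
    rw [hU]
    refine ⟨lt_of_le_of_ne h1 fun h => ?_, i1, by rw [← hy]; exact i2, ?_, by rw [← hy]; exact hlt,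
      by rw [← hy]; exact i3⟩
    · simp only at h
      rw [← h] at hPX
      linarith
    · rw [← hy]; exact lt_of_le_of_ne h4 hne
  have hUN : U ⊆ N := by
    rintro ⟨x, s⟩ h
    rw [hU] at h
    rw [hN]
    obtain ⟨h1, h2, h3, h4, h5, h6⟩ := h
    exact ⟨h1.le, h2.le, h3.le, h4.le, h5.le, h6.le⟩
  obtain ⟨p, hp, ep⟩ := F.s1
  obtain ⟨q', hq', e'⟩ := confine F.pre hNc hUo hUN key (q₀ := q)
    (by rw [hN]; exact ⟨q1.1, q1.2, q2.1, q2.2, q3, q4⟩) hq p hp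
  rw [hN] at hq'
  obtain ⟨h1, h2, h3, h4, -, -⟩ := hq'
  have : q'.2 = 1 - δ := by rw [← ep, ← e']; rfl
  linarith

/-- the chords are confined, second case -/
theorem conf2 (L : Loop c) {δ : ℝ} {T : Set Ann} {k l : ℤ} (F : Fm c δ T k l)
    (hkl : 1 ≤ k ∨ 1 ≤ l) {t ρ ρ1 τ0 m : ℝ} (W : Tn c (t - ρ) t (t + ρ))
    (hL : TL c (t - ρ) t (t + ρ)) (hδ : 2 * ρ < 1 - δ) (r1 : τ0 < t) (r2 : t - ρ1 ≤ τ0)
    (r3 : ρ1 ≤ ρ)
    (rec : (∀ τ ∈ Icc τ0 t, (c τ0).im ≤ (c τ).im) ∨ ∀ τ ∈ Icc (t - ρ1) τ0, (c τ0).im ≤ (c τ).im)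
    (hm : ∀ τ ∈ Icc τ0 t, (c t).re - (c τ).re ≤ m ∧ |(c τ).im - (c t).im| ≤ m)
    (m1 : 3 * m ≤ (c t).re - (c (t + ρ)).re) (m2 : 3 * m ≤ (c t).re - (c (t - ρ1)).re)
    {q : ℝ × ℝ} (hq : pj q ∈ T) (q1 : q.1 ∈ Icc τ0 t) (q2 : q.1 + q.2 ∈ Icc t (t + ρ))
    (q3 : (c (q.1 + q.2)).re ≤ (c q.1).re) (q4 : (c (q.1 + q.2)).im ≤ (c q.1).im) : False := by
  have cc := L.cont
  have hπ := Real.pi_pos
  obtain ⟨N, hN⟩ : ∃ N : Set (ℝ × ℝ), N = {q | τ0 ≤ q.1 ∧ q.1 ≤ t ∧ t ≤ q.1 + q.2 ∧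
    q.1 + q.2 ≤ t + ρ ∧ (c (q.1 + q.2)).re ≤ (c q.1).re ∧ (c (q.1 + q.2)).im ≤ (c q.1).im} :=
    ⟨_, rfl⟩
  obtain ⟨U, hU⟩ : ∃ U : Set (ℝ × ℝ), U = {q | τ0 < q.1 ∧ q.1 < t ∧ t < q.1 + q.2 ∧
    q.1 + q.2 < t + ρ ∧ (c (q.1 + q.2)).re < (c q.1).re ∧ (c (q.1 + q.2)).im < (c q.1).im} :=
    ⟨_, rfl⟩
  have hNc : IsCompact N := by
    have hK : IsCompact (Icc τ0 t ×ˢ Icc (0:ℝ) (t + ρ - τ0)) :=
      isCompact_Icc.prod isCompact_Icc
    refine hK.of_isClosed_subset ?_ ?_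
    · rw [hN]
      exact clN cc _ _ _ _ (by fun_prop) (by fun_prop)
    · rintro ⟨x, s⟩ h
      rw [hN] at h
      obtain ⟨h1, h2, h3, h4, -, -⟩ := h
      simp only at h1 h2 h3 h4
      exact ⟨⟨h1, h2⟩, by show 0 ≤ s; linarith, by show s ≤ _; linarith⟩
  have hUo : IsOpen U := by
    rw [hU]
    exact opU cc _ _ _ _ (by fun_prop) (by fun_prop)
  have key : ∀ q ∈ N, pj q ∈ T → q ∈ U := by
    rintro ⟨x, s⟩ h hqT
    rw [hN] at h
    obtain ⟨h1, h2, h3, h4, h5, h6⟩ := h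
    obtain ⟨y, hy⟩ : ∃ y, y = x + s := ⟨_, rfl⟩
    have hin := F.ins _ hqT
    have hV := F.labV _ hqT
    have hW := F.labW _ hqT
    simp only at h1 h2 h3 h4 h5 h6 hin hV hW
    rw [← hy] at h3 h4 h5 h6 hin hV hW
    have hbad : 2 * Real.pi ≤ Phi c (Vt c x y) x y ∨ 2 * Real.pi ≤ Phi c (Wt c x y) x y := by
      rcases hkl with h | h
      · left
        have : (1:ℝ) ≤ k := by exact_mod_cast h
        rw [hV]; nlinarith
      · right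
        have : (1:ℝ) ≤ l := by exact_mod_cast h
        rw [hW]; nlinarith
    have hxr : t - ρ ≤ x := by linarith
    obtain ⟨i1, i2, i3, ⟨β, i4, i5, i6⟩, α, i7, i8, i9⟩ := bad_info L
      (W.sub hxr h2 h3 h4) (hL.sub hxr h4) (wc_notMem hin.nv) (wc_notMem hin.nw) hbad
    have hm1 := hm x ⟨h1, h2⟩
    have hm2 := hm α ⟨by linarith, i8.le⟩
    have hm3 := abs_le.1 hm1.2
    have hm4 := abs_le.1 hm2.2
    have hPX : (c t).re - 3 * m < (c y).re := by linarith [hm1.1, hm3.2, hm4.1]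
    have hlt : (c y).re < (c x).re := by
      refine lt_of_le_of_ne h5 fun h => ?_
      have := hL x ⟨hxr, i1⟩ y ⟨i2, h4⟩ h.symm
      linarith
    have hne : τ0 ≠ x := by
      intro h
      rcases rec with hr | hr
      · have := hr α ⟨by linarith, i8.le⟩
        rw [h] at this
        linarith
      · obtain ⟨τ, hτ, eτ⟩ := intermediate_value_Icc r2 (f := fun τ => (c τ).re)
          (by fun_prop) (show (c y).re ∈ Icc (c (t - ρ1)).re (c τ0).re from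
            ⟨by linarith, by rw [h]; exact h5⟩)
        simp only at eτ
        have h7 := hL τ ⟨by linarith [hτ.1], by linarith [hτ.2]⟩ y ⟨i2, h4⟩ eτ
        have h8 := hr τ hτ
        rw [h] at h8
        linarith
    rw [hU]
    refine ⟨lt_of_le_of_ne h1 hne, i1, by rw [← hy]; exact i2, ?_, by rw [← hy]; exact hlt,
      by rw [← hy]; exact i3⟩
    rw [← hy]
    refine lt_of_le_of_ne h4 fun h => ?_
    rw [h] at hPX
    linarith
  have hUN : U ⊆ N := by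
    rintro ⟨x, s⟩ h
    rw [hU] at h
    rw [hN]
    obtain ⟨h1, h2, h3, h4, h5, h6⟩ := h
    exact ⟨h1.le, h2.le, h3.le, h4.le, h5.le, h6.le⟩
  obtain ⟨p, hp, ep⟩ := F.s1
  obtain ⟨q', hq', e'⟩ := confine F.pre hNc hUo hUN key (q₀ := q)
    (by rw [hN]; exact ⟨q1.1, q1.2, q2.1, q2.2, q3, q4⟩) hq p hp
  rw [hN] at hq'
  obtain ⟨h1, h2, h3, h4, -, -⟩ := hq'
  have : q'.2 = 1 - δ := by rw [← ep, ← e']; rfl
  linarith

/-- short chords with bad labels do not exist near the point -/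
def SOK (c : ℝ → ℂ) (t : ℝ) : Prop := ∃ ε > 0, ∀ δ, 0 < δ → δ < ε → ∀ T k l, Fm c δ T k l →
  (1 ≤ k ∨ 1 ≤ l) → ∀ x, |x - t| < ε → pj (x, δ) ∉ T

/-- a smallness statement -/
theorem small (L : Loop c) (t : ℝ) {m : ℝ} (hm : 0 < m) : ∃ ε > 0, ∀ τ, |τ - t| < ε →
    (c t).re - (c τ).re ≤ m ∧ |(c τ).im - (c t).im| ≤ m := by
  obtain ⟨ε, hε, h⟩ := Metric.continuous_iff.1 L.cont t m hm
  refine ⟨ε, hε, fun τ hτ => ?_⟩
  have h2 := h τ (by rw [Real.dist_eq]; exact hτ)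
  rw [dist_eq_norm] at h2
  have h3 := abs_re_le_norm (c τ - c t)
  have h4 := abs_im_le_norm (c τ - c t)
  rw [sub_re] at h3
  rw [sub_im] at h4
  have h5 := abs_le.1 h3
  exact ⟨by linarith [h5.1], h4.trans h2.le⟩

theorem bad_ge {k l : ℤ} {a b : ℝ} (hkl : 1 ≤ k ∨ 1 ≤ l)
    (hV : a = Real.pi / 4 + k * (2 * Real.pi)) (hW : b = Real.pi / 4 + l * (2 * Real.pi)) :
    2 * Real.pi ≤ a ∨ 2 * Real.pi ≤ b := by
  have hπ := Real.pi_pos
  rcases hkl with h | h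
  · left
    have : (1:ℝ) ≤ k := by exact_mod_cast h
    rw [hV]; nlinarith
  · right
    have : (1:ℝ) ≤ l := by exact_mod_cast h
    rw [hW]; nlinarith

theorem sok_left (L : Loop c) {t ρ : ℝ} (hρ : 0 < ρ) (hρ2 : ρ ≤ 1 / 4)
    (W : Tn c (t - ρ) t (t + ρ)) (hL : TL c (t - ρ) t (t + ρ)) : SOK c t := by
  have cc := L.cont
  obtain ⟨r1, r10, r11, hr1⟩ := record (Y := fun τ => (c τ).im) (by fun_prop) t hρ
  obtain ⟨r2, r20, r21, hr2⟩ := record (Y := fun τ => -(c (-τ)).im) (by fun_prop) (-t) hρ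
  have g1 : (c (t - ρ)).re < (c t).re := W.inc (t - ρ) ⟨le_rfl, W.h1⟩ t ⟨W.h1, le_rfl⟩
    (by linarith)
  have g2 : (c (t + ρ)).re < (c t).re := W.dec t ⟨le_rfl, W.h2⟩ (t + ρ) ⟨W.h2, le_rfl⟩
    (by linarith)
  have g3 : (c (t - r2)).re < (c t).re := W.inc (t - r2) ⟨by linarith, by linarith⟩ t
    ⟨W.h1, le_rfl⟩ (by linarith)
  have g4 : (c (t + r1)).re < (c t).re := W.dec t ⟨le_rfl, W.h2⟩ (t + r1)
    ⟨by linarith, by linarith⟩ (by linarith)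
  obtain ⟨m, hm⟩ : ∃ m, m = min (min ((c t).re - (c (t - ρ)).re) ((c t).re - (c (t + ρ)).re))
    (min ((c t).re - (c (t - r2)).re) ((c t).re - (c (t + r1)).re)) / 3 := ⟨_, rfl⟩
  have m0 : 0 < m := by
    rw [hm]
    refine div_pos (lt_min (lt_min ?_ ?_) (lt_min ?_ ?_)) (by norm_num) <;> linarith
  have m1 : 3 * m ≤ (c t).re - (c (t - ρ)).re := by
    rw [hm]; linarith [min_le_left (min ((c t).re - (c (t - ρ)).re) ((c t).re - (c (t + ρ)).re))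
      (min ((c t).re - (c (t - r2)).re) ((c t).re - (c (t + r1)).re)),
      min_le_left ((c t).re - (c (t - ρ)).re) ((c t).re - (c (t + ρ)).re)]
  have m2 : 3 * m ≤ (c t).re - (c (t + ρ)).re := by
    rw [hm]; linarith [min_le_left (min ((c t).re - (c (t - ρ)).re) ((c t).re - (c (t + ρ)).re))
      (min ((c t).re - (c (t - r2)).re) ((c t).re - (c (t + r1)).re)),
      min_le_right ((c t).re - (c (t - ρ)).re) ((c t).re - (c (t + ρ)).re)]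
  have m3 : 3 * m ≤ (c t).re - (c (t - r2)).re := by
    rw [hm]; linarith [min_le_right (min ((c t).re - (c (t - ρ)).re) ((c t).re - (c (t + ρ)).re))
      (min ((c t).re - (c (t - r2)).re) ((c t).re - (c (t + r1)).re)),
      min_le_left ((c t).re - (c (t - r2)).re) ((c t).re - (c (t + r1)).re)]
  have m4 : 3 * m ≤ (c t).re - (c (t + r1)).re := by
    rw [hm]; linarith [min_le_right (min ((c t).re - (c (t - ρ)).re) ((c t).re - (c (t + ρ)).re))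
      (min ((c t).re - (c (t - r2)).re) ((c t).re - (c (t + r1)).re)),
      min_le_right ((c t).re - (c (t - r2)).re) ((c t).re - (c (t + r1)).re)]
  obtain ⟨η, hη, hsm⟩ := small L t m0
  obtain ⟨τ1, a1, a2, a3, a4⟩ := hr1 η hη
  obtain ⟨τ2, b1, b2, b3, b4⟩ := hr2 η hη
  obtain ⟨ε, he⟩ : ∃ ε, ε = min (min ((τ1 - t) / 2) ((τ2 + t) / 2)) (min (ρ / 2) (1 / 4)) :=
    ⟨_, rfl⟩
  have e0 : 0 < ε := by
    rw [he]
    refine lt_min (lt_min ?_ ?_) (lt_min ?_ ?_) <;> linarith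
  have e1 : ε ≤ (τ1 - t) / 2 := by
    rw [he]; exact (min_le_left _ _).trans (min_le_left _ _)
  have e2 : ε ≤ (τ2 + t) / 2 := by
    rw [he]; exact (min_le_left _ _).trans (min_le_right _ _)
  have e3 : ε ≤ ρ / 2 := by
    rw [he]; exact (min_le_right _ _).trans (min_le_left _ _)
  have e4 : ε ≤ 1 / 4 := by
    rw [he]; exact (min_le_right _ _).trans (min_le_right _ _)
  refine ⟨ε, e0, fun δ d0 d1 T k l F hkl x hx hq => ?_⟩
  obtain ⟨x1, x2⟩ := abs_lt.1 hx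
  have hin := F.ins _ hq
  have hV := F.labV _ hq
  have hW := F.labW _ hq
  simp only at hin hV hW
  have hbad := bad_ge hkl hV hW
  have hnv := wc_notMem hin.nv
  have hnw := wc_notMem hin.nw
  have hsame : ∀ {z : ℂ}, z ∉ range c → RInj c x (x + δ) → ¬ (2 * Real.pi ≤ Phi c z x (x + δ)) :=
    fun hz hI => not_le.2 (Phi_inj_lt L hz (by linarith) hI)
  by_cases c1 : x + δ ≤ t
  · have hI : RInj c x (x + δ) := fun τ hτ τ' hτ' h => W.injA τ ⟨by linarith [hτ.1],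
      by linarith [hτ.2]⟩ τ' ⟨by linarith [hτ'.1], by linarith [hτ'.2]⟩ h
    exact hbad.elim (hsame hnv hI) (hsame hnw hI)
  by_cases c2 : t ≤ x
  · have hI : RInj c x (x + δ) := fun τ hτ τ' hτ' h => W.injB τ ⟨by linarith [hτ.1],
      by linarith [hτ.2]⟩ τ' ⟨by linarith [hτ'.1], by linarith [hτ'.2]⟩ h
    exact hbad.elim (hsame hnv hI) (hsame hnw hI)
  push Not at c1 c2
  obtain ⟨i1, i2, i3, -, -⟩ := bad_info L (W.sub (a := x) (b := x + δ) (by linarith) c2.le c1.le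
    (by linarith)) (hL.sub (by linarith) (by linarith)) hnv hnw hbad
  rcases le_total (c x).re (c (x + δ)).re with h | h
  · exact conf1 L F hkl W hL (by linarith) a1 a3 r11 a4 (fun τ hτ => hsm τ (by
      rw [abs_lt]; constructor <;> linarith [hτ.1, hτ.2])) m1 m4 hq
      ⟨by show t - ρ ≤ x; linarith, c2.le⟩ ⟨c1.le, by show x + δ ≤ τ1; linarith⟩ h i3.le
  · refine conf2 L F hkl W hL (by linarith) (τ0 := -τ2) (ρ1 := r2) (by linarith) (by linarith) r21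
      ?_ (fun τ hτ => hsm τ (by rw [abs_lt]; constructor <;> linarith [hτ.1, hτ.2])) m2 m3 hq
      ⟨by show -τ2 ≤ x; linarith, c2.le⟩ ⟨c1.le, by show x + δ ≤ t + ρ; linarith⟩ h i3.le
    rcases b4 with b4 | b4
    · left
      intro τ hτ
      have := b4 (-τ) ⟨by linarith [hτ.2], by linarith [hτ.1]⟩
      rw [neg_neg] at this
      linarith
    · right
      intro τ hτ
      have := b4 (-τ) ⟨by linarith [hτ.2], by linarith [hτ.1]⟩
      rw [neg_neg] at this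
      linarith

end Pool.Agent.T2h56.PM
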