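import Pool.Agent.N335.Hg.MonEnd

/-! The variation of the direction along an arc which does not meet a ray. -/

set_option autoImplicit false
open Complex Set Topology Metric

namespace Pool.Agent.T2h56.PM

open Pool.Agent.H763R2 Pool.Agent.H763R2.An
open Pool.Agent.N335.Hg (Lg Phi exists_Lg Phi_eq Phi_add Phi_per Phi_wind Phi_polar Phi_cont ang_eq
  arg_diff int_zero_of)

variable {c : ℝ → ℂ} {z : ℂ}

theorem Phi_slit (L : Loop c) (hz : z ∉ range c) {u : ℂ} (hu : u ≠ 0) {s t : ℝ} (hst : s ≤ t)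
    (h : ∀ τ ∈ Icc s t, u * (c τ - z) ∈ slitPlane) :
    Phi c z s t = arg (u * (c t - z)) - arg (u * (c s - z)) := by
  have cc := L.cont
  obtain ⟨k, hk, ek⟩ := exists_Lg L hz
  have h1 : ContinuousOn (fun τ => arg (u * (c τ - z)) - (log u).im) (Icc s t) := by
    refine ContinuousOn.sub ?_ continuousOn_const
    exact ContinuousOn.comp (g := arg) (t := slitPlane) (f := fun τ => u * (c τ - z))
      (fun x hx => (continuousAt_arg hx).continuousWithinAt) (by fun_prop) (fun τ hτ => h τ hτ)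
  have := arg_diff (φ := fun τ => (k τ).im) (ψ := fun τ => arg (u * (c τ - z)) - (log u).im) hst
    (by fun_prop) h1 (fun τ hτ => by
      refine ang_eq (ρ₁ := Real.exp (k τ).re) (ρ₂ := ‖u * (c τ - z)‖ * Real.exp (-(log u).re))
        (Real.exp_pos _) ?_ ?_
      · have : u * (c τ - z) ≠ 0 := slitPlane_ne_zero (h τ hτ)
        positivity
      · rw [ofReal_exp, ← exp_add, re_add_im, ek, ofReal_mul, ofReal_exp, ofReal_sub, sub_mul,
          exp_sub]
        have e1 := norm_mul_exp_arg_mul_I (u * (c τ - z))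
        have e2 : exp (log u) = u := exp_log hu
        rw [← re_add_im (log u), exp_add] at e2
        rw [ofReal_neg, exp_neg]
        have n1 := exp_ne_zero ((log u).re : ℂ)
        have n2 := exp_ne_zero ((log u).im * I : ℂ)
        rw [show (‖u * (c τ - z)‖ : ℂ) * (exp ((log u).re : ℂ))⁻¹ *
          (exp (((u * (c τ - z)).arg : ℂ) * I) / exp (((log u).im : ℂ) * I)) =
          (‖u * (c τ - z)‖ * exp (((u * (c τ - z)).arg : ℂ) * I)) *
            ((exp ((log u).re : ℂ)) * exp (((log u).im : ℂ) * I))⁻¹ by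
          field_simp, e1, e2]
        field_simp)
  rw [Phi_eq ⟨hk, ek⟩, sub_im]
  linarith

/-- the angle measured from the downward direction -/
noncomputable def aU (v : ℂ) : ℝ := arg (I * v)
/-- the angle measured from the upward direction -/
noncomputable def aD (v : ℂ) : ℝ := arg (-I * v)

theorem Iv_im (v : ℂ) : (I * v).im = v.re := by simp
theorem Iv_re (v : ℂ) : (I * v).re = -v.im := by simp
theorem nIv_im (v : ℂ) : (-I * v).im = -v.re := by simp
theorem nIv_re (v : ℂ) : (-I * v).re = v.im := by simp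

theorem aU_nonpos {v : ℂ} (h : v.re ≤ 0) (h2 : v.re = 0 → v.im < 0) : aU v ≤ 0 := by
  unfold aU
  rcases h.lt_or_eq with h | h
  · exact (arg_neg_iff.2 (by rw [Iv_im]; exact h)).le
  · rw [arg_eq_zero_iff.2 ⟨by rw [Iv_re]; linarith [h2 h], by rw [Iv_im]; exact h⟩]

theorem aU_nonneg {v : ℂ} (h : 0 ≤ v.re) : 0 ≤ aU v :=
  arg_nonneg_iff.2 (by rw [Iv_im]; exact h)

theorem aD_nonneg {v : ℂ} (h : v.re ≤ 0) : 0 ≤ aD v :=
  arg_nonneg_iff.2 (by rw [nIv_im]; linarith)

theorem aD_nonpos {v : ℂ} (h : 0 ≤ v.re) (h2 : v.re = 0 → 0 < v.im) : aD v ≤ 0 := by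
  unfold aD
  rcases h.lt_or_eq with h | h
  · exact (arg_neg_iff.2 (by rw [nIv_im]; linarith)).le
  · rw [arg_eq_zero_iff.2 ⟨by rw [nIv_re]; exact (h2 h.symm).le, by rw [nIv_im, ← h]; simp⟩]

theorem aU_lt {v : ℂ} (h : v.re = 0 → v.im < 0) : aU v < Real.pi := by
  unfold aU
  refine lt_of_le_of_ne (arg_le_pi _) fun e => ?_
  obtain ⟨h1, h2⟩ := arg_eq_pi_iff.1 e
  rw [Iv_im] at h2
  rw [Iv_re] at h1
  linarith [h h2]

theorem aD_lt {v : ℂ} (h : v.re = 0 → 0 < v.im) : aD v < Real.pi := by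
  unfold aD
  refine lt_of_le_of_ne (arg_le_pi _) fun e => ?_
  obtain ⟨h1, h2⟩ := arg_eq_pi_iff.1 e
  rw [nIv_im, neg_eq_zero] at h2
  rw [nIv_re] at h1
  linarith [h h2]

theorem lt_aU (v : ℂ) : -Real.pi < aU v := neg_pi_lt_arg _
theorem lt_aD (v : ℂ) : -Real.pi < aD v := neg_pi_lt_arg _

theorem aU_aD {v : ℂ} (h : 0 < v.re) : aD v = aU v - Real.pi := by
  unfold aU aD
  rw [neg_mul]
  exact arg_neg_eq_arg_sub_pi_of_im_pos (by rw [Iv_im]; exact h)

/-- nothing above `z` -/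
theorem Phi_up (L : Loop c) (hz : z ∉ range c) {s t : ℝ} (hst : s ≤ t)
    (h : ∀ τ ∈ Icc s t, (c τ).re = z.re → (c τ).im < z.im) :
    Phi c z s t = aU (c t - z) - aU (c s - z) := by
  refine Phi_slit L hz I_ne_zero hst fun τ hτ => ?_
  rw [mem_slitPlane_iff, Iv_im, Iv_re, sub_re, sub_im]
  by_cases h1 : (c τ).re = z.re
  · left; linarith [h τ hτ h1]
  · right; exact sub_ne_zero.2 h1

/-- nothing below `z` -/
theorem Phi_dn (L : Loop c) (hz : z ∉ range c) {s t : ℝ} (hst : s ≤ t)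
    (h : ∀ τ ∈ Icc s t, (c τ).re = z.re → z.im < (c τ).im) :
    Phi c z s t = aD (c t - z) - aD (c s - z) := by
  refine Phi_slit L hz (neg_ne_zero.2 I_ne_zero) hst fun τ hτ => ?_
  rw [mem_slitPlane_iff, nIv_im, nIv_re, sub_re, sub_im]
  by_cases h1 : (c τ).re = z.re
  · left; linarith [h τ hτ h1]
  · right
    intro h2
    exact h1 (by linarith)

theorem im_ne (hz : z ∉ range c) {τ : ℝ} (h : (c τ).re = z.re) : (c τ).im ≠ z.im := fun h2 =>
  hz ⟨τ, Complex.ext h h2⟩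

theorem Phi_right (L : Loop c) (hz : z ∉ range c) {s t : ℝ} (hst : s ≤ t)
    (h : ∀ τ ∈ Icc s t, z.re ≤ (c τ).re) : |Phi c z s t| ≤ Real.pi := by
  rw [Phi_slit L hz one_ne_zero hst fun τ hτ => ?_]
  · have h1 := abs_le.1 ((abs_arg_le_pi_div_two_iff (z := 1 * (c t - z))).2
      (by rw [one_mul, sub_re]; linarith [h t ⟨hst, le_rfl⟩]))
    have h2 := abs_le.1 ((abs_arg_le_pi_div_two_iff (z := 1 * (c s - z))).2
      (by rw [one_mul, sub_re]; linarith [h s ⟨le_rfl, hst⟩]))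
    rw [abs_le]
    constructor <;> linarith [h1.1, h1.2, h2.1, h2.2]
  · rw [one_mul, mem_slitPlane_iff, sub_re, sub_im]
    rcases (h τ hτ).lt_or_eq with h1 | h1
    · left; linarith
    · right; exact sub_ne_zero.2 (im_ne hz h1.symm)

theorem Phi_left (L : Loop c) (hz : z ∉ range c) {s t : ℝ} (hst : s ≤ t)
    (h : ∀ τ ∈ Icc s t, (c τ).re ≤ z.re) : |Phi c z s t| ≤ Real.pi := by
  rw [Phi_slit L hz (neg_ne_zero.2 one_ne_zero) hst fun τ hτ => ?_]
  · have h1 := abs_le.1 ((abs_arg_le_pi_div_two_iff (z := -1 * (c t - z))).2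
      (by rw [neg_one_mul, neg_re, sub_re]; linarith [h t ⟨hst, le_rfl⟩]))
    have h2 := abs_le.1 ((abs_arg_le_pi_div_two_iff (z := -1 * (c s - z))).2
      (by rw [neg_one_mul, neg_re, sub_re]; linarith [h s ⟨le_rfl, hst⟩]))
    rw [abs_le]
    constructor <;> linarith [h1.1, h1.2, h2.1, h2.2]
  · rw [neg_one_mul, mem_slitPlane_iff, neg_re, neg_im, sub_re, sub_im]
    rcases (h τ hτ).lt_or_eq with h1 | h1
    · left; linarith
    · right; exact neg_ne_zero.2 (sub_ne_zero.2 (im_ne hz h1))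

end Pool.Agent.T2h56.PM
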