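import Pool.Agent.T2h56.PM.ELeft

/-! Barriers at left turns. -/

set_option autoImplicit false
open Complex Set Topology Metric

namespace Pool.Agent.T2h56.PM

open Pool.Agent.H763R2 Pool.Agent.H763R2.An

variable {c : ℝ → ℂ}

theorem Tn.geB {s t s' : ℝ} (T : Tn c s t s') {τ τ' : ℝ} (h1 : t ≤ τ) (h2 : τ ≤ τ')
    (h3 : τ' ≤ s') : (c τ').re ≤ (c τ).re := by
  rcases h2.lt_or_eq with h | h
  · exact (T.dec τ ⟨h1, h2.trans h3⟩ τ' ⟨h1.trans h2, h3⟩ h).le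
  · rw [h]

theorem Tn.geA {s t s' : ℝ} (T : Tn c s t s') {τ τ' : ℝ} (h1 : s ≤ τ) (h2 : τ ≤ τ')
    (h3 : τ' ≤ t) : (c τ).re ≤ (c τ').re := by
  rcases h2.lt_or_eq with h | h
  · exact (T.inc τ ⟨h1, h2.trans h3⟩ τ' ⟨h1.trans h2, h3⟩ h).le
  · rw [h]

/-- a frame -/
theorem frame {p t q : ℝ} (pt : p < t) (tq : t < q) (qp : q < p + 1) (tn : Tn c p t q)
    (tl : TL c p t q) (e : (c p).re = (c q).re) (hA : ∀ τ ∈ Icc p t, (c p).im ≤ (c τ).im)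
    (hB : ∀ τ ∈ Icc t q, (c τ).im ≤ (c q).im) : LB c p t q where
  pt := pt
  tq := tq
  qp := qp
  tn := tn
  tl := tl
  b1 := by
    rintro σ h1 h2 ⟨-, -, -, α, a1, a2, a3, a4⟩
    have h3 := tn.geB h1.le h2 le_rfl
    have h4 := hA α ⟨a1.le, a2.le⟩
    rw [Wt_im] at a4
    linarith
  b2 := by
    rintro σ h1 h2 ⟨-, -, ⟨β, a1, a2, a3, a4⟩, -⟩
    have h3 := tn.geA le_rfl h1 h2.le
    have h4 := hB β ⟨a1.le, a2.le⟩
    rw [Vt_im] at a4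
    linarith

/-- the first branch is monotone in a second direction -/
theorem slopeA {p t q l : ℝ} (pt : p < t) (tq : t < q) (qp : q < p + 1) (tn : Tn c p t q)
    (tl : TL c p t q)
    (hA : ∀ τ ∈ Icc p t, ∀ τ' ∈ Icc p t, τ ≤ τ' →
      (c τ).im + l * (c τ).re ≤ (c τ').im + l * (c τ').re)
    (hB : ∀ τ ∈ Icc t q, (c τ).im + l * (c τ).re ≤ (c q).im + l * (c q).re)
    (h : l < 0 ∧ (c p).re ≤ (c q).re ∨
      0 ≤ l ∧ (c p).re - l * (c p).im ≤ (c q).re - l * (c q).im) : LB c p t q where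
  pt := pt
  tq := tq
  qp := qp
  tn := tn
  tl := tl
  b1 := by
    rintro σ h1 h2 ⟨a0, -, -, α, a1, a2, a3, a4⟩
    have h3 := tn.geB h1.le h2 le_rfl
    have h4 := hA p ⟨le_rfl, pt.le⟩ α ⟨a1.le, a2.le⟩ a1.le
    rw [a3, Wt_re] at h4
    rw [Wt_im] at a4
    rcases h with ⟨hl, h⟩ | ⟨hl, h⟩
    · have h5 := mul_neg_of_neg_of_pos hl (sub_pos.2 a0)
      linarith
    · have h5 := mul_le_mul_of_nonneg_left (hB σ ⟨h1.le, h2⟩) hl
      have h6 := mul_le_mul_of_nonneg_left h3 (mul_nonneg hl hl)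
      linarith
  b2 := by
    rintro σ h1 h2 ⟨a0, -, ⟨β, a1, a2, a3, a4⟩, α, a5, a6, a7, a8⟩
    have h3 := hA σ ⟨h1, h2.le⟩ α ⟨by linarith, a6.le⟩ a5.le
    have h4 := hB β ⟨a1.le, a2.le⟩
    rw [a7, Wt_re] at h3
    rw [Wt_im] at a8
    rw [Vt_im] at a4
    rw [a3, Vt_re] at h4
    linarith

/-- the second branch is monotone in a second direction -/
theorem slopeB {p t q l : ℝ} (pt : p < t) (tq : t < q) (qp : q < p + 1) (tn : Tn c p t q)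
    (tl : TL c p t q)
    (hB : ∀ τ ∈ Icc t q, ∀ τ' ∈ Icc t q, τ ≤ τ' →
      l * (c τ').re - (c τ').im ≤ l * (c τ).re - (c τ).im)
    (hA : ∀ τ ∈ Icc p t, l * (c τ).re - (c τ).im ≤ l * (c p).re - (c p).im)
    (h : l < 0 ∧ (c q).re ≤ (c p).re ∨
      0 ≤ l ∧ (c q).re + l * (c q).im ≤ (c p).re + l * (c p).im) : LB c p t q where
  pt := pt
  tq := tq
  qp := qp
  tn := tn
  tl := tl
  b1 := by
    rintro σ h1 h2 ⟨a0, -, ⟨β, a1, a2, a3, a4⟩, α, a5, a6, a7, a8⟩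
    have h3 := hB β ⟨a1.le, by linarith⟩ σ ⟨h1.le, h2⟩ a2.le
    have h4 := hA α ⟨a5.le, a6.le⟩
    rw [a3, Vt_re] at h3
    rw [Vt_im] at a4
    rw [Wt_im] at a8
    rw [a7, Wt_re] at h4
    linarith
  b2 := by
    rintro σ h1 h2 ⟨a0, -, ⟨β, a1, a2, a3, a4⟩, -⟩
    have h3 := tn.geA le_rfl h1 h2.le
    have h4 := hB β ⟨a1.le, a2.le⟩ q ⟨tq.le, le_rfl⟩ a2.le
    rw [a3, Vt_re] at h4
    rw [Vt_im] at a4
    rcases h with ⟨hl, h⟩ | ⟨hl, h⟩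
    · have h5 := mul_neg_of_neg_of_pos hl (sub_pos.2 a0)
      linarith
    · have h5 := mul_le_mul_of_nonneg_left (hA σ ⟨h1, h2.le⟩) hl
      have h6 := mul_le_mul_of_nonneg_left h3 (mul_nonneg hl hl)
      linarith

/-- local form -/
theorem slopeA_loc (L : Loop c) {t ρ l : ℝ} (hρ : 0 < ρ) (hρ2 : ρ < 1 / 2)
    (W : Tn c (t - ρ) t (t + ρ)) (hL : TL c (t - ρ) t (t + ρ))
    (hA : ∀ τ ∈ Icc (t - ρ) t, ∀ τ' ∈ Icc (t - ρ) t, τ ≤ τ' →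
      (c τ).im + l * (c τ).re ≤ (c τ').im + l * (c τ').re)
    (hB : ∀ ε > 0, ∃ τ, t < τ ∧ τ < t + ε ∧ (c t).im + l * (c t).re ≤ (c τ).im + l * (c τ).re)
    (h : l < 0 ∨ ∃ τ ∈ Ico (t - ρ) t, (c τ).re - l * (c τ).im < (c t).re - l * (c t).im) :
    ∃ p q, LB c p t q := by
  have cc := L.cont
  obtain ⟨f, hf⟩ : ∃ f : ℝ → ℝ, f = fun τ => (c τ).im + l * (c τ).re := ⟨_, rfl⟩
  have cf : Continuous f := by rw [hf]; fun_prop
  have key : ∀ ε > 0, ∃ q, t < q ∧ q < t + ε ∧ ∀ τ ∈ Icc t q, f τ ≤ f q := by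
    intro ε hε
    obtain ⟨τ1, a1, a2, a3⟩ := hB ε hε
    obtain ⟨q, hq, hmax⟩ := isCompact_Icc.exists_isMaxOn (nonempty_Icc.2 a1.le) cf.continuousOn
    have h1 : f τ1 ≤ f q := hmax (show τ1 ∈ Icc t τ1 from ⟨a1.le, le_rfl⟩)
    by_cases h2 : f q ≤ f τ1
    · exact ⟨τ1, a1, a2, fun τ hτ => (show f τ ≤ f q from hmax hτ).trans h2⟩
    · push Not at h2
      refine ⟨q, lt_of_le_of_ne hq.1 fun h => ?_, by linarith [hq.2], fun τ hτ =>
        hmax ⟨hτ.1, hτ.2.trans hq.2⟩⟩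
      have h3 : f t ≤ f τ1 := by rw [hf]; exact a3
      rw [← h] at h2
      linarith
  have fin : ∀ p q, t - ρ ≤ p → p < t → t < q → q < t + ρ → (∀ τ ∈ Icc t q, f τ ≤ f q) →
      (l < 0 ∧ (c p).re ≤ (c q).re ∨ 0 ≤ l ∧ (c p).re - l * (c p).im ≤ (c q).re - l * (c q).im) →
      LB c p t q := fun p q h1 h2 h3 h4 h5 h6 => slopeA h2 h3 (by linarith)
    (W.sub h1 h2.le h3.le h4.le) (hL.sub h1 h4.le) (fun τ hτ τ' hτ' hh =>
      hA τ ⟨h1.trans hτ.1, hτ.2⟩ τ' ⟨h1.trans hτ'.1, hτ'.2⟩ hh) (by rw [hf] at h5; exact h5) h6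
  rcases lt_or_ge l 0 with hl | hl
  · have g1 : (c (t - ρ)).re < (c t).re := W.inc (t - ρ) ⟨le_rfl, W.h1⟩ t ⟨W.h1, le_rfl⟩
      (by linarith)
    obtain ⟨η, hη, hsm⟩ := small L t (sub_pos.2 g1)
    obtain ⟨q, h1, h2, h3⟩ := key (min η ρ) (by positivity)
    have h4 := (hsm q (by
      rw [abs_lt]; constructor <;> linarith [min_le_left η ρ])).1
    exact ⟨t - ρ, q, fin _ _ le_rfl (by linarith) h1 (by linarith [min_le_right η ρ]) h3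
      (Or.inl ⟨hl, by linarith⟩)⟩
  · rcases h with h | ⟨p, hp, h⟩
    · linarith
    · have cg : Continuous fun τ => (c τ).re - l * (c τ).im := by fun_prop
      obtain ⟨η, hη, hη2⟩ := Metric.continuous_iff.1 cg t _ (sub_pos.2 h)
      obtain ⟨q, h1, h2, h3⟩ := key (min η ρ) (by positivity)
      have h4 := hη2 q (by
        rw [Real.dist_eq, abs_lt]; constructor <;> linarith [min_le_left η ρ])
      rw [Real.dist_eq] at h4
      have h5 := (abs_lt.1 h4).1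
      exact ⟨p, q, fin _ _ hp.1 hp.2 h1 (by linarith [min_le_right η ρ]) h3
        (Or.inr ⟨hl, by linarith⟩)⟩

theorem slopeB_loc (L : Loop c) {t ρ l : ℝ} (hρ : 0 < ρ) (hρ2 : ρ < 1 / 2)
    (W : Tn c (t - ρ) t (t + ρ)) (hL : TL c (t - ρ) t (t + ρ))
    (hB : ∀ τ ∈ Icc t (t + ρ), ∀ τ' ∈ Icc t (t + ρ), τ ≤ τ' →
      l * (c τ').re - (c τ').im ≤ l * (c τ).re - (c τ).im)
    (hA : ∀ ε > 0, ∃ τ, τ < t ∧ t - ε < τ ∧ l * (c t).re - (c t).im ≤ l * (c τ).re - (c τ).im)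
    (h : l < 0 ∨ ∃ τ ∈ Ioc t (t + ρ), (c τ).re + l * (c τ).im < (c t).re + l * (c t).im) :
    ∃ p q, LB c p t q := by
  have cc := L.cont
  obtain ⟨f, hf⟩ : ∃ f : ℝ → ℝ, f = fun τ => l * (c τ).re - (c τ).im := ⟨_, rfl⟩
  have cf : Continuous f := by rw [hf]; fun_prop
  have key : ∀ ε > 0, ∃ p, p < t ∧ t - ε < p ∧ ∀ τ ∈ Icc p t, f τ ≤ f p := by
    intro ε hε
    obtain ⟨τ1, a1, a2, a3⟩ := hA ε hε
    obtain ⟨q, hq, hmax⟩ := isCompact_Icc.exists_isMaxOn (nonempty_Icc.2 a1.le) cf.continuousOn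
    have h1 : f τ1 ≤ f q := hmax (show τ1 ∈ Icc τ1 t from ⟨le_rfl, a1.le⟩)
    by_cases h2 : f q ≤ f τ1
    · exact ⟨τ1, a1, a2, fun τ hτ => (show f τ ≤ f q from hmax hτ).trans h2⟩
    · push Not at h2
      refine ⟨q, lt_of_le_of_ne hq.2 fun h => ?_, by linarith [hq.1], fun τ hτ =>
        hmax ⟨hq.1.trans hτ.1, hτ.2⟩⟩
      have h3 : f t ≤ f τ1 := by rw [hf]; exact a3
      rw [h] at h2
      linarith
  have fin : ∀ p q, q ≤ t + ρ → p < t → t < q → t - ρ < p → (∀ τ ∈ Icc p t, f τ ≤ f p) →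
      (l < 0 ∧ (c q).re ≤ (c p).re ∨ 0 ≤ l ∧ (c q).re + l * (c q).im ≤ (c p).re + l * (c p).im) →
      LB c p t q := fun p q h1 h2 h3 h4 h5 h6 => slopeB h2 h3 (by linarith)
    (W.sub h4.le h2.le h3.le h1) (hL.sub h4.le h1) (fun τ hτ τ' hτ' hh =>
      hB τ ⟨hτ.1, hτ.2.trans h1⟩ τ' ⟨hτ'.1, hτ'.2.trans h1⟩ hh) (by rw [hf] at h5; exact h5) h6
  rcases lt_or_ge l 0 with hl | hl
  · have g1 : (c (t + ρ)).re < (c t).re := W.dec t ⟨le_rfl, W.h2⟩ (t + ρ) ⟨W.h2, le_rfl⟩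
      (by linarith)
    obtain ⟨η, hη, hsm⟩ := small L t (sub_pos.2 g1)
    obtain ⟨p, h1, h2, h3⟩ := key (min η ρ) (by positivity)
    have h4 := (hsm p (by
      rw [abs_lt]; constructor <;> linarith [min_le_left η ρ])).1
    exact ⟨p, t + ρ, fin _ _ le_rfl h1 (by linarith) (by linarith [min_le_right η ρ]) h3
      (Or.inl ⟨hl, by linarith⟩)⟩
  · rcases h with h | ⟨q, hq, h⟩
    · linarith
    · have cg : Continuous fun τ => (c τ).re + l * (c τ).im := by fun_prop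
      obtain ⟨η, hη, hη2⟩ := Metric.continuous_iff.1 cg t _ (sub_pos.2 h)
      obtain ⟨p, h1, h2, h3⟩ := key (min η ρ) (by positivity)
      have h4 := hη2 p (by
        rw [Real.dist_eq, abs_lt]; constructor <;> linarith [min_le_left η ρ])
      rw [Real.dist_eq] at h4
      have h5 := (abs_lt.1 h4).1
      exact ⟨p, q, fin _ _ hq.2 h1 hq.1 (by linarith [min_le_right η ρ]) h3
        (Or.inr ⟨hl, by linarith⟩)⟩

end Pool.Agent.T2h56.PM
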