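import Pool.Agent.T2h56.PM.Ends

/-! General tips with two sides given as graphs. -/

set_option autoImplicit false
open Complex Set Topology Metric

namespace Pool.Agent.T2h56.PM

open Pool.Agent.H763R2 Pool.Agent.H763R2.An Pool.Agent.H763R2.Dm

variable {c : ℝ → ℂ}

/-- asymmetric form of `slopeA_loc` -/
theorem slopeA_gen (L : Loop c) {t p0 q0 l : ℝ} (hp0 : p0 < t) (hq0 : t < q0) (hpq : q0 < p0 + 1)
    (W : Tn c p0 t q0) (hL : TL c p0 t q0)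
    (hA : ∀ τ ∈ Icc p0 t, ∀ τ' ∈ Icc p0 t, τ ≤ τ' →
      (c τ).im + l * (c τ).re ≤ (c τ').im + l * (c τ').re)
    (hB : ∀ ε > 0, ∃ τ, t < τ ∧ τ < t + ε ∧ (c t).im + l * (c t).re ≤ (c τ).im + l * (c τ).re)
    (h : l < 0 ∨ ∃ τ ∈ Ico p0 t, (c τ).re - l * (c τ).im < (c t).re - l * (c t).im) :
    ∃ p q, LB c p t q := by
  have cc := L.cont
  obtain ⟨f, hf⟩ : ∃ f : ℝ → ℝ, f = fun τ => (c τ).im + l * (c τ).re := ⟨_, rfl⟩
  have cf : Continuous f := by rw [hf]; fun_prop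
  have key : ∀ ε > 0, ∃ q, t < q ∧ q < t + ε ∧ ∀ τ ∈ Icc t q, f τ ≤ f q := by
    intro ε hε
    obtain ⟨τ1, a1, a2, a3⟩ := hB ε hε
    obtain ⟨q, hq, hmax⟩ := isCompact_Icc.exists_isMaxOn (nonempty_Icc.2 a1.le) cf.continuousOn
    have h1 : f τ1 ≤ f q := hmax (show τ1 ∈ Icc t τ1 from ⟨a1.le, le_rfl⟩)
    by_cases h2 : f q ≤ f τ1
    · exact ⟨τ1, a1, a2, fun τ hτ => (show f τ ≤ f q from hmax hτ).trans h2⟩
    · push Not at h2
      refine ⟨q, lt_of_le_of_ne hq.1 fun h => ?_, by linarith [hq.2], fun τ hτ =>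
        hmax ⟨hτ.1, hτ.2.trans hq.2⟩⟩
      have h3 : f t ≤ f τ1 := by rw [hf]; exact a3
      rw [← h] at h2
      linarith
  have fin : ∀ p q, p0 ≤ p → p < t → t < q → q < q0 → (∀ τ ∈ Icc t q, f τ ≤ f q) →
      (l < 0 ∧ (c p).re ≤ (c q).re ∨ 0 ≤ l ∧ (c p).re - l * (c p).im ≤ (c q).re - l * (c q).im) →
      LB c p t q := fun p q h1 h2 h3 h4 h5 h6 => slopeA h2 h3 (by linarith)
    (W.sub h1 h2.le h3.le h4.le) (hL.sub h1 h4.le) (fun τ hτ τ' hτ' hh =>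
      hA τ ⟨h1.trans hτ.1, hτ.2⟩ τ' ⟨h1.trans hτ'.1, hτ'.2⟩ hh) (by rw [hf] at h5; exact h5) h6
  have hg0 : 0 < q0 - t := sub_pos.2 hq0
  rcases lt_or_ge l 0 with hl | hl
  · have g1 : (c p0).re < (c t).re := W.inc p0 ⟨le_rfl, W.h1⟩ t ⟨W.h1, le_rfl⟩ hp0
    obtain ⟨η, hη, hsm⟩ := small L t (sub_pos.2 g1)
    obtain ⟨q, h1, h2, h3⟩ := key (min η (q0 - t)) (by positivity)
    have h4 := (hsm q (by
      rw [abs_lt]; constructor <;> linarith [min_le_left η (q0 - t)])).1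
    exact ⟨p0, q, fin _ _ le_rfl hp0 h1 (by linarith [min_le_right η (q0 - t)]) h3
      (Or.inl ⟨hl, by linarith⟩)⟩
  · rcases h with h | ⟨p, hp, h⟩
    · linarith
    · have cg : Continuous fun τ => (c τ).re - l * (c τ).im := by fun_prop
      obtain ⟨η, hη, hη2⟩ := Metric.continuous_iff.1 cg t _ (sub_pos.2 h)
      obtain ⟨q, h1, h2, h3⟩ := key (min η (q0 - t)) (by positivity)
      have h4 := hη2 q (by
        rw [Real.dist_eq, abs_lt]; constructor <;> linarith [min_le_left η (q0 - t)])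
      rw [Real.dist_eq] at h4
      have h5 := (abs_lt.1 h4).1
      exact ⟨p, q, fin _ _ hp.1 hp.2 h1 (by linarith [min_le_right η (q0 - t)]) h3
        (Or.inr ⟨hl, by linarith⟩)⟩

/-- the condition on the two sides `f ≤ g` of a tip at `X` -/
def GC11 (f : ℝ → ℝ) (x₀ X : ℝ) : Prop := ∃ (f' : ℝ → ℝ) (C : ℝ),
  (∀ x ∈ Icc x₀ X, HasDerivWithinAt f (f' x) (Icc x₀ X) x) ∧
  ∀ x ∈ Icc x₀ X, ∀ y ∈ Icc x₀ X, |f' y - f' x| ≤ C * |y - x|

def GLip (f g : ℝ → ℝ) (x₀ X : ℝ) : Prop := ∃ k l : ℝ, 0 ≤ l ∧ l ^ 2 < 1 + k ^ 2 ∧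
  (∀ x ∈ Icc x₀ X, ∀ y ∈ Icc x₀ X, |f y - f x - k * (y - x)| ≤ l * |y - x|) ∧
  ∀ ε > 0, ∃ x ∈ Ioo (X - ε) X, 2 * l * min 1 (|k| + l) * (X - x) ≤ g x - f x

def GMono (f g : ℝ → ℝ) (x₀ X : ℝ) : Prop := ∃ l : ℝ,
  MonotoneOn (fun x => f x + l * x) (Icc x₀ X) ∧
  (∀ ε > 0, ∃ x ∈ Ioo (X - ε) X, g X + l * X ≤ g x + l * x) ∧
  (l < 0 ∨ ∃ x ∈ Ico x₀ X, x - l * f x < X - l * f X)

def GFrame (f g : ℝ → ℝ) (x₀ X : ℝ) : Prop := ∀ x ∈ Icc x₀ X, f x₀ ≤ f x ∧ g x ≤ g x₀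

def GTip (f g : ℝ → ℝ) (x₀ X : ℝ) : Prop :=
  (GC11 f x₀ X ∨ GC11 g x₀ X) ∨
    (GLip f g x₀ X ∨ GLip (fun x => -g x) (fun x => -f x) x₀ X) ∨
    (GMono f g x₀ X ∨ GMono (fun x => -g x) (fun x => -f x) x₀ X) ∨ GFrame f g x₀ X

/-- a left turn whose sides are graphs -/
structure Sides (c : ℝ → ℂ) (p t q : ℝ) (a b : ℝ → ℝ) : Prop where
  pt : p < t
  tq : t < q
  qp : q < p + 1
  tn : Tn c p t q
  tl : TL c p t q
  e : (c p).re = (c q).re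
  ha : ∀ τ ∈ Icc p t, (c τ).im = a (c τ).re
  hb : ∀ τ ∈ Icc t q, (c τ).im = b (c τ).re

theorem mir_mir (c : ℝ → ℂ) : mir (mir c) = c := by
  funext τ
  unfold mir
  rw [neg_neg, Complex.conj_conj]

theorem Sides.flip {p t q : ℝ} {a b : ℝ → ℝ} (h : Sides c p t q a b) :
    Sides (mir c) (-q) (-t) (-p) (fun x => -b x) (fun x => -a x) where
  pt := by linarith [h.tq]
  tq := by linarith [h.pt]
  qp := by linarith [h.qp]
  tn := mir_tn h.tn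
  tl := mir_tl h.tl
  e := by rw [mir_re, mir_re, neg_neg, neg_neg]; exact h.e.symm
  ha τ hτ := by
    rw [mir_im, mir_re, h.hb (-τ) ⟨by linarith [hτ.2], by linarith [hτ.1]⟩]
  hb τ hτ := by
    rw [mir_im, mir_re, h.ha (-τ) ⟨by linarith [hτ.2], by linarith [hτ.1]⟩]

theorem of_mir (L : Loop c) {t : ℝ}
    (H : ∃ p' q', LB (mir c) p' (-t) q') : ∃ p' q', LB c p' t q' := by
  obtain ⟨p', q', B⟩ := H
  exact ⟨-q', -p', mir_LB L (by rwa [neg_neg, neg_neg])⟩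

/-- points on the second side near `t` over points near `X` -/
theorem Sides.near (L : Loop c) {p t q : ℝ} {a b : ℝ → ℝ} (h : Sides c p t q a b) {ε : ℝ}
    (hε : 0 < ε) : ∃ η > 0, ∀ x ∈ Ioo ((c t).re - η) (c t).re,
      ∃ τ, t < τ ∧ τ < t + ε ∧ τ ≤ q ∧ (c τ).re = x := by
  have cc := L.cont
  obtain ⟨s, hs⟩ : ∃ s, s = min (ε / 2) (q - t) := ⟨_, rfl⟩
  have s0 : 0 < s := by rw [hs]; exact lt_min (by linarith) (sub_pos.2 h.tq)
  have s1 : s ≤ ε / 2 := by rw [hs]; exact min_le_left _ _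
  have s2 : s ≤ q - t := by rw [hs]; exact min_le_right _ _
  have g : (c (t + s)).re < (c t).re := h.tn.dec t ⟨le_rfl, h.tn.h2⟩ (t + s)
    ⟨by linarith, by linarith⟩ (by linarith)
  refine ⟨(c t).re - (c (t + s)).re, sub_pos.2 g, fun x hx => ?_⟩
  obtain ⟨τ, hτ, e⟩ := intermediate_value_Icc' (show t ≤ t + s by linarith)
    (f := fun τ => (c τ).re) (by fun_prop) (show x ∈ Icc (c (t + s)).re (c t).re from
      ⟨by linarith [hx.1], hx.2.le⟩)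
  simp only at e
  have h6 : t < τ := lt_of_le_of_ne hτ.1 fun h => by rw [← h] at e; linarith [hx.2]
  exact ⟨τ, h6, by linarith [hτ.2], by linarith [hτ.2], e⟩

theorem Sides.tipLip (L : Loop c) {p t q : ℝ} {a b : ℝ → ℝ} (h : Sides c p t q a b)
    (H : GLip a b (c p).re (c t).re) : ∃ p' q', LB c p' t q' := by
  obtain ⟨k, l, l0, hkl, hs, hr⟩ := H
  obtain ⟨ρ, hρ⟩ : ∃ ρ, ρ = min (min (t - p) (q - t)) (1 / 4) := ⟨_, rfl⟩
  have r0 : 0 < ρ := by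
    rw [hρ]
    exact lt_min (lt_min (sub_pos.2 h.pt) (sub_pos.2 h.tq)) (by norm_num)
  have r1 : ρ ≤ t - p := by rw [hρ]; exact (min_le_left _ _).trans (min_le_left _ _)
  have r2 : ρ ≤ q - t := by rw [hρ]; exact (min_le_left _ _).trans (min_le_right _ _)
  have r4 : ρ ≤ 1 / 4 := by rw [hρ]; exact min_le_right _ _
  have hg : (c p).re ≤ (c (t - ρ)).re := h.tn.geA le_rfl (by linarith) (by linarith)
  refine lipA_loc (a := a) L r0 (by linarith) (h.tn.sub (by linarith) (by linarith) (by linarith)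
    (by linarith)) (h.tl.sub (by linarith) (by linarith))
    (fun τ hτ => h.ha τ ⟨by linarith [hτ.1], hτ.2⟩) (k := k) (l := l)
    (fun x hx y hy => hs x ⟨hg.trans hx.1, hx.2⟩ y ⟨hg.trans hy.1, hy.2⟩) l0 hkl
    (m := 2 * l * min 1 (|k| + l)) min_cond fun ε hε => ?_
  obtain ⟨η, hη, hn⟩ := h.near L hε
  obtain ⟨x, hx, h2⟩ := hr η hη
  obtain ⟨τ, t1, t2, t3, t4⟩ := hn x hx
  refine ⟨τ, t1, t2, ?_⟩
  rw [h.hb τ ⟨t1.le, t3⟩, t4]
  linarith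

theorem Sides.tipMono (L : Loop c) {p t q : ℝ} {a b : ℝ → ℝ} (h : Sides c p t q a b)
    (H : GMono a b (c p).re (c t).re) : ∃ p' q', LB c p' t q' := by
  have cc := L.cont
  obtain ⟨l, hm, hr, hp⟩ := H
  refine slopeA_gen (l := l) L h.pt h.tq h.qp h.tn h.tl ?_ ?_ ?_
  · intro τ hτ τ' hτ' hh
    rw [h.ha τ hτ, h.ha τ' hτ']
    exact hm ⟨h.tn.geA le_rfl hτ.1 hτ.2, h.tn.geA hτ.1 hτ.2 le_rfl⟩
      ⟨h.tn.geA le_rfl hτ'.1 hτ'.2, h.tn.geA hτ'.1 hτ'.2 le_rfl⟩ (h.tn.geA hτ.1 hh hτ'.2)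
  · intro ε hε
    obtain ⟨η, hη, hn⟩ := h.near L hε
    obtain ⟨x, hx, h2⟩ := hr η hη
    obtain ⟨τ, t1, t2, t3, t4⟩ := hn x hx
    refine ⟨τ, t1, t2, ?_⟩
    rw [h.hb τ ⟨t1.le, t3⟩, t4, h.hb t ⟨le_rfl, h.tq.le⟩]
    linarith
  · rcases hp with hp | ⟨x, hx, hp⟩
    · exact Or.inl hp
    · right
      obtain ⟨τ, hτ, e⟩ := intermediate_value_Icc h.pt.le (f := fun τ => (c τ).re) (by fun_prop)
        (show x ∈ Icc (c p).re (c t).re from ⟨hx.1, hx.2.le⟩)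
      simp only at e
      have h6 : τ < t := lt_of_le_of_ne hτ.2 fun h => by rw [h] at e; linarith [hx.2]
      refine ⟨τ, ⟨hτ.1, h6⟩, ?_⟩
      rw [h.ha τ hτ, e, h.ha t ⟨h.pt.le, le_rfl⟩]
      exact hp

theorem Sides.tipC11 (L : Loop c) {p t q : ℝ} {a b : ℝ → ℝ} (h : Sides c p t q a b)
    (H : GC11 a (c p).re (c t).re) : ∃ p' q', LB c p' t q' := by
  obtain ⟨a', C, a2, a3⟩ := H
  obtain ⟨ρ, hρ⟩ : ∃ ρ, ρ = min (min (t - p) (q - t)) (1 / 4) := ⟨_, rfl⟩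
  have r0 : 0 < ρ := by
    rw [hρ]
    exact lt_min (lt_min (sub_pos.2 h.pt) (sub_pos.2 h.tq)) (by norm_num)
  have r1 : ρ ≤ t - p := by rw [hρ]; exact (min_le_left _ _).trans (min_le_left _ _)
  have r2 : ρ ≤ q - t := by rw [hρ]; exact (min_le_left _ _).trans (min_le_right _ _)
  have r4 : ρ ≤ 1 / 4 := by rw [hρ]; exact min_le_right _ _
  have hg : (c p).re ≤ (c (t - ρ)).re := h.tn.geA le_rfl (by linarith) (by linarith)
  have hs : Icc (c (t - ρ)).re (c t).re ⊆ Icc (c p).re (c t).re := Icc_subset_Icc hg le_rfl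
  exact ceeA_loc (a := a) (a' := a') (C := |C|) L r0 (by linarith)
    (h.tn.sub (by linarith) (by linarith) (by linarith) (by linarith))
    (h.tl.sub (by linarith) (by linarith)) (fun τ hτ => h.ha τ ⟨by linarith [hτ.1], hτ.2⟩)
    (abs_nonneg C) (fun x hx => (a2 x (hs hx)).mono hs)
    (fun x hx y hy => (a3 x (hs hx) y (hs hy)).trans
      (mul_le_mul_of_nonneg_right (le_abs_self C) (abs_nonneg _)))

theorem GC11.neg {f : ℝ → ℝ} {x₀ X : ℝ} (h : GC11 f x₀ X) : GC11 (fun x => -f x) x₀ X := by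
  obtain ⟨f', C, hd, hC⟩ := h
  refine ⟨fun x => -f' x, C, fun x hx => (hd x hx).neg, fun x hx y hy => ?_⟩
  have := hC x hx y hy
  rw [← abs_neg] at this
  convert this using 2
  ring

/-- a left turn with good sides has a barrier -/
theorem Sides.tip (L : Loop c) {p t q : ℝ} {a b : ℝ → ℝ} (h : Sides c p t q a b)
    (H : GTip a b (c p).re (c t).re) : ∃ p' q', LB c p' t q' := by
  have e1 : (mir c (-q)).re = (c p).re := by rw [mir_re, neg_neg]; exact h.e.symm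
  have e2 : (mir c (-t)).re = (c t).re := by rw [mir_re, neg_neg]
  rcases H with (H | H) | (H | H) | (H | H) | H
  · exact h.tipC11 L H
  · refine of_mir L (h.flip.tipC11 (mir_loop L) ?_)
    rw [e1, e2]
    exact H.neg
  · exact h.tipLip L H
  · refine of_mir L (h.flip.tipLip (mir_loop L) ?_)
    rw [e1, e2]
    exact H
  · exact h.tipMono L H
  · refine of_mir L (h.flip.tipMono (mir_loop L) ?_)
    rw [e1, e2]
    exact H
  · refine ⟨p, q, frame h.pt h.tq h.qp h.tn h.tl h.e (fun τ hτ => ?_) fun τ hτ => ?_⟩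
    · rw [h.ha p ⟨le_rfl, h.pt.le⟩, h.ha τ hτ]
      exact (H _ ⟨h.tn.geA le_rfl hτ.1 hτ.2, h.tn.geA hτ.1 hτ.2 le_rfl⟩).1
    · rw [h.hb q ⟨h.tq.le, le_rfl⟩, h.hb τ hτ]
      have := (H (c τ).re ⟨by rw [h.e]; exact h.tn.geB hτ.1 hτ.2 le_rfl,
        h.tn.geB le_rfl hτ.1 hτ.2⟩).2
      rwa [h.e] at this

/-- for the two graphs -/
theorem GTip.endOK {f g : ℝ → ℝ} {x₀ : ℝ} (hx : x₀ ∈ Ioo (0:ℝ) 1) (H : GTip f g x₀ 1) :
    EndOK f g := by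
  have e : 1 - (1 - x₀) = x₀ := by ring
  have d0 : 0 < 1 - x₀ := sub_pos.2 hx.2
  have hc : ∀ {f : ℝ → ℝ}, GC11 f x₀ 1 → C11End f := by
    rintro f ⟨f', C, h1, h2⟩
    exact ⟨f', C, 1 - x₀, d0, by rw [e]; exact h1, by rw [e]; exact h2⟩
  have hl : ∀ {f g : ℝ → ℝ}, GLip f g x₀ 1 → LipEnd f g := by
    rintro f g ⟨k, l, h1, h2, h3, h4⟩
    exact ⟨k, l, 1 - x₀, d0, h1, h2, by rw [e]; exact h3, h4⟩
  have hm : ∀ {f g : ℝ → ℝ}, GMono f g x₀ 1 → MonoEnd f g := by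
    rintro f g ⟨l, h1, h2, h3⟩
    exact ⟨l, 1 - x₀, d0, by linarith [hx.1], by rw [e]; exact h1, h2, by rw [e]; exact h3⟩
  rcases H with (H | H) | (H | H) | (H | H) | H
  · exact Or.inr (Or.inr (Or.inr (Or.inl (hc H))))
  · exact Or.inr (Or.inr (Or.inr (Or.inr (hc H))))
  · exact Or.inr (Or.inr (Or.inl (Or.inl (hl H))))
  · exact Or.inr (Or.inr (Or.inl (Or.inr (hl H))))
  · exact Or.inr (Or.inl (Or.inl (hm H)))
  · exact Or.inr (Or.inl (Or.inr (hm H)))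
  · exact Or.inl ⟨x₀, hx, H⟩

end Pool.Agent.T2h56.PM
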