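import Pool.Agent.T2h56.PM.Slit

/-! Arcs on which the real part is monotone, or first increases and then decreases. -/

set_option autoImplicit false
open Complex Set Topology Metric

namespace Pool.Agent.T2h56.PM

open Pool.Agent.H763R2 Pool.Agent.H763R2.An
open Pool.Agent.N335.Hg (Lg Phi exists_Lg Phi_eq Phi_add Phi_per Phi_wind Phi_polar Phi_cont ang_eq
  arg_diff int_zero_of)

variable {c : ℝ → ℂ} {z : ℂ}

/-- the real part is injective on the arc -/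
def RInj (c : ℝ → ℂ) (s t : ℝ) : Prop :=
  ∀ τ ∈ Icc s t, ∀ τ' ∈ Icc s t, (c τ).re = (c τ').re → τ = τ'

theorem inj_cases (L : Loop c) (hz : z ∉ range c) {s t : ℝ} (hst : s ≤ t) (h : RInj c s t) :
    Phi c z s t = aU (c t - z) - aU (c s - z) ∧
      (∀ τ ∈ Icc s t, (c τ).re = z.re → (c τ).im < z.im) ∨
    Phi c z s t = aD (c t - z) - aD (c s - z) ∧
      (∀ τ ∈ Icc s t, (c τ).re = z.re → z.im < (c τ).im) := by
  by_cases hA : ∃ α ∈ Icc s t, (c α).re = z.re ∧ z.im < (c α).im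
  · obtain ⟨α, hα, e, hi⟩ := hA
    have h2 : ∀ τ ∈ Icc s t, (c τ).re = z.re → z.im < (c τ).im := fun τ hτ e' => by
      rw [h τ hτ α hα (e'.trans e.symm)]; exact hi
    exact Or.inr ⟨Phi_dn L hz hst h2, h2⟩
  · push Not at hA
    have h2 : ∀ τ ∈ Icc s t, (c τ).re = z.re → (c τ).im < z.im := fun τ hτ e' =>
      lt_of_le_of_ne (hA τ hτ e') (im_ne hz e')
    exact Or.inl ⟨Phi_up L hz hst h2, h2⟩

theorem Phi_inj_lt (L : Loop c) (hz : z ∉ range c) {s t : ℝ} (hst : s ≤ t) (h : RInj c s t) :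
    Phi c z s t < 2 * Real.pi := by
  rcases inj_cases L hz hst h with ⟨e, h2⟩ | ⟨e, h2⟩
  · have h3 := aU_lt (v := c t - z) (fun h0 => by
      rw [sub_re, sub_eq_zero] at h0
      rw [sub_im]; linarith [h2 t ⟨hst, le_rfl⟩ h0])
    have h4 := lt_aU (c s - z)
    rw [e]; linarith
  · have h3 := aD_lt (v := c t - z) (fun h0 => by
      rw [sub_re, sub_eq_zero] at h0
      rw [sub_im]; linarith [h2 t ⟨hst, le_rfl⟩ h0])
    have h4 := lt_aD (c s - z)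
    rw [e]; linarith

/-- the real part increases on `[s, t₀]` and decreases on `[t₀, s']` -/
structure Tn (c : ℝ → ℂ) (s t₀ s' : ℝ) : Prop where
  h1 : s ≤ t₀
  h2 : t₀ ≤ s'
  inc : ∀ τ ∈ Icc s t₀, ∀ τ' ∈ Icc s t₀, τ < τ' → (c τ).re < (c τ').re
  dec : ∀ τ ∈ Icc t₀ s', ∀ τ' ∈ Icc t₀ s', τ < τ' → (c τ').re < (c τ).re

theorem Tn.injA {s t₀ s' : ℝ} (T : Tn c s t₀ s') : RInj c s t₀ := by
  intro τ hτ τ' hτ' e
  rcases lt_trichotomy τ τ' with h | h | h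
  · linarith [T.inc τ hτ τ' hτ' h]
  · exact h
  · linarith [T.inc τ' hτ' τ hτ h]

theorem Tn.injB {s t₀ s' : ℝ} (T : Tn c s t₀ s') : RInj c t₀ s' := by
  intro τ hτ τ' hτ' e
  rcases lt_trichotomy τ τ' with h | h | h
  · linarith [T.dec τ hτ τ' hτ' h]
  · exact h
  · linarith [T.dec τ' hτ' τ hτ h]

theorem Tn.sub {s t₀ s' a b : ℝ} (T : Tn c s t₀ s') (ha : s ≤ a) (ha' : a ≤ t₀) (hb : t₀ ≤ b)
    (hb' : b ≤ s') : Tn c a t₀ b where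
  h1 := ha'
  h2 := hb
  inc τ hτ τ' hτ' h := T.inc τ ⟨ha.trans hτ.1, hτ.2⟩ τ' ⟨ha.trans hτ'.1, hτ'.2⟩ h
  dec τ hτ τ' hτ' h := T.dec τ ⟨hτ.1, hτ.2.trans hb'⟩ τ' ⟨hτ'.1, hτ'.2.trans hb'⟩ h

theorem Tn.le {s t₀ s' : ℝ} (T : Tn c s t₀ s') {τ : ℝ} (hτ : τ ∈ Icc s s') :
    (c τ).re ≤ (c t₀).re := by
  rcases lt_trichotomy τ t₀ with h | h | h
  · exact (T.inc τ ⟨hτ.1, h.le⟩ t₀ ⟨T.h1, le_rfl⟩ h).le
  · rw [h]
  · exact (T.dec t₀ ⟨le_rfl, T.h2⟩ τ ⟨h.le, hτ.2⟩ h).le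

/-- the real part on the arc is at least the smaller one at the ends -/
theorem Tn.ge {s t₀ s' : ℝ} (T : Tn c s t₀ s') {τ r : ℝ} (hτ : τ ∈ Icc s s')
    (h : r ≤ (c s).re) (h' : r ≤ (c s').re) : r ≤ (c τ).re := by
  rcases le_or_gt τ t₀ with h0 | h0
  · rcases hτ.1.lt_or_eq with h3 | h3
    · exact h.trans (T.inc s ⟨le_rfl, T.h1⟩ τ ⟨hτ.1, h0⟩ h3).le
    · rw [← h3]; exact h
  · rcases hτ.2.lt_or_eq with h3 | h3
    · exact h'.trans (T.dec τ ⟨h0.le, hτ.2⟩ s' ⟨T.h2, le_rfl⟩ h3).le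
    · rw [h3]; exact h'

theorem turn_cases (L : Loop c) (hz : z ∉ range c) {s t₀ s' : ℝ} (T : Tn c s t₀ s') :
    (Phi c z s s' = aU (c s' - z) - aU (c s - z) ∧
      ∀ τ ∈ Icc s s', (c τ).re = z.re → (c τ).im < z.im) ∨
    (Phi c z s s' = aD (c s' - z) - aD (c s - z) ∧
      ∀ τ ∈ Icc s s', (c τ).re = z.re → z.im < (c τ).im) ∨
    (∃ α β, s ≤ α ∧ α < t₀ ∧ t₀ < β ∧ β ≤ s' ∧ (c α).re = z.re ∧ (c β).re = z.re ∧
      z.im < (c α).im ∧ (c β).im < z.im ∧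
      Phi c z s s' = aU (c s' - z) - aD (c s - z) - Real.pi) ∨
    (∃ α β, s ≤ α ∧ α < t₀ ∧ t₀ < β ∧ β ≤ s' ∧ (c α).re = z.re ∧ (c β).re = z.re ∧
      (c α).im < z.im ∧ z.im < (c β).im ∧
      Phi c z s s' = aD (c s' - z) - aU (c s - z) + Real.pi) := by
  have hss := T.h1.trans T.h2
  by_cases hA : ∃ α ∈ Icc s s', (c α).re = z.re ∧ z.im < (c α).im
  swap
  · push Not at hA
    have h2 : ∀ τ ∈ Icc s s', (c τ).re = z.re → (c τ).im < z.im := fun τ hτ e' =>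
      lt_of_le_of_ne (hA τ hτ e') (im_ne hz e')
    exact Or.inl ⟨Phi_up L hz hss h2, h2⟩
  by_cases hB : ∃ β ∈ Icc s s', (c β).re = z.re ∧ (c β).im < z.im
  swap
  · push Not at hB
    have h2 : ∀ τ ∈ Icc s s', (c τ).re = z.re → z.im < (c τ).im := fun τ hτ e' =>
      lt_of_le_of_ne (hB τ hτ e') (im_ne hz e').symm
    exact Or.inr (Or.inl ⟨Phi_dn L hz hss h2, h2⟩)
  obtain ⟨α, hα, eα, iα⟩ := hA
  obtain ⟨β, hβ, eβ, iβ⟩ := hB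
  have hne : α ≠ β := fun h => by rw [h] at iα; linarith
  have eαβ : (c α).re = (c β).re := eα.trans eβ.symm
  have n1 : ¬ (α ≤ t₀ ∧ β ≤ t₀) := fun h => hne (T.injA α ⟨hα.1, h.1⟩ β ⟨hβ.1, h.2⟩ eαβ)
  have n2 : ¬ (t₀ ≤ α ∧ t₀ ≤ β) := fun h => hne (T.injB α ⟨h.1, hα.2⟩ β ⟨h.2, hβ.2⟩ eαβ)
  have add := Phi_add L hz s t₀ s'
  rcases le_or_gt α t₀ with h | h
  · have hβt : t₀ < β := by
      by_contra h'
      exact n1 ⟨h, not_lt.1 h'⟩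
    have hαt : α < t₀ := lt_of_le_of_ne h fun h' => n2 ⟨h'.ge, hβt.le⟩
    right; right; left
    refine ⟨α, β, hα.1, hαt, hβt, hβ.2, eα, eβ, iα, iβ, ?_⟩
    have g1 := Phi_dn L hz T.h1 (fun τ hτ e => by
      rw [T.injA τ hτ α ⟨hα.1, h⟩ (e.trans eα.symm)]; exact iα)
    have g2 := Phi_up L hz T.h2 (fun τ hτ e => by
      rw [T.injB τ hτ β ⟨hβt.le, hβ.2⟩ (e.trans eβ.symm)]; exact iβ)
    have hr : 0 < (c t₀ - z).re := by
      rw [sub_re, ← eα]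
      linarith [T.inc α ⟨hα.1, h⟩ t₀ ⟨T.h1, le_rfl⟩ hαt]
    have g3 := aU_aD hr
    rw [← add, g1, g2, g3]; ring
  · have hβt : β < t₀ := by
      by_contra h'
      exact n2 ⟨h.le, not_lt.1 h'⟩
    right; right; right
    refine ⟨β, α, hβ.1, hβt, h, hα.2, eβ, eα, iβ, iα, ?_⟩
    have g1 := Phi_up L hz T.h1 (fun τ hτ e => by
      rw [T.injA τ hτ β ⟨hβ.1, hβt.le⟩ (e.trans eβ.symm)]; exact iβ)
    have g2 := Phi_dn L hz T.h2 (fun τ hτ e => by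
      rw [T.injB τ hτ α ⟨h.le, hα.2⟩ (e.trans eα.symm)]; exact iα)
    have hr : 0 < (c t₀ - z).re := by
      rw [sub_re, ← eβ]
      linarith [T.inc β ⟨hβ.1, hβt.le⟩ t₀ ⟨T.h1, le_rfl⟩ hβt]
    have g3 := aU_aD hr
    rw [← add, g1, g2, g3]; ring

end Pool.Agent.T2h56.PM
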