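import Pool.Agent.T2h56.PM.Turn

/-! Bounds for the variation of the direction along an arc with a turn. -/

set_option autoImplicit false
open Complex Set Topology Metric

namespace Pool.Agent.T2h56.PM

open Pool.Agent.H763R2 Pool.Agent.H763R2.An
open Pool.Agent.N335.Hg (Lg Phi exists_Lg Phi_eq Phi_add Phi_per Phi_wind Phi_polar Phi_cont ang_eq
  arg_diff int_zero_of)

variable {c : ℝ → ℂ} {z : ℂ} {s t₀ s' : ℝ}

/-- the turn is to the right -/
def TR (c : ℝ → ℂ) (s t₀ s' : ℝ) : Prop := ∀ τ ∈ Ico s t₀, ∀ τ' ∈ Ioc t₀ s',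
  (c τ).re = (c τ').re → (c τ').im < (c τ).im
/-- the turn is to the left -/
def TL (c : ℝ → ℂ) (s t₀ s' : ℝ) : Prop := ∀ τ ∈ Ico s t₀, ∀ τ' ∈ Ioc t₀ s',
  (c τ).re = (c τ').re → (c τ).im < (c τ').im

theorem case1_lt (h : ∀ τ ∈ Icc s s', (c τ).re = z.re → (c τ).im < z.im) (hs : s ≤ s') :
    aU (c s' - z) - aU (c s - z) < 2 * Real.pi := by
  have h3 := aU_lt (v := c s' - z) (fun h0 => by
    rw [sub_re, sub_eq_zero] at h0
    rw [sub_im]; linarith [h s' ⟨hs, le_rfl⟩ h0])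
  have h4 := lt_aU (c s - z)
  linarith

theorem case2_lt (h : ∀ τ ∈ Icc s s', (c τ).re = z.re → z.im < (c τ).im) (hs : s ≤ s') :
    aD (c s' - z) - aD (c s - z) < 2 * Real.pi := by
  have h3 := aD_lt (v := c s' - z) (fun h0 => by
    rw [sub_re, sub_eq_zero] at h0
    rw [sub_im]; linarith [h s' ⟨hs, le_rfl⟩ h0])
  have h4 := lt_aD (c s - z)
  linarith

theorem case1_left (h : ∀ τ ∈ Icc s s', (c τ).re = z.re → (c τ).im < z.im) (hs : s ≤ s')
    (h' : (c s').re ≤ z.re) : aU (c s' - z) - aU (c s - z) < Real.pi := by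
  have h3 := aU_nonpos (v := c s' - z) (by rw [sub_re]; linarith) (fun h0 => by
    rw [sub_re, sub_eq_zero] at h0
    rw [sub_im]; linarith [h s' ⟨hs, le_rfl⟩ h0])
  have h4 := lt_aU (c s - z)
  linarith

theorem case2_left (h : ∀ τ ∈ Icc s s', (c τ).re = z.re → z.im < (c τ).im) (hs : s ≤ s')
    (h' : (c s).re ≤ z.re) : aD (c s' - z) - aD (c s - z) < Real.pi := by
  have h3 := aD_lt (v := c s' - z) (fun h0 => by
    rw [sub_re, sub_eq_zero] at h0
    rw [sub_im]; linarith [h s' ⟨hs, le_rfl⟩ h0])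
  have h4 := aD_nonneg (v := c s - z) (by rw [sub_re]; linarith)
  linarith

theorem aU_le (v : ℂ) : aU v ≤ Real.pi := arg_le_pi _
theorem aD_le (v : ℂ) : aD v ≤ Real.pi := arg_le_pi _

theorem Tn.half_right (L : Loop c) (hz : z ∉ range c) (T : Tn c s t₀ s') (h1 : z.re ≤ (c s).re)
    (h2 : z.re ≤ (c s').re) : |Phi c z s s'| ≤ Real.pi :=
  Phi_right L hz (T.h1.trans T.h2) fun _ hτ => T.ge hτ h1 h2

theorem turnR_lt (L : Loop c) (hz : z ∉ range c) (T : Tn c s t₀ s') (R : TR c s t₀ s') :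
    Phi c z s s' < 2 * Real.pi := by
  have hπ := Real.pi_pos
  have hs := T.h1.trans T.h2
  rcases turn_cases L hz T with ⟨e, h⟩ | ⟨e, h⟩ | ⟨α, β, a1, a2, a3, a4, a5, a6, a7, a8, e⟩ |
    ⟨α, β, a1, a2, a3, a4, a5, a6, a7, a8, e⟩
  · rw [e]; exact case1_lt h hs
  · rw [e]; exact case2_lt h hs
  · rw [e]; linarith [aU_le (c s' - z), lt_aD (c s - z)]
  · have := R α ⟨a1, a2⟩ β ⟨a3, a4⟩ (a5.trans a6.symm)
    linarith

theorem turnR_left (L : Loop c) (hz : z ∉ range c) (T : Tn c s t₀ s') (R : TR c s t₀ s')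
    (h1 : (c s).re ≤ z.re) (h2 : (c s').re ≤ z.re) : Phi c z s s' ≤ Real.pi := by
  have hπ := Real.pi_pos
  have hs := T.h1.trans T.h2
  rcases turn_cases L hz T with ⟨e, h⟩ | ⟨e, h⟩ | ⟨α, β, a1, a2, a3, a4, a5, a6, a7, a8, e⟩ |
    ⟨α, β, a1, a2, a3, a4, a5, a6, a7, a8, e⟩
  · rw [e]; exact (case1_left h hs h2).le
  · rw [e]; exact (case2_left h hs h1).le
  · have := aD_nonneg (v := c s - z) (by rw [sub_re]; linarith)
    rw [e]; linarith [aU_le (c s' - z)]
  · have := R α ⟨a1, a2⟩ β ⟨a3, a4⟩ (a5.trans a6.symm)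
    linarith

/-- a left turn seen at an angle of at least a full turn -/
theorem turnL_bad (L : Loop c) (hz : z ∉ range c) (T : Tn c s t₀ s')
    (hΦ : 2 * Real.pi ≤ Phi c z s s') (hR : TL c s t₀ s') :
    (c s).re < z.re ∧ (c s').re < z.re ∧ ∃ α β, s < α ∧ α < t₀ ∧ t₀ < β ∧ β < s' ∧
      (c α).re = z.re ∧ (c β).re = z.re ∧ (c α).im < z.im ∧ z.im < (c β).im := by
  have hπ := Real.pi_pos
  have hs := T.h1.trans T.h2
  rcases turn_cases L hz T with ⟨e, h⟩ | ⟨e, h⟩ | ⟨α, β, a1, a2, a3, a4, a5, a6, a7, a8, e⟩ |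
    ⟨α, β, a1, a2, a3, a4, a5, a6, a7, a8, e⟩
  · have := case1_lt h hs
    linarith
  · have := case2_lt h hs
    linarith
  · linarith [aU_le (c s' - z), lt_aD (c s - z)]
  · have hP := lt_aU (c s - z)
    have hQ : aD (c s' - z) < Real.pi := aD_lt (fun h0 => by
      rw [sub_re, sub_eq_zero] at h0
      rw [sub_im, T.injB s' ⟨T.h2, le_rfl⟩ β ⟨a3.le, a4⟩ (h0.trans a6.symm)]
      linarith)
    have h3 : aU (c s - z) < 0 := by linarith
    have h4 : 0 < aD (c s' - z) := by linarith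
    have h5 : (c s).re < z.re := by
      have := arg_neg_iff.1 h3
      rw [Iv_im, sub_re] at this
      linarith
    have h6 : (c s').re < z.re := by
      by_contra hcon
      push Not at hcon
      have h7 : (-I * (c s' - z)).im ≤ 0 := by rw [nIv_im, sub_re]; linarith
      rcases h7.lt_or_eq with h8 | h8
      · exact absurd (arg_neg_iff.2 h8) (not_lt.2 h4.le)
      · have h9 : (c s').re = z.re := by rw [nIv_im, sub_re] at h8; linarith
        have h10 : aD (c s' - z) = 0 := by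
          unfold aD
          rw [arg_eq_zero_iff]
          refine ⟨?_, h8⟩
          rw [nIv_re, sub_im, T.injB s' ⟨T.h2, le_rfl⟩ β ⟨a3.le, a4⟩ (h9.trans a6.symm)]
          linarith
        linarith
    refine ⟨h5, h6, α, β, lt_of_le_of_ne a1 fun h => ?_, a2, a3, lt_of_le_of_ne a4 fun h => ?_, a5,
      a6, a7, a8⟩
    · rw [h] at h5; linarith
    · rw [← h] at h6; linarith

theorem turnL_gtB (L : Loop c) (hz : z ∉ range c) (T : Tn c s t₀ s')
    (hΦ : Real.pi < Phi c z s s') (h1 : (c s').re ≤ z.re) (hR : TL c s t₀ s') :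
    ∃ β, t₀ < β ∧ β ≤ s' ∧ (c β).re = z.re ∧ z.im < (c β).im := by
  have hπ := Real.pi_pos
  have hs := T.h1.trans T.h2
  rcases turn_cases L hz T with ⟨e, h⟩ | ⟨e, h⟩ | ⟨α, β, a1, a2, a3, a4, a5, a6, a7, a8, e⟩ |
    ⟨α, β, a1, a2, a3, a4, a5, a6, a7, a8, e⟩
  · have := case1_left h hs h1
    linarith
  · have h3 : aD (c s - z) < 0 := by linarith [aD_le (c s' - z)]
    have h4 := arg_neg_iff.1 h3
    rw [nIv_im, sub_re] at h4
    have h5 : z.re < (c t₀).re := by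
      have := T.le (τ := s) ⟨le_rfl, hs⟩
      linarith
    have cc := L.cont
    obtain ⟨β, hβ, eβ⟩ := intermediate_value_Icc' T.h2 (f := fun τ => (c τ).re)
      (by fun_prop) (show z.re ∈ Icc (c s').re (c t₀).re from ⟨h1, h5.le⟩)
    refine ⟨β, lt_of_le_of_ne hβ.1 fun h' => ?_, hβ.2, eβ, h β ⟨T.h1.trans hβ.1, hβ.2⟩ eβ⟩
    rw [← h'] at eβ
    simp only at eβ
    linarith
  · linarith [aU_le (c s' - z), lt_aD (c s - z)]
  · exact ⟨β, a3, a4, a6, a8⟩

theorem turnL_gtA (L : Loop c) (hz : z ∉ range c) (T : Tn c s t₀ s')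
    (hΦ : Real.pi < Phi c z s s') (h1 : (c s).re ≤ z.re) (hR : TL c s t₀ s') :
    ∃ α, s ≤ α ∧ α < t₀ ∧ (c α).re = z.re ∧ (c α).im < z.im := by
  have hπ := Real.pi_pos
  have hs := T.h1.trans T.h2
  rcases turn_cases L hz T with ⟨e, h⟩ | ⟨e, h⟩ | ⟨α, β, a1, a2, a3, a4, a5, a6, a7, a8, e⟩ |
    ⟨α, β, a1, a2, a3, a4, a5, a6, a7, a8, e⟩
  · have h3 : 0 < aU (c s' - z) := by linarith [lt_aU (c s - z)]
    have h4 : 0 < (c s' - z).re := by
      by_contra hcon
      push Not at hcon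
      have := aU_nonpos hcon (fun h0 => by
        rw [sub_re, sub_eq_zero] at h0
        rw [sub_im]; linarith [h s' ⟨hs, le_rfl⟩ h0])
      linarith
    rw [sub_re] at h4
    have h5 : z.re < (c t₀).re := by
      have := T.le (τ := s') ⟨hs, le_rfl⟩
      linarith
    have cc := L.cont
    obtain ⟨α, hα, eα⟩ := intermediate_value_Icc T.h1 (f := fun τ => (c τ).re)
      (by fun_prop) (show z.re ∈ Icc (c s).re (c t₀).re from ⟨h1, h5.le⟩)
    refine ⟨α, hα.1, lt_of_le_of_ne hα.2 fun h' => ?_, eα, h α ⟨hα.1, hα.2.trans T.h2⟩ eα⟩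
    rw [h'] at eα
    simp only at eα
    linarith
  · have := case2_left h hs h1
    linarith
  · linarith [aU_le (c s' - z), lt_aD (c s - z)]
  · exact ⟨α, a1, a2, a5, a7⟩

/-- the two other vertices of the square on the chord from `c x` to `c y` -/
noncomputable def Vt (c : ℝ → ℂ) (x y : ℝ) : ℂ := c x + I * (c y - c x)
noncomputable def Wt (c : ℝ → ℂ) (x y : ℝ) : ℂ := c y + I * (c y - c x)

theorem Vt_re (x y : ℝ) : (Vt c x y).re = (c x).re - ((c y).im - (c x).im) := by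
  unfold Vt; simp; ring
theorem Vt_im (x y : ℝ) : (Vt c x y).im = (c x).im + ((c y).re - (c x).re) := by
  unfold Vt; simp
theorem Wt_re (x y : ℝ) : (Wt c x y).re = (c y).re - ((c y).im - (c x).im) := by
  unfold Wt; simp; ring
theorem Wt_im (x y : ℝ) : (Wt c x y).im = (c y).im + ((c y).re - (c x).re) := by
  unfold Wt; simp

/-- the long end at a left turn: `Q = c y` before and `P = c x` after the turn -/
theorem turnL_E (L : Loop c) {x y : ℝ} (T : Tn c y t₀ x) (hR : TL c y t₀ x)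
    (hV : Vt c x y ∉ range c) (hW : Wt c x y ∉ range c) (h1 : Real.pi < Phi c (Vt c x y) y x)
    (h2 : Real.pi < Phi c (Wt c x y) y x) :
    (c y).im < (c x).im ∧
      (∃ β, t₀ < β ∧ β < x ∧ (c β).re = (Vt c x y).re ∧ (Vt c x y).im < (c β).im) ∧
      ∃ α, y < α ∧ α < t₀ ∧ (c α).re = (Wt c x y).re ∧ (c α).im < (Wt c x y).im := by
  have a1 : ¬ ((Vt c x y).re ≤ (c y).re ∧ (Vt c x y).re ≤ (c x).re) := fun h =>
    absurd (le_abs_self _ |>.trans (T.half_right L hV h.1 h.2)) (not_le.2 h1)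
  have a2 : ¬ ((Wt c x y).re ≤ (c y).re ∧ (Wt c x y).re ≤ (c x).re) := fun h =>
    absurd (le_abs_self _ |>.trans (T.half_right L hW h.1 h.2)) (not_le.2 h2)
  have e1 := Vt_re (c := c) x y
  have e2 := Wt_re (c := c) x y
  have h3 : (c y).im < (c x).im := by
    by_contra hcon
    push Not at hcon
    have b1 : (c y).re < (Vt c x y).re := by
      by_contra hc
      exact a1 ⟨not_lt.1 hc, by linarith⟩
    have b2 : (c x).re < (Wt c x y).re := by
      by_contra hc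
      exact a2 ⟨by linarith, not_lt.1 hc⟩
    linarith
  refine ⟨h3, ?_, ?_⟩
  · obtain ⟨β, b1, b2, b3, b4⟩ := turnL_gtB L hV T h1 (by linarith) hR
    refine ⟨β, b1, lt_of_le_of_ne b2 fun h => ?_, b3, b4⟩
    rw [h] at b3
    linarith
  · obtain ⟨β, b1, b2, b3, b4⟩ := turnL_gtA L hW T h2 (by linarith) hR
    refine ⟨β, lt_of_le_of_ne b1 fun h => ?_, b2, b3, b4⟩
    rw [← h] at b3
    linarith

/-- the long end in the other cases -/
theorem E_choice {x y : ℝ} (hV : Vt c x y ∉ range c) (hW : Wt c x y ∉ range c)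
    (H : ∀ z, z ∉ range c → ((c y).re ≤ z.re ∧ (c x).re ≤ z.re) ∨
      (z.re ≤ (c y).re ∧ z.re ≤ (c x).re) → Phi c z y x ≤ Real.pi) :
    Phi c (Vt c x y) y x ≤ Real.pi ∨ Phi c (Wt c x y) y x ≤ Real.pi := by
  have e1 := Vt_re (c := c) x y
  have e2 := Wt_re (c := c) x y
  rcases le_total (c y).im (c x).im with h | h
  · rcases le_total (c x).re (c y).re with h' | h'
    · right; exact H _ hW (Or.inl ⟨by linarith, by linarith⟩)
    · left; exact H _ hV (Or.inl ⟨by linarith, by linarith⟩)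
  · rcases le_total (c x).re (c y).re with h' | h'
    · left; exact H _ hV (Or.inr ⟨by linarith, by linarith⟩)
    · right; exact H _ hW (Or.inr ⟨by linarith, by linarith⟩)

theorem E_right (L : Loop c) {x y : ℝ} (T : Tn c y t₀ x) (hR : TR c y t₀ x)
    (hV : Vt c x y ∉ range c) (hW : Wt c x y ∉ range c) :
    Phi c (Vt c x y) y x ≤ Real.pi ∨ Phi c (Wt c x y) y x ≤ Real.pi := by
  refine E_choice hV hW fun z hz h => ?_
  rcases h with h | h
  · exact turnR_left L hz T hR h.1 h.2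
  · exact (le_abs_self _).trans (T.half_right L hz h.1 h.2)

theorem E_mono (L : Loop c) {x y : ℝ} (hyx : y ≤ x)
    (M : (∀ τ ∈ Icc y x, ∀ τ' ∈ Icc y x, τ ≤ τ' → (c τ).re ≤ (c τ').re) ∨
      ∀ τ ∈ Icc y x, ∀ τ' ∈ Icc y x, τ ≤ τ' → (c τ').re ≤ (c τ).re)
    (hV : Vt c x y ∉ range c) (hW : Wt c x y ∉ range c) :
    Phi c (Vt c x y) y x ≤ Real.pi ∨ Phi c (Wt c x y) y x ≤ Real.pi := by
  refine E_choice hV hW fun z hz h => ?_
  refine (le_abs_self _).trans ?_
  rcases h with h | h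
  · refine Phi_left L hz hyx fun τ hτ => ?_
    rcases M with M | M
    · exact (M τ hτ x ⟨hyx, le_rfl⟩ hτ.2).trans h.2
    · exact (M y ⟨le_rfl, hyx⟩ τ hτ hτ.1).trans h.1
  · refine Phi_right L hz hyx fun τ hτ => ?_
    rcases M with M | M
    · exact h.1.trans (M y ⟨le_rfl, hyx⟩ τ hτ hτ.1)
    · exact h.2.trans (M τ hτ x ⟨hyx, le_rfl⟩ hτ.2)

end Pool.Agent.T2h56.PM
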