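import Pool.Agent.T2h56.PM.Mir
import Pool.Agent.T2h56.PM.Core
import Pool.Agent.H765R3.Peg.Conv
import Pool.Agent.Y535.PEG.Jct

/-! Two graphs. -/

set_option autoImplicit false
open Complex Set Topology Metric

namespace Pool.Agent.T2h56.PM

open Pool.Agent.H763R2 Pool.Agent.H763R2.An
open Pool.Agent.H763R2.Dm (NoSq)
open Pool.Agent.N335.Hg (Phi Phi_add Phi_wind)

variable {c : ℝ → ℂ} {z : ℂ}

/-- orientation -/
theorem orient (L : Loop c) (J : Inj c) (h : ∃ z, IsWc c z 1) : ∀ z, 0 < mgc c z → IsWc c z 1 := by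
  obtain ⟨z0, h0⟩ := h
  have hz0 := wc_notMem h0
  have hpos := (L.closed.notMem_iff_infDist_pos L.ne).1 hz0
  have hm : 0 < mgc c z0 := by
    unfold mgc
    rw [if_pos (show Odc c z0 from ⟨1, h0, by decide⟩)]
    exact hpos
  obtain ⟨n0, ho, H⟩ := Y535.PEG.wind_vals L J hm
  have h1 : (1 : ℤ) = n0 := (H z0 hz0 1 h0).1 hm
  intro z hz
  have hzr : z ∉ range c := fun h2 => by
    rw [← (mgc_sg L).zero L] at h2
    linarith
  obtain ⟨n, hn⟩ := L.exW hzr
  have h2 := (H z hzr n hn).1 hz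
  rw [h2, ← h1] at hn
  exact hn

theorem half_turn (L : Loop c) (hz : z ∉ range c) {s t s' : ℝ} (T : Tn c s t s')
    (e1 : (c s).re = z.re) (e2 : (c s').re = z.re) (i1 : (c s).im < z.im) (i2 : z.im < (c s').im) :
    Phi c z s s' = Real.pi := by
  have hss := T.h1.trans T.h2
  have a1 : aD (c s' - z) = 0 := by
    unfold aD
    rw [arg_eq_zero_iff]
    exact ⟨by rw [nIv_re, sub_im]; linarith, by rw [nIv_im, sub_re]; linarith⟩
  have a2 : aU (c s - z) = 0 := by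
    unfold aU
    rw [arg_eq_zero_iff]
    exact ⟨by rw [Iv_re, sub_im]; linarith, by rw [Iv_im, sub_re]; linarith⟩
  rcases turn_cases L hz T with ⟨e, h⟩ | ⟨e, h⟩ | ⟨α, β, b1, b2, b3, b4, b5, b6, b7, b8, e⟩ |
    ⟨α, β, b1, b2, b3, b4, b5, b6, b7, b8, e⟩
  · linarith [h s' ⟨hss, le_rfl⟩ e2]
  · linarith [h s ⟨le_rfl, hss⟩ e1]
  · have := T.injA α ⟨b1, b2.le⟩ s ⟨le_rfl, T.h1⟩ (b5.trans e1.symm)
    rw [this] at b7
    linarith
  · rw [e, a1, a2]; ring

/-- the two graphs as a function on the unit interval -/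
noncomputable def F2 (f g : ℝ → ℝ) (u : ℝ) : ℂ :=
  if u ≤ 1 / 2 then ⟨2 * u, f (2 * u)⟩ else ⟨2 - 2 * u, g (2 - 2 * u)⟩

/-- the closed curve made of two graphs -/
noncomputable def C2 (f g : ℝ → ℝ) (t : ℝ) : ℂ := F2 f g (Int.fract t)

variable {f g : ℝ → ℝ}

/-- two graphs with common ends -/
structure TG (f g : ℝ → ℝ) : Prop where
  cf : ContinuousOn f (Icc 0 1)
  cg : ContinuousOn g (Icc 0 1)
  e0 : f 0 = g 0
  e1 : f 1 = g 1
  lt : ∀ x ∈ Ioo (0:ℝ) 1, f x < g x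

theorem F2_right (h : TG f g) {u : ℝ} (hu : 1 / 2 ≤ u) : F2 f g u = ⟨2 - 2 * u, g (2 - 2 * u)⟩ := by
  unfold F2
  split_ifs with h1
  · have : u = 1 / 2 := le_antisymm h1 hu
    rw [this]
    norm_num
    exact h.e1
  · rfl

theorem C2_per (t : ℝ) : C2 f g (t + 1) = C2 f g t := by
  unfold C2; rw [Int.fract_add_one]

theorem C2_f {t : ℝ} (h0 : 0 ≤ t) (h1 : t ≤ 1 / 2) : C2 f g t = ⟨2 * t, f (2 * t)⟩ := by
  unfold C2 F2
  rw [Int.fract_eq_self.2 ⟨h0, by linarith⟩, if_pos h1]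

theorem C2_g (h : TG f g) {t : ℝ} (h0 : 1 / 2 ≤ t) (h1 : t ≤ 1) :
    C2 f g t = ⟨2 - 2 * t, g (2 - 2 * t)⟩ := by
  rcases h1.lt_or_eq with h1 | h1
  · unfold C2
    rw [Int.fract_eq_self.2 ⟨by linarith, h1⟩, F2_right h h0]
  · have : C2 f g 1 = C2 f g 0 := by rw [← C2_per 0, zero_add]
    rw [h1, this, C2_f le_rfl (by norm_num)]
    norm_num
    exact h.e0

theorem C2_loop (h : TG f g) : Loop (C2 f g) := by
  refine ⟨?_, C2_per⟩
  have key : ContinuousOn (F2 f g) (Icc 0 1) := by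
    have hu : Icc (0:ℝ) 1 = Icc 0 (1 / 2) ∪ Icc (1 / 2) 1 := by
      rw [Icc_union_Icc_eq_Icc (by norm_num) (by norm_num)]
    rw [hu]
    refine ContinuousOn.union_of_isClosed ?_ ?_ isClosed_Icc isClosed_Icc
    · have h1 : ContinuousOn (fun u : ℝ => ((2 * u : ℝ) : ℂ) + (f (2 * u) : ℝ) * I)
          (Icc 0 (1 / 2)) := by
        refine ContinuousOn.add (by fun_prop) (ContinuousOn.mul ?_ continuousOn_const)
        refine continuous_ofReal.comp_continuousOn (h.cf.comp (by fun_prop) fun u hu =>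
          ⟨by linarith [hu.1], by linarith [hu.2]⟩)
      refine h1.congr fun u hu => ?_
      unfold F2
      rw [if_pos hu.2]
      apply Complex.ext <;> simp
    · have h1 : ContinuousOn (fun u : ℝ => ((2 - 2 * u : ℝ) : ℂ) + (g (2 - 2 * u) : ℝ) * I)
          (Icc (1 / 2) 1) := by
        refine ContinuousOn.add (by fun_prop) (ContinuousOn.mul ?_ continuousOn_const)
        refine continuous_ofReal.comp_continuousOn (h.cg.comp (by fun_prop) fun u hu =>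
          ⟨by linarith [hu.2], by linarith [hu.1]⟩)
      refine h1.congr fun u hu => ?_
      rw [F2_right h hu.1]
      apply Complex.ext <;> simp
  have := ContinuousOn.comp_fract'' key (by
    rw [F2_right h (by norm_num : (1:ℝ) / 2 ≤ 1)]
    unfold F2
    rw [if_pos (by norm_num)]
    norm_num
    exact h.e0)
  exact this

theorem C2_inj (h : TG f g) : Inj (C2 f g) := by
  refine H765R3.Peg.inj_of (C2_loop h) ?_
  have key : ∀ u ∈ Ico (0:ℝ) 1, ∀ v ∈ Ico (0:ℝ) 1, u ≤ 1 / 2 → 1 / 2 < v → C2 f g u ≠ C2 f g v := by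
    intro u hu v hv h1 h2 e
    rw [C2_f hu.1 h1, C2_g h h2.le hv.2.le] at e
    have e1 : 2 * u = 2 - 2 * v := congrArg Complex.re e
    have e2 : f (2 * u) = g (2 - 2 * v) := congrArg Complex.im e
    rw [← e1] at e2
    have := h.lt (2 * u) ⟨by linarith [hv.2], by linarith⟩
    linarith
  intro u hu v hv e
  rcases le_or_gt u (1 / 2) with h1 | h1 <;> rcases le_or_gt v (1 / 2) with h2 | h2
  · rw [C2_f hu.1 h1, C2_f hv.1 h2] at e
    have e1 : 2 * u = 2 * v := congrArg Complex.re e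
    linarith
  · exact absurd e (key u hu v hv h1 h2)
  · exact absurd e.symm (key v hv u hu h2 h1)
  · rw [C2_g h h1.le hu.2.le, C2_g h h2.le hv.2.le] at e
    have e1 : 2 - 2 * u = 2 - 2 * v := congrArg Complex.re e
    linarith

theorem C2_f' {t : ℝ} (h0 : 1 ≤ t) (h1 : t ≤ 3 / 2) :
    C2 f g t = ⟨2 * t - 2, f (2 * t - 2)⟩ := by
  have := C2_per (f := f) (g := g) (t - 1)
  rw [sub_add_cancel] at this
  rw [this, C2_f (by linarith) (by linarith), show 2 * (t - 1) = 2 * t - 2 by ring]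

theorem C2_g' (h : TG f g) {t : ℝ} (h0 : -(1 / 2) ≤ t) (h1 : t ≤ 0) :
    C2 f g t = ⟨-2 * t, g (-2 * t)⟩ := by
  rw [← C2_per t, C2_g h (by linarith) (by linarith), show 2 - 2 * (t + 1) = -2 * t by ring]

/-- the orientation of the curve -/
theorem C2_or (h : TG f g) : ∃ z, IsWc (C2 f g) z 1 := by
  have L := C2_loop h
  obtain ⟨z, hz⟩ : ∃ z : ℂ, z = ⟨1 / 2, (f (1 / 2) + g (1 / 2)) / 2⟩ := ⟨_, rfl⟩
  have zr : z.re = 1 / 2 := by rw [hz]
  have zi : z.im = (f (1 / 2) + g (1 / 2)) / 2 := by rw [hz]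
  have hlt := h.lt (1 / 2) ⟨by norm_num, by norm_num⟩
  have hzr : z ∉ range (C2 f g) := by
    rintro ⟨t, ht⟩
    have e : C2 f g (Int.fract t) = z := by
      rw [← ht]; unfold C2; rw [Int.fract_fract]
    obtain ⟨u, hu⟩ : ∃ u, u = Int.fract t := ⟨_, rfl⟩
    have u0 : 0 ≤ u := by rw [hu]; exact Int.fract_nonneg t
    have u1 : u < 1 := by rw [hu]; exact Int.fract_lt_one t
    rw [← hu] at e
    rcases le_or_gt u (1 / 2) with h1 | h1
    · rw [C2_f u0 h1] at e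
      have e1 : 2 * u = z.re := congrArg Complex.re e
      have e2 : f (2 * u) = z.im := congrArg Complex.im e
      rw [e1, zr, zi] at e2
      linarith
    · rw [C2_g h h1.le u1.le] at e
      have e1 : 2 - 2 * u = z.re := congrArg Complex.re e
      have e2 : g (2 - 2 * u) = z.im := congrArg Complex.im e
      rw [e1, zr, zi] at e2
      linarith
  refine ⟨z, ?_⟩
  obtain ⟨n, hn⟩ := L.exW hzr
  have w1 : Phi (C2 f g) z (1 / 4) (3 / 4) = Real.pi := by
    refine half_turn L hzr (t := 1 / 2) ⟨by norm_num, by norm_num, ?_, ?_⟩ ?_ ?_ ?_ ?_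
    · intro τ hτ τ' hτ' hh
      rw [C2_f (by linarith [hτ.1]) hτ.2, C2_f (by linarith [hτ'.1]) hτ'.2]
      show 2 * τ < 2 * τ'
      linarith
    · intro τ hτ τ' hτ' hh
      rw [C2_g h hτ.1 (by linarith [hτ.2]), C2_g h hτ'.1 (by linarith [hτ'.2])]
      show 2 - 2 * τ' < 2 - 2 * τ
      linarith
    · rw [C2_f (by norm_num) (by norm_num), zr]
      show (2:ℝ) * (1 / 4) = 1 / 2
      norm_num
    · rw [C2_g h (by norm_num) (by norm_num), zr]
      show 2 - (2:ℝ) * (3 / 4) = 1 / 2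
      norm_num
    · rw [C2_f (by norm_num) (by norm_num), zi]
      show f (2 * (1 / 4)) < _
      rw [show (2:ℝ) * (1 / 4) = 1 / 2 by norm_num]
      linarith
    · rw [C2_g h (by norm_num) (by norm_num), zi]
      show _ < g (2 - 2 * (3 / 4))
      rw [show 2 - (2:ℝ) * (3 / 4) = 1 / 2 by norm_num]
      linarith
  have w2 : Phi (C2 f g) z (3 / 4) (5 / 4) = Real.pi := by
    rw [← Phi_rot L (w := -1) (by norm_num) hzr]
    have hzr' : -1 * z ∉ range fun τ => -1 * C2 f g τ := by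
      rintro ⟨τ, hτ⟩
      exact hzr ⟨τ, by simpa using hτ⟩
    refine half_turn (Loop.rot L (-1)) hzr' (t := 1) ⟨by norm_num, by norm_num, ?_, ?_⟩ ?_ ?_ ?_ ?_
    · intro τ hτ τ' hτ' hh
      simp only [neg_mul, one_mul, neg_re]
      rw [C2_g h (by linarith [hτ.1]) hτ.2, C2_g h (by linarith [hτ'.1]) hτ'.2]
      show -(2 - 2 * τ) < -(2 - 2 * τ')
      linarith
    · intro τ hτ τ' hτ' hh
      simp only [neg_mul, one_mul, neg_re]
      rw [C2_f' hτ.1 (by linarith [hτ.2]), C2_f' hτ'.1 (by linarith [hτ'.2])]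
      show -(2 * τ' - 2) < -(2 * τ - 2)
      linarith
    · simp only [neg_mul, one_mul, neg_re]
      rw [C2_g h (by norm_num) (by norm_num), zr]
      show -(2 - (2:ℝ) * (3 / 4)) = -(1 / 2)
      norm_num
    · simp only [neg_mul, one_mul, neg_re]
      rw [C2_f' (by norm_num) (by norm_num), zr]
      show -((2:ℝ) * (5 / 4) - 2) = -(1 / 2)
      norm_num
    · simp only [neg_mul, one_mul, neg_im]
      rw [C2_g h (by norm_num) (by norm_num), zi]
      show -(g (2 - 2 * (3 / 4))) < _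
      rw [show 2 - (2:ℝ) * (3 / 4) = 1 / 2 by norm_num]
      linarith
    · simp only [neg_mul, one_mul, neg_im]
      rw [C2_f' (by norm_num) (by norm_num), zi]
      show _ < -(f (2 * (5 / 4) - 2))
      rw [show (2:ℝ) * (5 / 4) - 2 = 1 / 2 by norm_num]
      linarith
  have h1 := Phi_add L hzr (1 / 4) (3 / 4) (5 / 4)
  have h2 := Phi_wind L hn (1 / 4)
  rw [show (1:ℝ) / 4 + 1 = 5 / 4 by norm_num] at h2
  rw [w1, w2, h2] at h1
  have hπ := Real.pi_pos
  have h3 : (n : ℝ) = 1 := by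
    have : (2 * Real.pi) * ((n : ℝ) - 1) = 0 := by linarith
    rcases mul_eq_zero.1 this with h | h <;> linarith
  have h4 : n = 1 := by exact_mod_cast h3
  rw [h4] at hn
  exact hn

/-- first graph monotone in a second direction near the right end -/
def MonoEnd (f g : ℝ → ℝ) : Prop := ∃ l δ : ℝ, 0 < δ ∧ δ < 1 ∧
  MonotoneOn (fun x => f x + l * x) (Icc (1 - δ) 1) ∧
  (∀ ε > 0, ∃ x ∈ Ioo (1 - ε) 1, g 1 + l * 1 ≤ g x + l * x) ∧
  (l < 0 ∨ ∃ x ∈ Ico (1 - δ) 1, x - l * f x < 1 - l * f 1)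

def FrameEnd (f g : ℝ → ℝ) : Prop := ∃ r ∈ Ioo (0:ℝ) 1, ∀ x ∈ Icc r 1, f r ≤ f x ∧ g x ≤ g r

/-- the curve near the right end -/
structure Tip (c : ℝ → ℂ) (t : ℝ) (f g : ℝ → ℝ) : Prop where
  A : ∀ s ∈ Icc (0:ℝ) (1 / 2), c (t - s) - c t = ⟨-(2 * s), f (1 - 2 * s) - f 1⟩
  B : ∀ s ∈ Icc (0:ℝ) (1 / 2), c (t + s) - c t = ⟨-(2 * s), g (1 - 2 * s) - g 1⟩
  e1 : f 1 = g 1
  lt : ∀ x ∈ Ioo (0:ℝ) 1, f x < g x

theorem Tip.Are {t : ℝ} (h : Tip c t f g) {τ : ℝ} (h1 : t - 1 / 2 ≤ τ) (h2 : τ ≤ t) :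
    (c τ).re = (c t).re - 2 * (t - τ) ∧ (c τ).im = (c t).im + f (1 - 2 * (t - τ)) - f 1 := by
  have h3 := h.A (t - τ) ⟨by linarith, by linarith⟩
  rw [sub_sub_cancel] at h3
  have h4 := congrArg Complex.re h3
  have h5 := congrArg Complex.im h3
  simp only [sub_re, sub_im] at h4 h5
  exact ⟨by linarith, by linarith⟩

theorem Tip.Bre {t : ℝ} (h : Tip c t f g) {τ : ℝ} (h1 : t ≤ τ) (h2 : τ ≤ t + 1 / 2) :
    (c τ).re = (c t).re - 2 * (τ - t) ∧ (c τ).im = (c t).im + g (1 - 2 * (τ - t)) - g 1 := by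
  have h3 := h.B (τ - t) ⟨by linarith, by linarith⟩
  rw [add_sub_cancel] at h3
  have h4 := congrArg Complex.re h3
  have h5 := congrArg Complex.im h3
  simp only [sub_re, sub_im] at h4 h5
  exact ⟨by linarith, by linarith⟩

theorem Tip.tn {t : ℝ} (h : Tip c t f g) {ρ : ℝ} (h0 : 0 < ρ) (h1 : ρ < 1 / 2) :
    Tn c (t - ρ) t (t + ρ) where
  h1 := by linarith
  h2 := by linarith
  inc τ hτ τ' hτ' hh := by
    rw [(h.Are (by linarith [hτ.1]) hτ.2).1, (h.Are (by linarith [hτ'.1]) hτ'.2).1]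
    linarith
  dec τ hτ τ' hτ' hh := by
    rw [(h.Bre hτ.1 (by linarith [hτ.2])).1, (h.Bre hτ'.1 (by linarith [hτ'.2])).1]
    linarith

theorem Tip.tl {t : ℝ} (h : Tip c t f g) {ρ : ℝ} (h0 : 0 < ρ) (h1 : ρ < 1 / 2) :
    TL c (t - ρ) t (t + ρ) := by
  intro τ hτ τ' hτ' e
  obtain ⟨a1, a2⟩ := h.Are (τ := τ) (by linarith [hτ.1]) hτ.2.le
  obtain ⟨b1, b2⟩ := h.Bre (τ := τ') hτ'.1.le (by linarith [hτ'.2])
  rw [a1, b1] at e
  have e2 : t - τ = τ' - t := by linarith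
  rw [a2, b2, e2, h.e1]
  have := h.lt (1 - 2 * (τ' - t)) ⟨by linarith [hτ'.2], by linarith [hτ'.1]⟩
  linarith

theorem tip_frame {t : ℝ} (h : Tip c t f g) (hF : FrameEnd f g) : ∃ p q, LB c p t q := by
  obtain ⟨r, hr, hF⟩ := hF
  obtain ⟨ρ, hρ⟩ : ∃ ρ, ρ = (1 - r) / 2 := ⟨_, rfl⟩
  have r0 : 0 < ρ := by rw [hρ]; linarith [hr.2]
  have r1 : ρ < 1 / 2 := by rw [hρ]; linarith [hr.1]
  refine ⟨t - ρ, t + ρ, frame (by linarith) (by linarith) (by linarith) (h.tn r0 r1)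
    (h.tl r0 r1) ?_ ?_ ?_⟩
  · rw [(h.Are (τ := t - ρ) (by linarith) (by linarith)).1,
      (h.Bre (τ := t + ρ) (by linarith) (by linarith)).1]
    ring
  · intro τ hτ
    rw [(h.Are (τ := t - ρ) (by linarith) (by linarith)).2,
      (h.Are (τ := τ) (by linarith [hτ.1]) hτ.2).2]
    have := (hF (1 - 2 * (t - τ)) ⟨by linarith [hτ.1], by linarith [hτ.2]⟩).1
    rw [show 1 - 2 * (t - (t - ρ)) = r by rw [hρ]; ring]
    linarith
  · intro τ hτ
    rw [(h.Bre (τ := t + ρ) (by linarith) (by linarith)).2,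
      (h.Bre (τ := τ) hτ.1 (by linarith [hτ.2])).2]
    have := (hF (1 - 2 * (τ - t)) ⟨by linarith [hτ.2], by linarith [hτ.1]⟩).2
    rw [show 1 - 2 * (t + ρ - t) = r by rw [hρ]; ring]
    linarith

theorem tip_monoA (L : Loop c) {t : ℝ} (h : Tip c t f g) (hF : MonoEnd f g) :
    ∃ p q, LB c p t q := by
  obtain ⟨l, δ, d0, d1, hm, hr, hp⟩ := hF
  obtain ⟨ρ, hρ⟩ : ∃ ρ, ρ = δ / 2 := ⟨_, rfl⟩
  have r0 : 0 < ρ := by rw [hρ]; linarith
  have r1 : ρ < 1 / 2 := by rw [hρ]; linarith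
  refine slopeA_loc (l := l) L r0 r1 (h.tn r0 r1) (h.tl r0 r1) ?_ ?_ ?_
  · intro τ hτ τ' hτ' hh
    obtain ⟨a1, a2⟩ := h.Are (τ := τ) (by linarith [hτ.1]) hτ.2
    obtain ⟨b1, b2⟩ := h.Are (τ := τ') (by linarith [hτ'.1]) hτ'.2
    have := hm (a := 1 - 2 * (t - τ)) ⟨by linarith [hτ.1], by linarith [hτ.2]⟩
      (b := 1 - 2 * (t - τ')) ⟨by linarith [hτ'.1], by linarith [hτ'.2]⟩ (by linarith)
    simp only at this
    rw [a1, a2, b1, b2]
    linarith
  · intro ε hε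
    obtain ⟨x, hx, h2⟩ := hr (min ε 1) (by positivity)
    have m1 := min_le_left ε 1
    have m2 := min_le_right ε 1
    obtain ⟨b1, b2⟩ := h.Bre (τ := t + (1 - x) / 2) (by linarith [hx.2]) (by linarith [hx.1])
    refine ⟨t + (1 - x) / 2, by linarith [hx.2], by linarith [hx.1], ?_⟩
    rw [show 1 - 2 * (t + (1 - x) / 2 - t) = x by ring] at b2
    rw [b1, b2]
    linarith
  · rcases hp with hp | ⟨x, hx, hp⟩
    · exact Or.inl hp
    · right
      obtain ⟨b1, b2⟩ := h.Are (τ := t - (1 - x) / 2) (by linarith [hx.1]) (by linarith [hx.2])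
      refine ⟨t - (1 - x) / 2, ⟨by linarith [hx.1], by linarith [hx.2]⟩, ?_⟩
      rw [show 1 - 2 * (t - (t - (1 - x) / 2)) = x by ring] at b2
      rw [b1, b2]
      linarith

theorem tip_monoB (L : Loop c) {t : ℝ} (h : Tip c t f g)
    (hF : MonoEnd (fun x => -g x) (fun x => -f x)) : ∃ p q, LB c p t q := by
  obtain ⟨l, δ, d0, d1, hm, hr, hp⟩ := hF
  simp only at hr hp
  obtain ⟨ρ, hρ⟩ : ∃ ρ, ρ = δ / 2 := ⟨_, rfl⟩
  have r0 : 0 < ρ := by rw [hρ]; linarith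
  have r1 : ρ < 1 / 2 := by rw [hρ]; linarith
  refine slopeB_loc (l := l) L r0 r1 (h.tn r0 r1) (h.tl r0 r1) ?_ ?_ ?_
  · intro τ hτ τ' hτ' hh
    obtain ⟨a1, a2⟩ := h.Bre (τ := τ) hτ.1 (by linarith [hτ.2])
    obtain ⟨b1, b2⟩ := h.Bre (τ := τ') hτ'.1 (by linarith [hτ'.2])
    have := hm (a := 1 - 2 * (τ' - t)) ⟨by linarith [hτ'.2], by linarith [hτ'.1]⟩
      (b := 1 - 2 * (τ - t)) ⟨by linarith [hτ.2], by linarith [hτ.1]⟩ (by linarith)
    simp only at this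
    rw [a1, a2, b1, b2]
    linarith
  · intro ε hε
    obtain ⟨x, hx, h2⟩ := hr (min ε 1) (by positivity)
    have m1 := min_le_left ε 1
    have m2 := min_le_right ε 1
    obtain ⟨b1, b2⟩ := h.Are (τ := t - (1 - x) / 2) (by linarith [hx.1]) (by linarith [hx.2])
    refine ⟨t - (1 - x) / 2, by linarith [hx.2], by linarith [hx.1], ?_⟩
    rw [show 1 - 2 * (t - (t - (1 - x) / 2)) = x by ring] at b2
    rw [b1, b2]
    linarith
  · rcases hp with hp | ⟨x, hx, hp⟩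
    · exact Or.inl hp
    · right
      obtain ⟨b1, b2⟩ := h.Bre (τ := t + (1 - x) / 2) (by linarith [hx.2]) (by linarith [hx.1])
      refine ⟨t + (1 - x) / 2, ⟨by linarith [hx.2], by linarith [hx.1]⟩, ?_⟩
      rw [show 1 - 2 * (t + (1 - x) / 2 - t) = x by ring] at b2
      rw [b1, b2]
      linarith

/-- the first graph has slopes in a small interval near the right end -/
def LipEnd (f g : ℝ → ℝ) : Prop := ∃ k l δ : ℝ, 0 < δ ∧ 0 ≤ l ∧ l ^ 2 < 1 + k ^ 2 ∧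
  (∀ x ∈ Icc (1 - δ) 1, ∀ y ∈ Icc (1 - δ) 1, |f y - f x - k * (y - x)| ≤ l * |y - x|) ∧
  ∀ ε > 0, ∃ x ∈ Ioo (1 - ε) 1, 2 * l * min 1 (|k| + l) * (1 - x) ≤ g x - f x

theorem min_cond {k l : ℝ} : 2 * l ≤ 2 * l * min 1 (|k| + l) ∨
    2 * l * (|k| + l) ≤ 2 * l * min 1 (|k| + l) := by
  rcases min_choice 1 (|k| + l) with h | h
  · left; rw [h, mul_one]
  · right; rw [h]

theorem tip_lipA (L : Loop c) {t : ℝ} (h : Tip c t f g) (hF : LipEnd f g) :
    ∃ p q, LB c p t q := by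
  obtain ⟨k, l, δ, d0, l0, hkl, hs, hr⟩ := hF
  obtain ⟨ρ, hρ⟩ : ∃ ρ, ρ = min δ (1 / 2) / 2 := ⟨_, rfl⟩
  have r0 : 0 < ρ := by rw [hρ]; positivity
  have r1 : 2 * ρ ≤ δ := by rw [hρ]; linarith [min_le_left δ (1 / 2)]
  have r2 : ρ < 1 / 2 := by rw [hρ]; linarith [min_le_right δ (1 / 2)]
  refine lipA_loc (a := fun X => (c t).im + f (1 + X - (c t).re) - f 1) L r0 r2 (h.tn r0 r2)
    (h.tl r0 r2) (fun τ hτ => ?_) (k := k) (l := l) (fun x hx y hy => ?_) l0 hkl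
    (m := 2 * l * min 1 (|k| + l)) min_cond fun ε hε => ?_
  · obtain ⟨a1, a2⟩ := h.Are (τ := τ) (by linarith [hτ.1]) hτ.2
    rw [a1, a2]
    rw [show 1 + ((c t).re - 2 * (t - τ)) - (c t).re = 1 - 2 * (t - τ) by ring]
  · obtain ⟨a1, -⟩ := h.Are (τ := t - ρ) (by linarith) (by linarith)
    rw [a1] at hx hy
    have h1 := hs (1 + x - (c t).re) ⟨by linarith [hx.1], by linarith [hx.2]⟩
      (1 + y - (c t).re) ⟨by linarith [hy.1], by linarith [hy.2]⟩
    rw [show 1 + y - (c t).re - (1 + x - (c t).re) = y - x by ring] at h1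
    convert h1 using 2
    ring
  · obtain ⟨x, hx, h2⟩ := hr (min ε 1) (by positivity)
    have m1 := min_le_left ε 1
    have m2 := min_le_right ε 1
    obtain ⟨b1, b2⟩ := h.Bre (τ := t + (1 - x) / 2) (by linarith [hx.2]) (by linarith [hx.1])
    refine ⟨t + (1 - x) / 2, by linarith [hx.2], by linarith [hx.1], ?_⟩
    rw [show 1 - 2 * (t + (1 - x) / 2 - t) = x by ring] at b2
    rw [b1, b2]
    rw [show 1 + ((c t).re - 2 * (t + (1 - x) / 2 - t)) - (c t).re = x by ring, h.e1,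
      show (c t).re - ((c t).re - 2 * (t + (1 - x) / 2 - t)) = 1 - x by ring]
    linarith

theorem tip_lipB (L : Loop c) {t : ℝ} (h : Tip c t f g)
    (hF : LipEnd (fun x => -g x) (fun x => -f x)) : ∃ p q, LB c p t q := by
  obtain ⟨k, l, δ, d0, l0, hkl, hs, hr⟩ := hF
  simp only at hs hr
  obtain ⟨ρ, hρ⟩ : ∃ ρ, ρ = min δ (1 / 2) / 2 := ⟨_, rfl⟩
  have r0 : 0 < ρ := by rw [hρ]; positivity
  have r1 : 2 * ρ ≤ δ := by rw [hρ]; linarith [min_le_left δ (1 / 2)]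
  have r2 : ρ < 1 / 2 := by rw [hρ]; linarith [min_le_right δ (1 / 2)]
  refine lipB_loc (a := fun X => (c t).im + g (1 + X - (c t).re) - g 1) L r0 r2 (h.tn r0 r2)
    (h.tl r0 r2) (fun τ hτ => ?_) (k := -k) (l := l) (fun x hx y hy => ?_) l0 (by linarith)
    (m := 2 * l * min 1 (|k| + l)) (by rw [abs_neg]; exact min_cond) fun ε hε => ?_
  · obtain ⟨a1, a2⟩ := h.Bre (τ := τ) hτ.1 (by linarith [hτ.2])
    rw [a1, a2]
    rw [show 1 + ((c t).re - 2 * (τ - t)) - (c t).re = 1 - 2 * (τ - t) by ring]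
  · obtain ⟨a1, -⟩ := h.Bre (τ := t + ρ) (by linarith) (by linarith)
    rw [a1] at hx hy
    have h1 := hs (1 + x - (c t).re) ⟨by linarith [hx.1], by linarith [hx.2]⟩
      (1 + y - (c t).re) ⟨by linarith [hy.1], by linarith [hy.2]⟩
    rw [show 1 + y - (c t).re - (1 + x - (c t).re) = y - x by ring, ← abs_neg] at h1
    convert h1 using 2
    ring
  · obtain ⟨x, hx, h2⟩ := hr (min ε 1) (by positivity)
    have m1 := min_le_left ε 1
    have m2 := min_le_right ε 1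
    obtain ⟨b1, b2⟩ := h.Are (τ := t - (1 - x) / 2) (by linarith [hx.1]) (by linarith [hx.2])
    refine ⟨t - (1 - x) / 2, by linarith [hx.2], by linarith [hx.1], ?_⟩
    rw [show 1 - 2 * (t - (t - (1 - x) / 2)) = x by ring] at b2
    rw [b1, b2]
    rw [show 1 + ((c t).re - 2 * (t - (t - (1 - x) / 2))) - (c t).re = x by ring, ← h.e1,
      show (c t).re - ((c t).re - 2 * (t - (t - (1 - x) / 2))) = 1 - x by ring]
    linarith

/-- a Lipschitz derivative near the right end -/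
def C11End (f : ℝ → ℝ) : Prop := ∃ (f' : ℝ → ℝ) (C δ : ℝ), 0 < δ ∧
  (∀ x ∈ Icc (1 - δ) 1, HasDerivWithinAt f (f' x) (Icc (1 - δ) 1) x) ∧
  ∀ x ∈ Icc (1 - δ) 1, ∀ y ∈ Icc (1 - δ) 1, |f' y - f' x| ≤ C * |y - x|

theorem shift_deriv {f f' : ℝ → ℝ} {δ X r x₀ : ℝ} (hr : r ≤ δ)
    (h : ∀ x ∈ Icc (1 - δ) 1, HasDerivWithinAt f (f' x) (Icc (1 - δ) 1) x) (h0 : x₀ = X - r)
    {b e : ℝ} {x : ℝ} (hx : x ∈ Icc x₀ X) :
    HasDerivWithinAt (fun x => b + f (1 + x - X) - e) (f' (1 + x - X)) (Icc x₀ X) x := by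
  have g1 := h (1 + x - X) ⟨by linarith [hx.1], by linarith [hx.2]⟩
  have g2 : HasDerivWithinAt (fun x : ℝ => 1 + x - X) 1 (Icc x₀ X) x :=
    ((hasDerivWithinAt_id x _).const_add 1).sub_const X
  have g4 : MapsTo (fun x : ℝ => 1 + x - X) (Icc x₀ X) (Icc (1 - δ) 1) := fun y hy =>
    ⟨by show 1 - δ ≤ 1 + y - X; linarith [hy.1], by show 1 + y - X ≤ 1; linarith [hy.2]⟩
  have g3 := HasDerivWithinAt.comp x g1 g2 g4
  rw [mul_one] at g3
  exact (g3.const_add b).sub_const e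

theorem tip_ceeA (L : Loop c) {t : ℝ} (h : Tip c t f g) (hF : C11End f) : ∃ p q, LB c p t q := by
  obtain ⟨f', C, δ, d0, hd, hC⟩ := hF
  obtain ⟨ρ, hρ⟩ : ∃ ρ, ρ = min δ (1 / 2) / 2 := ⟨_, rfl⟩
  have r0 : 0 < ρ := by rw [hρ]; positivity
  have r1 : 2 * ρ ≤ δ := by rw [hρ]; linarith [min_le_left δ (1 / 2)]
  have r2 : ρ < 1 / 2 := by rw [hρ]; linarith [min_le_right δ (1 / 2)]
  have a1 : (c (t - ρ)).re = (c t).re - 2 * ρ := by
    rw [(h.Are (τ := t - ρ) (by linarith) (by linarith)).1]; ring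
  refine ceeA_loc (a := fun X => (c t).im + f (1 + X - (c t).re) - f 1)
    (a' := fun X => f' (1 + X - (c t).re)) (C := |C|) L r0 r2 (h.tn r0 r2)
    (h.tl r0 r2) (fun τ hτ => ?_) (abs_nonneg C) (fun x hx => ?_) (fun x hx y hy => ?_)
  · obtain ⟨a1, a2⟩ := h.Are (τ := τ) (by linarith [hτ.1]) hτ.2
    rw [a1, a2]
    rw [show 1 + ((c t).re - 2 * (t - τ)) - (c t).re = 1 - 2 * (t - τ) by ring]
  · exact shift_deriv r1 hd a1 hx
  · rw [a1] at hx hy
    have h1 := hC (1 + x - (c t).re) ⟨by linarith [hx.1], by linarith [hx.2]⟩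
      (1 + y - (c t).re) ⟨by linarith [hy.1], by linarith [hy.2]⟩
    rw [show 1 + y - (c t).re - (1 + x - (c t).re) = y - x by ring] at h1
    exact h1.trans (mul_le_mul_of_nonneg_right (le_abs_self C) (abs_nonneg _))

theorem tip_ceeB (L : Loop c) {t : ℝ} (h : Tip c t f g) (hF : C11End g) : ∃ p q, LB c p t q := by
  obtain ⟨g', C, δ, d0, hd, hC⟩ := hF
  obtain ⟨ρ, hρ⟩ : ∃ ρ, ρ = min δ (1 / 2) / 2 := ⟨_, rfl⟩
  have r0 : 0 < ρ := by rw [hρ]; positivity
  have r1 : 2 * ρ ≤ δ := by rw [hρ]; linarith [min_le_left δ (1 / 2)]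
  have r2 : ρ < 1 / 2 := by rw [hρ]; linarith [min_le_right δ (1 / 2)]
  have a1 : (c (t + ρ)).re = (c t).re - 2 * ρ := by
    rw [(h.Bre (τ := t + ρ) (by linarith) (by linarith)).1]; ring
  refine ceeB_loc (a := fun X => (c t).im + g (1 + X - (c t).re) - g 1)
    (a' := fun X => g' (1 + X - (c t).re)) (C := |C|) L r0 r2 (h.tn r0 r2)
    (h.tl r0 r2) (fun τ hτ => ?_) (abs_nonneg C) (fun x hx => ?_) (fun x hx y hy => ?_)
  · obtain ⟨a1, a2⟩ := h.Bre (τ := τ) hτ.1 (by linarith [hτ.2])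
    rw [a1, a2]
    rw [show 1 + ((c t).re - 2 * (τ - t)) - (c t).re = 1 - 2 * (τ - t) by ring]
  · exact shift_deriv r1 hd a1 hx
  · rw [a1] at hx hy
    have h1 := hC (1 + x - (c t).re) ⟨by linarith [hx.1], by linarith [hx.2]⟩
      (1 + y - (c t).re) ⟨by linarith [hy.1], by linarith [hy.2]⟩
    rw [show 1 + y - (c t).re - (1 + x - (c t).re) = y - x by ring] at h1
    exact h1.trans (mul_le_mul_of_nonneg_right (le_abs_self C) (abs_nonneg _))

theorem C11End.neg (h : C11End f) : C11End (fun x => -f x) := by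
  obtain ⟨f', C, δ, d0, hd, hC⟩ := h
  refine ⟨fun x => -f' x, C, δ, d0, fun x hx => (hd x hx).neg, fun x hx y hy => ?_⟩
  have := hC x hx y hy
  rw [← abs_neg] at this
  convert this using 2
  ring

/-- the allowed ends -/
def EndOK (f g : ℝ → ℝ) : Prop :=
  FrameEnd f g ∨ (MonoEnd f g ∨ MonoEnd (fun x => -g x) (fun x => -f x)) ∨
    (LipEnd f g ∨ LipEnd (fun x => -g x) (fun x => -f x)) ∨ C11End f ∨ C11End g

theorem tip_ok (L : Loop c) {t : ℝ} (h : Tip c t f g) (hE : EndOK f g) : SOK c t ∧ EOK c t := by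
  obtain ⟨p, q, hb⟩ : ∃ p q, LB c p t q := by
    rcases hE with hE | (hE | hE) | (hE | hE) | hE | hE
    · exact tip_frame h hE
    · exact tip_monoA L h hE
    · exact tip_monoB L h hE
    · exact tip_lipA L h hE
    · exact tip_lipB L h hE
    · exact tip_ceeA L h hE
    · exact tip_ceeB L h hE
  exact ok_left L hb

theorem EndOK.symm (h : EndOK f g) : EndOK (fun x => -g x) (fun x => -f x) := by
  rcases h with h | (h | h) | (h | h) | h | h
  · obtain ⟨r, hr, h⟩ := h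
    exact Or.inl ⟨r, hr, fun x hx => ⟨neg_le_neg (h x hx).2, neg_le_neg (h x hx).1⟩⟩
  · right; left; right
    simpa using h
  · exact Or.inr (Or.inl (Or.inl h))
  · right; right; left; right
    simpa using h
  · exact Or.inr (Or.inr (Or.inl (Or.inl h)))
  · exact Or.inr (Or.inr (Or.inr (Or.inr h.neg)))
  · exact Or.inr (Or.inr (Or.inr (Or.inl h.neg)))

theorem two_graphs (h : TG f g) (h1 : EndOK f g)
    (h0 : EndOK (fun x => f (1 - x)) (fun x => g (1 - x))) : ¬ NoSq (range (C2 f g)) := by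
  have L := C2_loop h
  refine core L (C2_inj h) (orient L (C2_inj h) (C2_or h)) fun t ht => ?_
  have rt : Tip (C2 f g) (1 / 2) f g := by
    have e : C2 f g (1 / 2) = ⟨1, f 1⟩ := by
      rw [C2_f (by norm_num) le_rfl]; norm_num
    refine ⟨fun s hs => ?_, fun s hs => ?_, h.e1, h.lt⟩
    · rw [C2_f (by linarith [hs.2]) (by linarith [hs.1]), e]
      apply Complex.ext
      · show 2 * (1 / 2 - s) - 1 = -(2 * s)
        ring
      · show f (2 * (1 / 2 - s)) - f 1 = _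
        rw [show 2 * (1 / 2 - s) = 1 - 2 * s by ring]
    · rw [C2_g h (by linarith [hs.1]) (by linarith [hs.2]), e]
      apply Complex.ext
      · show 2 - 2 * (1 / 2 + s) - 1 = -(2 * s)
        ring
      · show g (2 - 2 * (1 / 2 + s)) - f 1 = _
        rw [show 2 - 2 * (1 / 2 + s) = 1 - 2 * s by ring, h.e1]
  have lt0 : ∀ t, t = 0 ∨ t = 1 → Tip (fun τ => -1 * C2 f g τ) t (fun x => -g (1 - x))
      (fun x => -f (1 - x)) := by
    intro t ht
    have e : C2 f g t = ⟨0, f 0⟩ := by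
      rcases ht with rfl | rfl
      · rw [C2_f le_rfl (by norm_num)]; norm_num
      · rw [C2_g h (by norm_num) le_rfl, h.e0]; norm_num
    have eA : ∀ s ∈ Icc (0:ℝ) (1 / 2), C2 f g (t - s) = ⟨2 * s, g (2 * s)⟩ := by
      intro s hs
      rcases ht with rfl | rfl
      · rw [C2_g' h (by linarith [hs.2]) (by linarith [hs.1]),
          show -2 * (0 - s) = 2 * s by ring]
      · rw [C2_g h (by linarith [hs.2]) (by linarith [hs.1]),
          show 2 - 2 * (1 - s) = 2 * s by ring]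
    have eB : ∀ s ∈ Icc (0:ℝ) (1 / 2), C2 f g (t + s) = ⟨2 * s, f (2 * s)⟩ := by
      intro s hs
      rcases ht with rfl | rfl
      · rw [C2_f (by linarith [hs.1]) (by linarith [hs.2]), zero_add]
      · rw [C2_f' (by linarith [hs.1]) (by linarith [hs.2]),
          show 2 * (1 + s) - 2 = 2 * s by ring]
    refine ⟨fun s hs => ?_, fun s hs => ?_, ?_, fun x hx => ?_⟩
    · rw [eA s hs, e]
      apply Complex.ext
      · simp
      · simp [h.e0]
    · rw [eB s hs, e]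
      apply Complex.ext
      · simp
      · simp
    · simp [h.e0]
    · exact neg_lt_neg (h.lt (1 - x) ⟨by linarith [hx.2], by linarith [hx.1]⟩)
  have left : ∀ t, t = 0 ∨ t = 1 → SOK (C2 f g) t ∧ EOK (C2 f g) t := by
    intro t ht
    have := tip_ok (Loop.rot L (-1)) (lt0 t ht) h0.symm
    exact ⟨SOK.rot L (by norm_num) this.1, EOK.rot L (by norm_num) this.2⟩
  rcases lt_trichotomy t (1 / 2) with h2 | h2 | h2
  · rcases ht.1.lt_or_eq with h3 | h3
    · obtain ⟨ρ, hρ⟩ : ∃ ρ, ρ = min t (1 / 2 - t) := ⟨_, rfl⟩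
      have r0 : 0 < ρ := by rw [hρ]; exact lt_min h3 (by linarith)
      have r1 : ρ ≤ t := by rw [hρ]; exact min_le_left _ _
      have r2 : ρ ≤ 1 / 2 - t := by rw [hρ]; exact min_le_right _ _
      refine ok_mono L r0 (Or.inl fun τ hτ τ' hτ' hh => ?_)
      rw [C2_f (by linarith [hτ.1]) (by linarith [hτ.2]),
        C2_f (by linarith [hτ'.1]) (by linarith [hτ'.2])]
      show 2 * τ < 2 * τ'
      linarith
    · exact left t (Or.inl h3.symm)
  · rw [h2]; exact tip_ok L rt h1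
  · rcases ht.2.lt_or_eq with h3 | h3
    · obtain ⟨ρ, hρ⟩ : ∃ ρ, ρ = min (1 - t) (t - 1 / 2) := ⟨_, rfl⟩
      have r0 : 0 < ρ := by rw [hρ]; exact lt_min (by linarith) (by linarith)
      have r1 : ρ ≤ 1 - t := by rw [hρ]; exact min_le_left _ _
      have r2 : ρ ≤ t - 1 / 2 := by rw [hρ]; exact min_le_right _ _
      refine ok_mono L r0 (Or.inr fun τ hτ τ' hτ' hh => ?_)
      rw [C2_g h (t := τ) (by linarith [hτ.1]) (by linarith [hτ.2]),
        C2_g h (t := τ') (by linarith [hτ'.1]) (by linarith [hτ'.2])]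
      show 2 - 2 * τ' < 2 - 2 * τ
      linarith
    · exact left t (Or.inr h3)

end Pool.Agent.T2h56.PM
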